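import Pool.Agent.Lib.MP_8d185c_al.Step0

/-!
Reduction to Case I.
-/

namespace MP8d

open scoped commutatorElement
open Subgroup

section Scaling

theorem int_scale {κ : Type*} [Finite κ] (b : κ → ℚ) :
    ∃ m : ℕ, 0 < m ∧ ∃ z : κ → ℤ, ∀ k, (z k : ℚ) = m * b k := by
  classical
  have := Fintype.ofFinite κ
  have h : ∀ s : Finset κ, ∃ m : ℕ, 0 < m ∧ ∀ k ∈ s, ∃ z : ℤ, (z : ℚ) = m * b k := by
    intro s
    induction s using Finset.induction_on with
    | empty => exact ⟨1, one_pos, by simp⟩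
    | insert a s ha ih =>
      obtain ⟨m, hm, h⟩ := ih
      refine ⟨m * (b a).den, Nat.mul_pos hm (b a).den_pos, ?_⟩
      intro k hk
      rw [Finset.mem_insert] at hk
      rcases hk with rfl | hk
      · refine ⟨m * (b k).num, ?_⟩
        have : ((b k).num : ℚ) = b k * (b k).den := (Rat.mul_den_eq_num (b k)).symm
        push_cast
        rw [this]; ring
      · obtain ⟨z, hz⟩ := h k hk
        refine ⟨z * (b a).den, ?_⟩
        push_cast
        rw [hz]; ring
  obtain ⟨m, hm, h⟩ := h Finset.univ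
  choose z hz using fun k => h k (Finset.mem_univ k)
  exact ⟨m, hm, z, hz⟩

end Scaling

section Wd

variable {ι : Type*} [Fintype ι] {Γ : Type*} [Group Γ]

/-- product of the commutators `⁅x_i, a_kl⁆` with exponents `z`. -/
noncomputable def Wd (x : ι → Γ) (a : ι → ι → Γ) (z : ι → ι → ι → ℤ) : Γ :=
  (((Finset.univ : Finset (ι × ι × ι)).toList).map
    (fun p => ⁅x p.1, a p.2.1 p.2.2⁆ ^ (z p.1 p.2.1 p.2.2))).prod

theorem map_Wd {Γ' : Type*} [Group Γ'] (φ : Γ →* Γ') (x : ι → Γ) (a : ι → ι → Γ)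
    (z : ι → ι → ι → ℤ) : φ (Wd x a z) = Wd (fun i => φ (x i)) (fun k l => φ (a k l)) z := by
  unfold Wd
  rw [map_list_prod, List.map_map]
  congr 2
  ext p
  simp [map_commutatorElement]

theorem Wd_one (x : ι → Γ) (z : ι → ι → ι → ℤ) : Wd x (fun _ _ => 1) z = 1 := by
  unfold Wd
  apply List.prod_eq_one
  intro y hy
  rw [List.mem_map] at hy
  obtain ⟨p, _, rfl⟩ := hy
  simp

end Wd

section WdEval

variable {ι : Type*} [Fintype ι]

theorem sum_list (F : ι → ι → ι → ℚ) :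
    (((Finset.univ : Finset (ι × ι × ι)).toList).map (fun p => F p.1 p.2.1 p.2.2)).sum =
      ∑ i, ∑ k, ∑ l, F i k l := by
  rw [Finset.sum_map_toList, Fintype.sum_prod_type]
  apply Finset.sum_congr rfl
  intro i _
  rw [Fintype.sum_prod_type]

theorem DD.list_central (l : List DD) (hl : ∀ x ∈ l, x.a = 0 ∧ x.b = 0 ∧ x.q = 0) :
    l.prod.a = 0 ∧ l.prod.b = 0 ∧ l.prod.q = 0 ∧ l.prod.s = (l.map DD.s).sum ∧
      l.prod.t = (l.map DD.t).sum := by
  induction l with
  | nil => simp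
  | cons x l ih =>
    obtain ⟨h1, h2, h3, h4, h5⟩ := ih (fun y hy => hl y (List.mem_cons_of_mem _ hy))
    obtain ⟨k1, k2, k3⟩ := hl x List.mem_cons_self
    rw [List.prod_cons]
    simp [h1, h2, h3, h4, h5, k1, k2, k3]

theorem DD.zpow_central (x : DD) (n : ℤ) (h : x.a = 0 ∧ x.b = 0 ∧ x.q = 0) :
    (x ^ n).a = 0 ∧ (x ^ n).b = 0 ∧ (x ^ n).q = 0 ∧ (x ^ n).s = n * x.s ∧ (x ^ n).t = n * x.t := by
  obtain ⟨k1, k2, k3⟩ := h
  rcases Int.eq_nat_or_neg n with ⟨m, rfl | rfl⟩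
  · obtain ⟨h1, h2, h3, h4, h5⟩ := DD.pow_coords x m
    simp [h1, h2, h3, h4, h5, k1, k2, k3]
  · obtain ⟨h1, h2, h3, h4, h5⟩ := DD.pow_coords x m
    simp [h1, h2, h3, h4, h5, k1, k2, k3]

theorem Wd_DD (x : ι → DD) (a : ι → ι → DD) (z : ι → ι → ι → ℤ)
    (hq : ∀ i k l, ⁅x i, a k l⁆.q = 0) :
    Wd x a z = ⟨0, 0, 0, ∑ i, ∑ k, ∑ l, z i k l * ⁅x i, a k l⁆.s,
      ∑ i, ∑ k, ∑ l, z i k l * ⁅x i, a k l⁆.t⟩ := by
  have h := DD.list_central (((Finset.univ : Finset (ι × ι × ι)).toList).map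
    (fun p => ⁅x p.1, a p.2.1 p.2.2⁆ ^ (z p.1 p.2.1 p.2.2))) (by
      intro y hy
      rw [List.mem_map] at hy
      obtain ⟨p, _, rfl⟩ := hy
      obtain ⟨h1, h2, h3, _, _⟩ := DD.zpow_central ⁅x p.1, a p.2.1 p.2.2⁆ (z p.1 p.2.1 p.2.2)
        ⟨by simp, by simp, hq _ _ _⟩
      exact ⟨h1, h2, h3⟩)
  obtain ⟨h1, h2, h3, h4, h5⟩ := h
  unfold Wd
  ext
  · exact h1
  · exact h2
  · exact h3
  · rw [h4, List.map_map, ← sum_list (fun i k l => z i k l * ⁅x i, a k l⁆.s)]
    congr 2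
    ext p
    exact (DD.zpow_central ⁅x p.1, a p.2.1 p.2.2⁆ (z p.1 p.2.1 p.2.2)
        ⟨by simp, by simp, hq _ _ _⟩).2.2.2.1
  · rw [h5, List.map_map, ← sum_list (fun i k l => z i k l * ⁅x i, a k l⁆.t)]
    congr 2
    ext p
    exact (DD.zpow_central ⁅x p.1, a p.2.1 p.2.2⁆ (z p.1 p.2.1 p.2.2)
        ⟨by simp, by simp, hq _ _ _⟩).2.2.2.2

variable {M : Type*} [AddCommGroup M] [Module ℚ M] (ξ : ι → Module.Dual ℚ M)

/-- the standard word -/
noncomputable def Wc (z : ι → ι → ι → ℤ) : FreeGroup ι :=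
  Wd FreeGroup.of (fun k l => ⁅FreeGroup.of k, FreeGroup.of l⁆) z

theorem V_Wd (x : ι → FreeGroup ι) (a : ι → ι → FreeGroup ι) (z : ι → ι → ι → ℤ) :
    V ξ (Wd x a z) = 0 := by
  unfold Wd
  induction ((Finset.univ : Finset (ι × ι × ι)).toList) with
  | nil => simp
  | cons p l ih => simp only [List.map_cons, List.prod_cons, V_mul, V_zpow, V_comm, ih]; simp

theorem V_Wc (z : ι → ι → ι → ℤ) : V ξ (Wc z) = 0 := V_Wd ξ _ _ _

theorem EE_Wc (z : ι → ι → ι → ℤ) :
    EE ξ (Wc z) = (0, Tb ξ (fun i k l => (z i k l : ℚ))) := by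
  have key : ∀ L : List (ι × ι × ι), V ξ ((L.map
      (fun p => ⁅(FreeGroup.of p.1 : FreeGroup ι), ⁅FreeGroup.of p.2.1, FreeGroup.of p.2.2⁆⁆
        ^ (z p.1 p.2.1 p.2.2))).prod) = 0 ∧ EE ξ ((L.map
      (fun p => ⁅(FreeGroup.of p.1 : FreeGroup ι), ⁅FreeGroup.of p.2.1, FreeGroup.of p.2.2⁆⁆
        ^ (z p.1 p.2.1 p.2.2))).prod) =
        (0, fun x y => (L.map (fun p => (z p.1 p.2.1 p.2.2 : ℚ) *
          (ξ p.1 x * (ξ p.2.1 x * ξ p.2.2 y - ξ p.2.2 x * ξ p.2.1 y)))).sum) := by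
    intro L
    induction L with
    | nil => exact ⟨by simp, by rw [List.map_nil, List.prod_nil, EE_one]; rfl⟩
    | cons p L ih =>
      obtain ⟨ih1, ih2⟩ := ih
      have hv : V ξ (⁅(FreeGroup.of p.1 : FreeGroup ι), ⁅FreeGroup.of p.2.1, FreeGroup.of p.2.2⁆⁆
        ^ (z p.1 p.2.1 p.2.2)) = 0 := by simp
      refine ⟨?_, ?_⟩
      · rw [List.map_cons, List.prod_cons, V_mul, hv, ih1, add_zero]
      · rw [List.map_cons, List.prod_cons, EE_mul ξ hv ih1, ih2, EE_zpow ξ (V_comm _ _ _),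
          EE_comm ξ _ _ (V_comm _ _ _), U_commgen]
        ext x y
        · simp
        · simp [dot, wedge]
  have := (key (Finset.univ : Finset (ι × ι × ι)).toList).2
  unfold Wc Wd
  rw [this]
  ext x y
  · rfl
  · simp only [Tb]
    rw [← sum_list (fun i k l => (z i k l : ℚ) * (ξ i x * (ξ k x * ξ l y - ξ l x * ξ k y)))]

end WdEval

section Defs

variable (ι : Type*) [Fintype ι]

/-- standard coordinates on `ι → ℚ` -/
noncomputable def pc : Module.Basis ι ℚ (ι → ℚ) := Pi.basisFun ℚ ι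

@[simp] theorem pc_repr (i : ι) (x : ι → ℚ) : (pc ι).repr x i = x i := by
  simp [pc]

theorem pc_coord (i : ι) (x : ι → ℚ) : (pc ι).coord i x = x i := by
  simp [pc]

end Defs

section CaseIdef

variable {ι : Type*} [Fintype ι]

def pair (b : ι → ι → ι → ℚ) (c : ι → ℚ) (g : ι → ι → ℚ) : ℚ :=
  ∑ i, ∑ k, ∑ l, b i k l * (c i * g k l)

/-- Case I property -/
def CaseI (N : Submodule ℚ (((ι → ℚ) → (ι → ℚ) → ℚ) × ((ι → ℚ) → (ι → ℚ) → ℚ))) : Prop :=
  ∀ b : ι → ι → ι → ℚ, (0, Tb (pc ι).coord b) ∉ N →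
    ∃ (c : ι → ℚ) (g : ι → ι → ℚ), (∀ b', (0, Tb (pc ι).coord b') ∈ N → pair b' c g = 0) ∧
      pair b c g ≠ 0

theorem pair_smul (r : ℚ) (b : ι → ι → ι → ℚ) (c : ι → ℚ) (g : ι → ι → ℚ) :
    pair (r • b) c g = r * pair b c g := by
  simp only [pair, Pi.smul_apply, smul_eq_mul, mul_assoc, Finset.mul_sum]

/-- integer version of an array -/
theorem arr_scale (b : ι → ι → ι → ℚ) : ∃ m : ℕ, 0 < m ∧ ∃ z : ι → ι → ι → ℤ,
    (fun i k l => (z i k l : ℚ)) = (m : ℚ) • b := by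
  obtain ⟨m, hm, z, hz⟩ := int_scale (fun p : ι × ι × ι => b p.1 p.2.1 p.2.2)
  refine ⟨m, hm, fun i k l => z (i, k, l), ?_⟩
  ext i k l
  exact hz (i, k, l)

theorem mem_smul_iff {W : Type*} [AddCommGroup W] [Module ℚ W] (N : Submodule ℚ W) {m : ℕ}
    (hm : 0 < m) (e : W) : (m : ℚ) • e ∈ N ↔ e ∈ N := by
  have hm' : (m : ℚ) ≠ 0 := by positivity
  exact Submodule.smul_mem_iff N hm'

end CaseIdef

section CaseII

variable {ι : Type*} [Fintype ι] {H : Type*} [Group H] (h : ι → H)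

/-- the new assignment -/
def hp : ι ⊕ (ι × ι) → H × (((ι → ℚ) × (ι → ℚ)) → DD)
  | Sum.inl i => (h i, fun p => ⟨p.1 i, p.2 i, 0, 0, 0⟩)
  | Sum.inr kl => (⁅h kl.1, h kl.2⁆, 1)

theorem prod_comm' {H H' : Type*} [Group H] [Group H'] (a b : H) (c d : H') :
    ⁅(a, c), (b, d)⁆ = (⁅a, b⁆, ⁅c, d⁆) := rfl

theorem prod_tf {H H' : Type*} [Group H] [Group H'] (h1 : TF H) (h2 : TF H') : TF (H × H') := by
  intro g n hn hg
  have e1 := congrArg Prod.fst hg
  have e2 := congrArg Prod.snd hg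
  exact Prod.ext (h1 g.1 n hn e1) (h2 g.2 n hn e2)

theorem prod_cl3 {H H' : Type*} [Group H] [Group H'] (h1 : Cl3 H) (h2 : Cl3 H') :
    Cl3 (H × H') := by
  intro a b c d
  exact Prod.ext (h1 a.1 b.1 c.1 d.1) (h2 a.2 b.2 c.2 d.2)

theorem pi_tf {I : Type*} {H : I → Type*} [∀ i, Group (H i)] (h1 : ∀ i, TF (H i)) :
    TF (∀ i, H i) := by
  intro g n hn hg
  funext i
  exact h1 i (g i) n hn (congrFun hg i)

theorem pi_cl3 {I : Type*} {H : I → Type*} [∀ i, Group (H i)] (h1 : ∀ i, Cl3 (H i)) :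
    Cl3 (∀ i, H i) := by
  intro a b c d
  funext i
  exact h1 i (a i) (b i) (c i) (d i)

/-- pairwise parallel vectors in 3-space are multiples of one vector -/
theorem parallel {κ : Type*} (A : κ → DD) (hA : ∀ k k', A k * A k' = A k' * A k) :
    ∃ (e : DD) (g : κ → ℚ), ∀ k, (A k).a = g k * e.a ∧ (A k).b = g k * e.b ∧
      (A k).q = g k * e.q := by
  simp only [DD.comm_iff] at hA
  by_cases h1 : ∃ k, (A k).a ≠ 0
  · obtain ⟨k0, h0⟩ := h1
    refine ⟨A k0, fun k => (A k).a / (A k0).a, fun k => ⟨?_, ?_, ?_⟩⟩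
    · field_simp
    · obtain ⟨e1, e2, e3⟩ := hA k k0
      field_simp
      linarith
    · obtain ⟨e1, e2, e3⟩ := hA k k0
      field_simp
      linarith
  by_cases h2 : ∃ k, (A k).b ≠ 0
  · obtain ⟨k0, h0⟩ := h2
    refine ⟨A k0, fun k => (A k).b / (A k0).b, fun k => ⟨?_, ?_, ?_⟩⟩
    · obtain ⟨e1, e2, e3⟩ := hA k k0
      field_simp
      linarith
    · field_simp
    · obtain ⟨e1, e2, e3⟩ := hA k k0
      field_simp
      linarith
  by_cases h3 : ∃ k, (A k).q ≠ 0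
  · obtain ⟨k0, h0⟩ := h3
    refine ⟨A k0, fun k => (A k).q / (A k0).q, fun k => ⟨?_, ?_, ?_⟩⟩
    · obtain ⟨e1, e2, e3⟩ := hA k k0
      field_simp
      linarith
    · obtain ⟨e1, e2, e3⟩ := hA k k0
      field_simp
      linarith
    · field_simp
  · push Not at h1 h2 h3
    exact ⟨1, fun _ => 0, fun k => by simp [h1 k, h2 k, h3 k]⟩

theorem hp_snd (f : FreeGroup (ι ⊕ (ι × ι))) (α β : ι → ℚ) :
    (FreeGroup.lift (hp h) f).2 (α, β) =
      ev (pc (ι ⊕ (ι × ι))).coord (Sum.elim α 0) (Sum.elim β 0) f := by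
  induction f using word_ind with
  | one => simp
  | of i =>
    rcases i with i | kl
    · simp [hp, ev]
    · simp [hp, ev]; rfl
  | inv f hf => simp [hf]
  | mul f g hf hg => simp [hf, hg]

theorem caseII_notRes (tf : TF H) (hc : Cl3 H) (hI : ¬ CaseI (NN (pc ι) h)) :
    NotResD (hp h) := by
  unfold CaseI at hI
  push Not at hI
  obtain ⟨b, hb, hcg⟩ := hI
  obtain ⟨m, hm, z, hz⟩ := arr_scale b
  let x' : ι → FreeGroup (ι ⊕ (ι × ι)) := fun i => FreeGroup.of (Sum.inl i)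
  let a' : ι → ι → FreeGroup (ι ⊕ (ι × ι)) := fun k l => FreeGroup.of (Sum.inr (k, l))
  have hx' : ∀ i, FreeGroup.lift (hp h) (x' i) = (h i, fun p => ⟨p.1 i, p.2 i, 0, 0, 0⟩) := by
    intro i; simp [x', hp]
  have ha' : ∀ k l, FreeGroup.lift (hp h) (a' k l) = (⁅h k, h l⁆, 1) := by
    intro i l; simp [a', hp]
  -- value of the words
  have hW : ∀ z : ι → ι → ι → ℤ, FreeGroup.lift (hp h) (Wd x' a' z) =
      (FreeGroup.lift h (Wc z), 1) := by
    intro z
    ext1
    · have := map_Wd ((MonoidHom.fst H _).comp (FreeGroup.lift (hp h))) x' a' z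
      simp only [MonoidHom.comp_apply, MonoidHom.coe_fst, hx', ha'] at this
      rw [this, Wc, map_Wd]
      simp
    · have := map_Wd ((MonoidHom.snd H _).comp (FreeGroup.lift (hp h))) x' a' z
      simp only [MonoidHom.comp_apply, MonoidHom.coe_snd, hx', ha'] at this
      rw [this, Wd_one]
  refine ⟨Wd x' a' z, ?_, ?_⟩
  · rw [hW]
    intro hcon
    have h1 := congrArg Prod.fst hcon
    simp only [Prod.fst_one] at h1
    rw [← KP (pc ι) h tf hc (V_Wc _ z)] at h1
    rw [EE_Wc, hz, Tb_smul] at h1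
    have h2 : ((0, (m : ℚ) • Tb (pc ι).coord b) :
      ((ι → ℚ) → (ι → ℚ) → ℚ) × ((ι → ℚ) → (ι → ℚ) → ℚ)) = (m : ℚ) • (0, Tb (pc ι).coord b) := by
      simp
    rw [h2, mem_smul_iff _ hm] at h1
    exact hb h1
  · intro s hs
    have hR1 : ∀ k l, s (Sum.inr k) * s (Sum.inr l) = s (Sum.inr l) * s (Sum.inr k) := by
      intro k l
      have := hs ⁅FreeGroup.of (Sum.inr k), FreeGroup.of (Sum.inr l)⁆ (by
        rw [map_commutatorElement]
        simp only [FreeGroup.lift_apply_of, hp, prod_comm', commutatorElement_self]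
        ext1
        · exact commutatorElement_eq_one_iff_mul_comm.2 (hc.comm12 (mem_lcs1 _ _) (mem_lcs1 _ _))
        · rfl)
      rw [map_commutatorElement, commutatorElement_eq_one_iff_mul_comm] at this
      simpa using this
    have hR2 : ∀ i kl, ⁅s (Sum.inl i), s (Sum.inr kl)⁆.q = 0 := by
      intro i kl
      have := hs ⁅FreeGroup.of (Sum.inl i), ⁅FreeGroup.of (Sum.inl i), FreeGroup.of (Sum.inr kl)⁆⁆ (by
        rw [map_commutatorElement, map_commutatorElement]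
        simp only [FreeGroup.lift_apply_of, hp, prod_comm', commutatorElement_one_right]
        ext1
        · exact commutatorElement_eq_one_iff_mul_comm.2
            (hc.central (mem_lcs2' (mem_lcs1 _ _) _) _).symm
        · rfl)
      rw [map_commutatorElement, map_commutatorElement] at this
      simp only [FreeGroup.lift_apply_of] at this
      have e1 := congrArg DD.s this
      have e2 := congrArg DD.t this
      simp at e1 e2
      rw [DD.comm_q]
      rcases e1 with e1 | e1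
      · exact e1
      rcases e2 with e2 | e2
      · exact e2
      · rw [e1, e2]; ring
    obtain ⟨e, g, hg⟩ := parallel (fun kl : ι × ι => s (Sum.inr kl)) hR1
    have hval : ∀ z : ι → ι → ι → ℤ, FreeGroup.lift s (Wd x' a' z) = ⟨0, 0, 0,
        pair (fun i k l => (z i k l : ℚ)) (fun i => e.q * (s (Sum.inl i)).a - (s (Sum.inl i)).q * e.a)
          (fun k l => g (k, l)),
        pair (fun i k l => (z i k l : ℚ)) (fun i => e.q * (s (Sum.inl i)).b - (s (Sum.inl i)).q * e.b)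
          (fun k l => g (k, l))⟩ := by
      intro z
      rw [map_Wd]
      simp only [x', a', FreeGroup.lift_apply_of]
      rw [Wd_DD _ _ _ (fun i k l => hR2 i (k, l))]
      unfold pair
      congr 1
      · apply Finset.sum_congr rfl; intro i _
        apply Finset.sum_congr rfl; intro k _
        apply Finset.sum_congr rfl; intro l _
        have h0 := hR2 i (k, l)
        obtain ⟨g1, g2, g3⟩ := hg (k, l)
        rw [DD.comm_q] at h0
        rw [DD.comm_s, h0, g1, g3]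
        ring
      · apply Finset.sum_congr rfl; intro i _
        apply Finset.sum_congr rfl; intro k _
        apply Finset.sum_congr rfl; intro l _
        have h0 := hR2 i (k, l)
        obtain ⟨g1, g2, g3⟩ := hg (k, l)
        rw [DD.comm_q] at h0
        rw [DD.comm_t, h0, g2, g3]
        ring
    have hz' : ∀ b', (0, Tb (pc ι).coord b') ∈ NN (pc ι) h →
        pair b' (fun i => e.q * (s (Sum.inl i)).a - (s (Sum.inl i)).q * e.a) (fun k l => g (k, l)) = 0
        ∧ pair b' (fun i => e.q * (s (Sum.inl i)).b - (s (Sum.inl i)).q * e.b)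
          (fun k l => g (k, l)) = 0 := by
      intro b' hb'
      obtain ⟨m', hm', z', hz'⟩ := arr_scale b'
      have h1 : FreeGroup.lift h (Wc z') = 1 := by
        rw [← KP (pc ι) h tf hc (V_Wc _ z')]
        rw [EE_Wc, hz', Tb_smul]
        have h2 : ((0, (m' : ℚ) • Tb (pc ι).coord b') :
          ((ι → ℚ) → (ι → ℚ) → ℚ) × ((ι → ℚ) → (ι → ℚ) → ℚ)) =
            (m' : ℚ) • (0, Tb (pc ι).coord b') := by
          simp
        rw [h2, mem_smul_iff _ hm']
        exact hb'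
      have h3 := hs (Wd x' a' z') (by rw [hW, h1]; rfl)
      rw [hval z', hz', pair_smul, pair_smul] at h3
      have hm0 : (m' : ℚ) ≠ 0 := by positivity
      have e1 := congrArg DD.s h3
      have e2 := congrArg DD.t h3
      simp only [DD.one_s, DD.one_t, mul_eq_zero, hm0, false_or] at e1 e2
      exact ⟨e1, e2⟩
    rw [hval z, hz, pair_smul, pair_smul, hcg _ _ (fun b' hb' => (hz' b' hb').1),
      hcg _ _ (fun b' hb' => (hz' b' hb').2)]
    ext <;> simp

/-- the comparison assignment -/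
def h2 : ι ⊕ (ι × ι) → H
  | Sum.inl i => h i
  | Sum.inr _ => 1

omit [Fintype ι] in
theorem triple_eq (hc : Cl3 H) (i k l : ι ⊕ (ι × ι)) :
    ⁅(hp h i).1, ⁅(hp h k).1, (hp h l).1⁆⁆ = ⁅h2 h i, ⁅h2 h k, h2 h l⁆⁆ := by
  have hcomm : ∀ {x y : H}, x * y = y * x → ⁅x, y⁆ = 1 := fun h =>
    commutatorElement_eq_one_iff_mul_comm.2 h
  rcases i with i | i
  · rcases k with k | k
    · rcases l with l | l
      · rfl
      · simp only [hp, h2, commutatorElement_one_right]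
        exact hcomm (hc.central (mem_lcs2' (mem_lcs1 _ _) _) _).symm
    · simp only [hp, h2, commutatorElement_one_right, commutatorElement_one_left]
      exact hcomm (hc.central (mem_lcs2 (mem_lcs1 _ _) _) _).symm
  · simp only [hp, h2, commutatorElement_one_left]
    exact hcomm (hc.comm12 (mem_lcs1 _ _) (mem_lcs1 _ _))

theorem caseII_caseI (hc : Cl3 H) : CaseI (NN (pc (ι ⊕ (ι × ι))) (hp h)) := by
  intro b hb
  have hex : ∃ α β : ι → ℚ, Tb (pc (ι ⊕ (ι × ι))).coord b (Sum.elim α 0) (Sum.elim β 0) ≠ 0 := by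
    by_contra hcon
    push Not at hcon
    apply hb
    obtain ⟨m, hm, z, hz⟩ := arr_scale b
    have hE : EE (pc (ι ⊕ (ι × ι))).coord (Wc z) = (m : ℚ) • (0, Tb (pc (ι ⊕ (ι × ι))).coord b) := by
      rw [EE_Wc, hz, Tb_smul]; simp
    have hU : U (pc (ι ⊕ (ι × ι))).coord (Wc z) = 0 := by
      have := congrArg Prod.fst hE
      simpa [EE] using this
    have hS : S (pc (ι ⊕ (ι × ι))).coord (Wc z) = (m : ℚ) • Tb (pc (ι ⊕ (ι × ι))).coord b := by
      have := congrArg Prod.snd hE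
      simpa [EE] using this
    have hev : ∀ α β : ι → ℚ, ev (pc (ι ⊕ (ι × ι))).coord (Sum.elim α 0) (Sum.elim β 0) (Wc z) = 1 := by
      intro α β
      rw [ev_eq, V_Wc, hU, hS]
      ext <;> simp [hcon]
    refine (mem_NA _).2 ⟨m, hm, Wc z, V_Wc _ z, ?_, hE⟩
    rw [MonoidHom.mem_ker]
    have hH : FreeGroup.lift (h2 h) (Wc z) = 1 := by
      -- retraction
      have h3 : FreeGroup.lift (h2 h) = (FreeGroup.lift h).comp
          (FreeGroup.lift (Sum.elim FreeGroup.of (fun _ => 1) : ι ⊕ (ι × ι) → FreeGroup ι)) := by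
        apply FreeGroup.ext_hom
        rintro (i | i) <;> simp [h2]
      rw [h3, MonoidHom.comp_apply]
      have hev' : ∀ α β : ι → ℚ, ev (pc ι).coord α β
          (FreeGroup.lift (Sum.elim FreeGroup.of (fun _ => 1) : ι ⊕ (ι × ι) → FreeGroup ι) (Wc z))
            = 1 := by
        intro α β
        rw [← hev α β]
        have : (ev (pc ι).coord α β).comp
          (FreeGroup.lift (Sum.elim FreeGroup.of (fun _ => 1) : ι ⊕ (ι × ι) → FreeGroup ι)) =
          ev (pc (ι ⊕ (ι × ι))).coord (Sum.elim α 0) (Sum.elim β 0) := by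
          apply FreeGroup.ext_hom
          rintro (i | i)
          · simp [ev]
          · simp [ev]; rfl
        rw [← this]; rfl
      apply res' (pc ι) h hc
      · ext x
        rw [← ev_a _ _ _ x, hev' _ x]; rfl
      · exact EE_of_ev _ hev'
    ext1
    · have e1 := map_Wd ((MonoidHom.fst H _).comp (FreeGroup.lift (hp h))) FreeGroup.of
        (fun k l => ⁅FreeGroup.of k, FreeGroup.of l⁆) z
      have e2 := map_Wd (FreeGroup.lift (h2 h)) FreeGroup.of
        (fun k l => ⁅FreeGroup.of k, FreeGroup.of l⁆) z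
      have e3 : (FreeGroup.lift (hp h) (Wc z)).1 = FreeGroup.lift (h2 h) (Wc z) := by
        change ((MonoidHom.fst H _).comp (FreeGroup.lift (hp h))) (Wd FreeGroup.of
          (fun k l => ⁅FreeGroup.of k, FreeGroup.of l⁆) z) = FreeGroup.lift (h2 h) (Wd FreeGroup.of
          (fun k l => ⁅FreeGroup.of k, FreeGroup.of l⁆) z)
        rw [e1, e2]
        unfold Wd
        congr 2
        ext p
        simp only [MonoidHom.comp_apply, FreeGroup.lift_apply_of, map_commutatorElement,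
          MonoidHom.coe_fst]
        rw [triple_eq h hc]
      rw [e3, hH]; rfl
    · funext p
      have := hp_snd h (Wc z) p.1 p.2
      rw [hev] at this
      exact this
  obtain ⟨α, β, hαβ⟩ := hex
  have hTb : ∀ b', Tb (pc (ι ⊕ (ι × ι))).coord b' (Sum.elim α 0) (Sum.elim β 0) =
      pair b' (Sum.elim α 0) (fun k l => (Sum.elim α 0 : ι ⊕ (ι × ι) → ℚ) k *
        (Sum.elim β 0 : ι ⊕ (ι × ι) → ℚ) l -
        (Sum.elim α 0 : ι ⊕ (ι × ι) → ℚ) l * (Sum.elim β 0 : ι ⊕ (ι × ι) → ℚ) k) := by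
    intro b'
    simp only [Tb, pair, pc_coord]
  refine ⟨Sum.elim α 0, fun k l => (Sum.elim α 0 : ι ⊕ (ι × ι) → ℚ) k *
        (Sum.elim β 0 : ι ⊕ (ι × ι) → ℚ) l -
        (Sum.elim α 0 : ι ⊕ (ι × ι) → ℚ) l * (Sum.elim β 0 : ι ⊕ (ι × ι) → ℚ) k, ?_, ?_⟩
  · intro b' hb'
    rw [← hTb]
    obtain ⟨m, hm, f, hV, hf, hE⟩ := (mem_NA _).1 hb'
    have hm' : (m : ℚ) ≠ 0 := by positivity
    rw [MonoidHom.mem_ker] at hf
    have e1 := hp_snd h f α β
    rw [hf] at e1
    have e2 := congrArg DD.s e1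
    have e3 := congrFun (congrFun (congrArg Prod.snd hE) (Sum.elim α 0)) (Sum.elim β 0)
    simp only [EE, Prod.smul_snd, Pi.smul_apply, smul_eq_mul] at e3
    change (1 : DD).s = S _ f _ _ at e2
    rw [e3] at e2
    simpa [hm'] using e2
  · rw [← hTb]; exact hαβ

end CaseII

end MP8d
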