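import Mathlib

/-!
Quasiidentities of groups, bases of quasiidentities relative to torsion-free groups,
and independence.
-/

namespace MP8d

universe u v

/-- A quasiidentity in finitely many variables: finitely many premises (pairs of group words,
read as equations) and one conclusion (a pair of group words). -/
structure QuasiIdentity where
  vars : ℕ
  premises : List (FreeGroup (Fin vars) × FreeGroup (Fin vars))
  conclusion : FreeGroup (Fin vars) × FreeGroup (Fin vars)

/-- A group satisfies a quasiidentity if, for every assignment of group elements to the variables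
making all premises true, the conclusion is true. -/
def QuasiIdentity.Holds (σ : QuasiIdentity) (H : Type v) [Group H] : Prop :=
  ∀ a : Fin σ.vars → H,
    (∀ e ∈ σ.premises, FreeGroup.lift a e.1 = FreeGroup.lift a e.2) →
      FreeGroup.lift a σ.conclusion.1 = FreeGroup.lift a σ.conclusion.2

/-- No non-identity element has finite order. -/
def TorsionFree (H : Type v) [Group H] : Prop :=
  ∀ (g : H) (n : ℕ), 0 < n → g ^ n = 1 → g = 1

/-- `B` is a basis of quasiidentities of `G` relative to torsion-free groups. -/
def IsBasis (B : Set QuasiIdentity) (G : Type u) [Group G] : Prop :=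
  (∀ σ ∈ B, σ.Holds G) ∧
    ∀ (H : Type v) [Group H], TorsionFree H →
      ((∀ σ ∈ B, σ.Holds H) ↔ ∀ σ : QuasiIdentity, σ.Holds G → σ.Holds H)

/-- `B` is an independent basis: it is a basis, and no member can be left out. -/
def IsIndependentBasis (B : Set QuasiIdentity) (G : Type u) [Group G] : Prop :=
  IsBasis.{u, v} B G ∧ ∀ σ ∈ B, ¬ IsBasis.{u, v} (B \ {σ}) G

end MP8d
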