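import Pool.Agent.Lib.MP_8d185c_al.Core3
import Pool.Agent.Lib.MP_8d185c_al.Defs

/-!
The construction of the group.
-/

namespace MP8d

open scoped commutatorElement
open Subgroup

universe u v w

section QFacts

theorem Holds.of_injective {σ : QuasiIdentity} {X : Type u} {Y : Type v} [Group X] [Group Y]
    (φ : X →* Y) (hφ : Function.Injective φ) (h : σ.Holds Y) : σ.Holds X := by
  intro a ha
  have key : ∀ e, FreeGroup.lift (fun i => φ (a i)) e = φ (FreeGroup.lift a e) := by
    intro e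
    have : FreeGroup.lift (fun i => φ (a i)) = φ.comp (FreeGroup.lift a) := by
      apply FreeGroup.ext_hom; intro i; simp
    rw [this]; rfl
  apply hφ
  rw [← key, ← key]
  apply h
  intro e he
  rw [key, key, ha e he]

theorem Holds.prod {σ : QuasiIdentity} {X : Type u} {Y : Type v} [Group X] [Group Y]
    (hX : σ.Holds X) (hY : σ.Holds Y) : σ.Holds (X × Y) := by
  intro a ha
  have key1 : ∀ e, (FreeGroup.lift a e).1 = FreeGroup.lift (fun i => (a i).1) e := by
    intro e
    have : (MonoidHom.fst X Y).comp (FreeGroup.lift a) = FreeGroup.lift (fun i => (a i).1) := by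
      apply FreeGroup.ext_hom; intro i; simp
    rw [← this]; rfl
  have key2 : ∀ e, (FreeGroup.lift a e).2 = FreeGroup.lift (fun i => (a i).2) e := by
    intro e
    have : (MonoidHom.snd X Y).comp (FreeGroup.lift a) = FreeGroup.lift (fun i => (a i).2) := by
      apply FreeGroup.ext_hom; intro i; simp
    rw [← this]; rfl
  ext1
  · rw [key1, key1]
    apply hX
    intro e he
    rw [← key1, ← key1, ha e he]
  · rw [key2, key2]
    apply hY
    intro e he
    rw [← key2, ← key2, ha e he]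

theorem Holds.pi {σ : QuasiIdentity} {I : Type u} {Y : I → Type v} [∀ i, Group (Y i)]
    (hY : ∀ i, σ.Holds (Y i)) : σ.Holds (∀ i, Y i) := by
  intro a ha
  have key : ∀ i e, (FreeGroup.lift a e) i = FreeGroup.lift (fun k => a k i) e := by
    intro i e
    have : (Pi.evalMonoidHom Y i).comp (FreeGroup.lift a) = FreeGroup.lift (fun k => a k i) := by
      apply FreeGroup.ext_hom; intro k; simp
    rw [← this]; rfl
  funext i
  rw [key, key]
  apply hY
  intro e he
  rw [← key, ← key, ha e he]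

/-- quasiidentity from a finite list of words over a finite alphabet. -/
noncomputable def mkQ {κ : Type w} [Fintype κ] (R : List (FreeGroup κ)) (w : FreeGroup κ) :
    QuasiIdentity where
  vars := Fintype.card κ
  premises := R.map (fun r => (FreeGroup.map (Fintype.equivFin κ) r, 1))
  conclusion := (FreeGroup.map (Fintype.equivFin κ) w, 1)

theorem holds_mk (n : ℕ) (P : List (FreeGroup (Fin n) × FreeGroup (Fin n)))
    (c : FreeGroup (Fin n) × FreeGroup (Fin n)) (Y : Type v) [Group Y] :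
    (QuasiIdentity.mk n P c).Holds Y ↔ ∀ a : Fin n → Y,
      (∀ e ∈ P, FreeGroup.lift a e.1 = FreeGroup.lift a e.2) →
        FreeGroup.lift a c.1 = FreeGroup.lift a c.2 := Iff.rfl

theorem mkQ_holds {κ : Type w} [Fintype κ] (R : List (FreeGroup κ)) (w : FreeGroup κ)
    (Y : Type v) [Group Y] : (mkQ R w).Holds Y ↔
      ∀ s : κ → Y, (∀ r ∈ R, FreeGroup.lift s r = 1) → FreeGroup.lift s w = 1 := by
  unfold mkQ
  rw [holds_mk]
  have key : ∀ (a : Fin (Fintype.card κ) → Y) (r : FreeGroup κ),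
      FreeGroup.lift a (FreeGroup.map (Fintype.equivFin κ) r) =
        FreeGroup.lift (fun i => a (Fintype.equivFin κ i)) r := by
    intro a r
    have : (FreeGroup.lift a).comp (FreeGroup.map (Fintype.equivFin κ)) =
        FreeGroup.lift (fun i => a (Fintype.equivFin κ i)) := by
      apply FreeGroup.ext_hom; intro i; simp
    rw [← this]; rfl
  constructor
  · intro h s hs
    have := h (fun k => s ((Fintype.equivFin κ).symm k)) (by
      intro e he
      rw [List.mem_map] at he
      obtain ⟨r, hr, rfl⟩ := he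
      simp only
      rw [key, map_one]
      simpa using hs r hr)
    rw [key, map_one] at this
    simpa using this
  · intro h a ha
    have := h (fun i => a (Fintype.equivFin κ i)) (by
      intro r hr
      have := ha (FreeGroup.map (Fintype.equivFin κ) r, 1) (by
        rw [List.mem_map]
        exact ⟨r, hr, rfl⟩)
      rw [← key, this, map_one])
    rw [key, this, map_one]

end QFacts

section Duals

variable {κ : Type*} [Fintype κ] {M : Type*} [AddCommGroup M] [Module ℚ M]

/-- a basis of the span of finitely many functionals with dual vectors -/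
theorem duals (bas : Module.Basis κ ℚ M) {m : ℕ} (F : Fin m → Module.Dual ℚ M) :
    ∃ (r : ℕ) (v : Fin r → Module.Dual ℚ M) (e : Fin r → M), r ≤ m ∧
      (∀ i j, v i (e j) = if i = j then 1 else 0) ∧
      ∀ k, F k ∈ Submodule.span ℚ (Set.range v) := by
  have : Module.Finite ℚ M := Module.Finite.of_basis bas
  let V1 := Submodule.span ℚ (Set.range F)
  let b := Module.finBasis ℚ V1
  have hr : Module.finrank ℚ V1 ≤ m := by
    have := finrank_range_le_card (R := ℚ) F
    rw [Fintype.card_fin] at this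
    exact this
  have hψ : ∀ j, ∃ x : M, ∀ i, (b i : Module.Dual ℚ M) x = if i = j then 1 else 0 := by
    intro j
    obtain ⟨ψ, hψ⟩ := LinearMap.exists_extend (p := V1) (b.coord j)
    obtain ⟨x, hx⟩ := eval_repr bas ψ
    refine ⟨x, fun i => ?_⟩
    rw [← hx]
    have : ψ (b i : Module.Dual ℚ M) = b.coord j (b i) := by rw [← hψ]; rfl
    rw [this, bas_delta b]
    simp [eq_comm]
  choose e he using hψ
  refine ⟨Module.finrank ℚ V1, fun i => (b i : Module.Dual ℚ M), e, hr,
    fun i j => he j i, fun k => ?_⟩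
  have hmem : F k ∈ V1 := Submodule.subset_span ⟨k, rfl⟩
  have h1 := b.sum_repr ⟨F k, hmem⟩
  have h2 := congrArg (Submodule.subtype V1) h1
  rw [map_sum] at h2
  simp only [map_smul, Submodule.subtype_apply] at h2
  rw [← h2]
  exact Submodule.sum_mem _ fun i _ => Submodule.smul_mem _ _ (Submodule.subset_span ⟨i, rfl⟩)

end Duals

section Theta

variable {L : Type*} [Field L] [Algebra ℚ L] {ι : Type*} {J : Type*}
  [DecidableEq J] (b : Module.Basis J ℚ L) (j0 : J) {H : Type*} [Group H] (h : ι → H)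

/-- assignment to `H` -/
def hl (p : Σ _ : ι, J) : H := if p.2 = j0 then h p.1 else 1

/-- retraction on words -/
def ret : FreeGroup (Σ _ : ι, J) →* FreeGroup ι :=
  FreeGroup.lift (fun p => if p.2 = j0 then FreeGroup.of p.1 else 1)

variable [Fintype ι]

/-- coordinates of `ι → L` over `ℚ` -/
noncomputable def mb : Module.Basis (Σ _ : ι, J) ℚ (ι → L) := Pi.basis (fun _ => b)

omit [DecidableEq J] in
theorem mb_coord (p : Σ _ : ι, J) (x : ι → L) : (mb (ι := ι) b).coord p x = b.coord p.2 (x p.1) := by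
  simp [mb, Pi.basis_repr]

/-- the defining homomorphism -/
noncomputable def Th : FreeGroup (Σ _ : ι, J) →* H × (((ι → L) × L) → DD) :=
  FreeGroup.lift (fun p => (hl j0 h p,
    fun q => ⟨(mb (ι := ι) b).coord p q.1, (mb (ι := ι) b).coord p (q.2 • q.1), 0, 0, 0⟩))

theorem Th_snd (f : FreeGroup (Σ _ : ι, J)) (a : ι → L) (l : L) :
    (Th b j0 h f).2 (a, l) = ev (mb b).coord a (l • a) f := by
  induction f using word_ind with
  | one => simp
  | of i => simp [Th, ev]
  | inv f hf => simp [hf]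
  | mul f g hf hg => simp [hf, hg]

omit [Fintype ι] in
theorem lift_hl (f : FreeGroup (Σ _ : ι, J)) :
    FreeGroup.lift (hl j0 h) f = FreeGroup.lift h (ret j0 f) := by
  have : FreeGroup.lift (hl j0 h) = (FreeGroup.lift h).comp (ret j0) := by
    apply FreeGroup.ext_hom
    intro p
    simp only [hl, ret, FreeGroup.lift_apply_of, MonoidHom.comp_apply]
    split_ifs <;> simp
  rw [this]; rfl

theorem Th_fst (f : FreeGroup (Σ _ : ι, J)) :
    (Th b j0 h f).1 = FreeGroup.lift h (ret j0 f) := by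
  rw [← lift_hl]
  have : (MonoidHom.fst H _).comp (Th b j0 h) = FreeGroup.lift (hl j0 h) := by
    apply FreeGroup.ext_hom
    intro p
    simp [Th]
  rw [← this]; rfl

variable (hb : b j0 = 1)
include hb

theorem mb_jj (p : Σ _ : ι, J) (x : ι → ℚ) :
    (mb b).coord p (jj L ι x) = if p.2 = j0 then x p.1 else 0 := by
  rw [mb_coord, jj_apply]
  have : algebraMap ℚ L (x p.1) = x p.1 • b j0 := by rw [hb, Algebra.smul_def, mul_one]
  rw [this, map_smul, bas_delta b, smul_eq_mul]
  simp

theorem ret_ev (f : FreeGroup (Σ _ : ι, J)) (x y : ι → ℚ) :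
    ev (pc ι).coord x y (ret j0 f) = ev (mb b).coord (jj L ι x) (jj L ι y) f := by
  have : (ev (pc ι).coord x y).comp (ret j0) = ev (mb b).coord (jj L ι x) (jj L ι y) := by
    apply FreeGroup.ext_hom
    intro p
    simp only [ev, ret, FreeGroup.lift_apply_of, MonoidHom.comp_apply, mb_jj b j0 hb]
    split_ifs
    · simp
    · simp; rfl
  rw [← this]; rfl

theorem ret_V (f : FreeGroup (Σ _ : ι, J)) :
    V (pc ι).coord (ret j0 f) = (V (mb b).coord f).comp (jj L ι) := by
  ext1 x
  rw [← ev_a _ _ _ x, ret_ev b j0 hb, ev_a]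
  rfl

theorem ret_EE (f : FreeGroup (Σ _ : ι, J)) :
    EE (pc ι).coord (ret j0 f) = pb2 (jj L ι) (EE (mb b).coord f) := by
  ext x y
  · exact congrArg DD.q (ret_ev b j0 hb f x y)
  · exact congrArg DD.s (ret_ev b j0 hb f x y)

omit hb in
theorem P_of_Th [FiniteDimensional ℚ L] {f : FreeGroup (Σ _ : ι, J)} (hf : (Th b j0 h f).2 = 1) :
    V (mb b).coord f = 0 ∧ (EE (mb b).coord f).1 ∈ P2 L (ι → L) ∧
      (EE (mb b).coord f).2 ∈ P3 L (ι → L) := by
  have hev : ∀ (a : ι → L) (l : L), ev (mb b).coord a (l • a) f = 1 := by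
    intro a l
    rw [← Th_snd b j0 h, hf]; rfl
  have hU : ∀ (a : ι → L) (l : L), U (mb b).coord f a (l • a) = 0 := fun a l =>
    congrArg DD.q (hev a l)
  refine ⟨?_, ⟨U_mem _ _, ?_⟩, ⟨S_mem _ _, ?_⟩⟩
  · ext1 x
    rw [← ev_a _ _ _ ((0 : L) • x), hev]; rfl
  · intro l x y
    have hu := U_mem (mb (ι := ι) b).coord f
    have h1 := hU (x + y) l
    rw [smul_add, Alt2.add_left hu, Alt2.add_right hu, Alt2.add_right hu, hU, hU] at h1
    have h2 := Alt2.swap hu y (l • x)
    change U (mb b).coord f (l • x) y = U (mb b).coord f x (l • y)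
    linarith
  · intro l x
    exact congrArg DD.s (hev x l)

theorem Th_iff [FiniteDimensional ℚ L] (tf : TF H) (hc : Cl3 H) {f : FreeGroup (Σ _ : ι, J)}
    (hV : V (mb b).coord f = 0) :
    Th b j0 h f = 1 ↔ EE (mb b).coord f ∈ QQ L (jj L ι) (NN (pc ι) h) := by
  have hVr : V (pc ι).coord (ret j0 f) = 0 := by
    rw [ret_V b j0 hb, hV]; rfl
  rw [mem_QQ, ← ret_EE b j0 hb, KP (pc ι) h tf hc hVr, ← Th_fst b j0 h]
  constructor
  · intro h1
    refine ⟨(P_of_Th b j0 h (f := f) (by rw [h1]; rfl)).2, by rw [h1]; rfl⟩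
  · rintro ⟨⟨h1, h2⟩, h3⟩
    ext1
    · exact h3
    · funext p
      obtain ⟨a, l⟩ := p
      rw [Th_snd, ev_eq, hV]
      have e1 : U (mb b).coord f a (l • a) = 0 := P2.self h1 l a
      have e2 : S (mb b).coord f a (l • a) = 0 := h2.2 l a
      have e3 : S (mb b).coord f (l • a) a = 0 := by
        by_cases hl : l = 0
        · rw [hl, zero_smul]; exact L3.zero_left h2.1 a
        · have : a = l⁻¹ • (l • a) := by rw [smul_smul, inv_mul_cancel₀ hl, one_smul]
          have h4 := h2.2 l⁻¹ (l • a)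
          rw [← this] at h4
          exact h4
      rw [e1, e2, e3]
      ext <;> simp

end Theta

section NumberField

/-- a number field of large degree, with a basis containing `1`. -/
theorem exists_field (n : ℕ) : ∃ (L : Type) (_ : Field L) (_ : Algebra ℚ L)
    (_ : FiniteDimensional ℚ L), n < Module.finrank ℚ L := by
  obtain ⟨p, hp, hpp⟩ := Nat.exists_infinite_primes (n + 2)
  have hp0 : NeZero p := ⟨hpp.ne_zero⟩
  have hp1 : NeZero ((p : ℕ) : ℚ) := ⟨by exact_mod_cast hpp.ne_zero⟩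
  have i1 : IsCyclotomicExtension {p} ℚ (CyclotomicField p ℚ) :=
    CyclotomicField.isCyclotomicExtension p ℚ
  have i2 := IsCyclotomicExtension.finiteDimensional {p} ℚ (CyclotomicField p ℚ)
  have h := IsCyclotomicExtension.finrank (n := p) (K := ℚ) (CyclotomicField p ℚ)
    (Polynomial.cyclotomic.irreducible_rat hpp.pos)
  refine ⟨CyclotomicField p ℚ, inferInstance, _, i2, ?_⟩
  rw [h, Nat.totient_prime hpp]
  omega

theorem exists_basis_one (L : Type) [Field L] [Algebra ℚ L] [FiniteDimensional ℚ L] :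
    ∃ (J : Type) (_ : Fintype J) (b : Module.Basis J ℚ L) (j0 : J), b j0 = 1 := by
  have hli : LinearIndepOn ℚ id ({1} : Set L) := LinearIndepOn.singleton one_ne_zero
  let b := Module.Basis.extend hli
  have hfin : Finite (hli.extend (Set.subset_univ _)) := Module.Finite.finite_basis b
  have hmem : (1 : L) ∈ hli.extend (Set.subset_univ _) :=
    hli.subset_extend _ (Set.mem_singleton 1)
  exact ⟨_, Fintype.ofFinite _, b, ⟨1, hmem⟩, Module.Basis.extend_apply_self hli _⟩

end NumberField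

section Parts

variable {L : Type} [Field L] [Algebra ℚ L] [FiniteDimensional ℚ L] {ι : Type} {J : Type}
  [DecidableEq J] (b : Module.Basis J ℚ L) (j0 : J) {H : Type v} [Group H] (h : ι → H)
  [Fintype ι] [Fintype J] (hb : b j0 = 1)

theorem ideal_NN {ι : Type*} [Fintype ι] {H : Type*} [Group H] (h : ι → H) :
    ∀ e ∈ NN (pc ι) h, ∀ v, (0, dot v e.1) ∈ NN (pc ι) h := by
  intro e he v
  have h1 : ∀ i, ((0, dot ((pc ι).coord i) e.1) : ((ι → ℚ) → (ι → ℚ) → ℚ) × ((ι → ℚ) → (ι → ℚ) → ℚ))
      ∈ NN (pc ι) h := by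
    intro i
    obtain ⟨m, hm, f, hV, hf, hE⟩ := (mem_NA _).1 he
    have h2 := EE_mem_NA (pc ι).coord (A := (FreeGroup.lift h).ker) (f := ⁅FreeGroup.of i, f⁆)
      (V_comm _ _ _) (by
        rw [MonoidHom.mem_ker] at hf ⊢
        rw [map_commutatorElement, hf, commutatorElement_one_right])
    rw [EE_comm _ _ _ hV, V_of] at h2
    have h3 : U (pc ι).coord f = (m : ℚ) • e.1 := congrArg Prod.fst hE
    rw [h3] at h2
    have h4 : ((0, dot ((pc ι).coord i) ((m : ℚ) • e.1)) :
        ((ι → ℚ) → (ι → ℚ) → ℚ) × ((ι → ℚ) → (ι → ℚ) → ℚ)) =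
          (m : ℚ) • (0, dot ((pc ι).coord i) e.1) := by
      ext x y
      · simp
      · simp [dot]; ring
    rw [h4, mem_smul_iff _ hm] at h2
    exact h2
  have h2 : ((0, dot v e.1) : ((ι → ℚ) → (ι → ℚ) → ℚ) × ((ι → ℚ) → (ι → ℚ) → ℚ)) =
      ∑ i, v (pc ι i) • (0, dot ((pc ι).coord i) e.1) := by
    ext x y
    · simp [Prod.fst_sum]
    · have := congrArg (fun l => l x) (dual_expand (pc ι) v)
      simp only [LinearMap.sum_apply, LinearMap.smul_apply, smul_eq_mul] at this
      simp only [dot, Prod.snd_sum, Prod.smul_snd, Finset.sum_apply, Pi.smul_apply, smul_eq_mul]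
      rw [this, Finset.sum_mul]
      apply Finset.sum_congr rfl; intro i _; ring
  rw [h2]
  exact Submodule.sum_mem _ fun i _ => Submodule.smul_mem _ _ (h1 i)

/-- values of the special homomorphism -/
def psi {κ : Type*} {M : Type*} [AddCommGroup M] [Module ℚ M] (ξ : κ → Module.Dual ℚ M)
    (c : M) (gg : (M → M → ℚ) →ₗ[ℚ] ℚ) (Φ : ((M → M → ℚ) × (M → M → ℚ)) →ₗ[ℚ] ℚ)
    (f : FreeGroup κ) : DD := ⟨V ξ f c, 0, gg (U ξ f), Φ (EE ξ f), 0⟩

theorem psi_mul {κ : Type*} {M : Type*} [AddCommGroup M] [Module ℚ M] (ξ : κ → Module.Dual ℚ M)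
    {c : M} {gg : (M → M → ℚ) →ₗ[ℚ] ℚ} {Φ : ((M → M → ℚ) × (M → M → ℚ)) →ₗ[ℚ] ℚ}
    {r : ℕ} {v : Fin r → Module.Dual ℚ M} (h1 : ∀ ν ∈ Lam v, gg ν = 0 ∧ Φ (ν, 0) = 0)
    (h2 : ∀ i, ∀ g ∈ Alt2 M, Φ (0, dot (v i) g) = v i c * gg g)
    {f g : FreeGroup κ} (hf : V ξ f ∈ Submodule.span ℚ (Set.range v))
    (hg : V ξ g ∈ Submodule.span ℚ (Set.range v)) :
    psi ξ c gg Φ (f * g) = psi ξ c gg Φ f * psi ξ c gg Φ g := by
  have hvan : ∀ w ∈ Submodule.span ℚ (Set.range v), ∀ a, (∀ i, v i a = 0) → w a = 0 := by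
    intro w hw a ha
    induction hw using Submodule.span_induction with
    | mem x hx => obtain ⟨i, rfl⟩ := hx; exact ha i
    | zero => rfl
    | add x y _ _ hx hy => rw [LinearMap.add_apply, hx, hy, add_zero]
    | smul t x _ hx => rw [LinearMap.smul_apply, hx, smul_zero]
  have hwl : wedge (V ξ f) (V ξ g) ∈ Lam v := by
    refine ⟨wedge_mem _ _, fun a ha y => ?_⟩
    simp only [wedge, hvan _ hf a ha, hvan _ hg a ha]
    ring
  have hdot : ∀ w ∈ Submodule.span ℚ (Set.range v), ∀ u ∈ Alt2 M, Φ (0, dot w u) = w c * gg u := by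
    intro w hw u hu
    induction hw using Submodule.span_induction with
    | mem x hx => obtain ⟨i, rfl⟩ := hx; exact h2 i u hu
    | zero =>
      have : ((0, dot 0 u) : (M → M → ℚ) × (M → M → ℚ)) = 0 := by
        ext x y <;> simp [dot]
      rw [this, map_zero]; simp
    | add x y _ _ hx hy =>
      have : ((0, dot (x + y) u) : (M → M → ℚ) × (M → M → ℚ)) = (0, dot x u) + (0, dot y u) := by
        ext a b
        · simp
        · simp [dot]; ring
      rw [this, map_add, hx, hy, LinearMap.add_apply]; ring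
    | smul t x _ hx =>
      have : ((0, dot (t • x) u) : (M → M → ℚ) × (M → M → ℚ)) = t • (0, dot x u) := by
        ext a b
        · simp
        · simp [dot]; ring
      rw [this, map_smul, hx, LinearMap.smul_apply]; simp only [smul_eq_mul]; ring
  have hU : U ξ (f * g) = U ξ f + U ξ g + (1/2 : ℚ) • wedge (V ξ f) (V ξ g) := by
    ext x y
    simp only [U_mul, Pi.add_apply, Pi.smul_apply, wedge, smul_eq_mul]; ring
  have hE : EE ξ (f * g) = EE ξ f + EE ξ g + (1/2 : ℚ) • (wedge (V ξ f) (V ξ g), 0) +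
      (1/2 : ℚ) • (0, dot (V ξ f) (U ξ g)) - (1/2 : ℚ) • (0, dot (V ξ g) (U ξ f)) +
      (1/12 : ℚ) • (0, dot (V ξ f - V ξ g) (wedge (V ξ f) (V ξ g))) := by
    ext x y
    · simp only [EE, U_mul, wedge, Prod.fst_add, Prod.fst_sub, Prod.smul_fst, Pi.add_apply,
        Pi.sub_apply, Pi.smul_apply, smul_eq_mul, Pi.zero_apply]
      ring
    · simp only [EE, S_mul, wedge, dot, Prod.snd_add, Prod.snd_sub, Prod.smul_snd, Pi.add_apply,
        Pi.sub_apply, Pi.smul_apply, smul_eq_mul, Pi.zero_apply, LinearMap.sub_apply]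
      ring
  ext
  · simp [psi]
  · simp [psi]
  · simp only [psi, DD.mul_q, hU, map_add, map_smul, (h1 _ hwl).1]
    simp
  · simp only [psi, DD.mul_s, hE, map_add, map_sub, map_smul, (h1 _ hwl).2,
      hdot _ hf _ (U_mem ξ g), hdot _ hg _ (U_mem ξ f),
      hdot _ (Submodule.sub_mem _ hf hg) _ (wedge_mem _ _), (h1 _ hwl).1, smul_eq_mul]
    ring
  · simp [psi]

include hb in
/-- few-generated subgroups of the constructed group are residually `DD`. -/
theorem partII (tf : TF H) (hc : Cl3 H) (hI : CaseI (NN (pc ι) h)) {n : ℕ}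
    (hn : n < Module.finrank ℚ L) (τ : QuasiIdentity) (hτ : τ.vars ≤ n) (hD : τ.Holds DD) :
    τ.Holds (Th b j0 h).range := by
  intro x hx
  choose f hf using fun k => (x k).2
  have key : ∀ e, ((FreeGroup.lift x e : (Th b j0 h).range) : H × (((ι → L) × L) → DD)) =
      Th b j0 h (FreeGroup.lift f e) := by
    intro e
    have : (Th b j0 h).range.subtype.comp (FreeGroup.lift x) =
        (Th b j0 h).comp (FreeGroup.lift f) := by
      apply FreeGroup.ext_hom; intro k; simp [hf]
    exact congrArg (fun φ => φ e) this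
  by_contra hcon
  set w := τ.conclusion.1 * τ.conclusion.2⁻¹ with hw
  have hw1 : Th b j0 h (FreeGroup.lift f w) ≠ 1 := by
    intro h1
    apply hcon
    rw [← mul_inv_eq_one, ← map_inv, ← map_mul]
    apply Subtype.ext
    rw [key]
    exact h1
  have hprem : ∀ e ∈ τ.premises, Th b j0 h (FreeGroup.lift f (e.1 * e.2⁻¹)) = 1 := by
    intro e he
    rw [← key, map_mul, map_inv, hx e he, mul_inv_cancel]
    rfl
  -- a general way of using `hD`
  have huse : ∀ (s : Fin τ.vars → DD) (ψ : FreeGroup (Σ _ : ι, J) → DD),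
      (∀ e, FreeGroup.lift s e = ψ (FreeGroup.lift f e)) →
      (∀ e ∈ τ.premises, ψ (FreeGroup.lift f (e.1 * e.2⁻¹)) = 1) →
      ψ (FreeGroup.lift f w) = 1 := by
    intro s ψ h1 h2
    rw [← h1, hw, map_mul, map_inv, mul_inv_eq_one]
    apply hD
    intro e he
    rw [← mul_inv_eq_one, ← map_inv, ← map_mul, h1]
    exact h2 e he
  by_cases h2 : (Th b j0 h (FreeGroup.lift f w)).2 = 1
  · -- everything is in the ideal part
    obtain ⟨hV, hP2, hP3⟩ := P_of_Th b j0 h h2
    have hnot : pb2 (jj L ι) (EE (mb b).coord (FreeGroup.lift f w)) ∉ NN (pc ι) h := by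
      intro hcon2
      apply hw1
      rw [Th_iff b j0 h hb tf hc hV, mem_QQ]
      exact ⟨⟨hP2, hP3⟩, hcon2⟩
    obtain ⟨r, v, e, hr, hve, hspan⟩ := duals (mb (ι := ι) b)
      (fun k => V (mb (ι := ι) b).coord (f k))
    obtain ⟨c, gg, Φ, g1, g2, g3, g4⟩ := core2 (L := L) (lt_of_le_of_lt (hr.trans hτ) hn) v e hve
      (jj L ι) (NN (pc ι) h) hI (ideal_NN h) hP2 hP3 hnot
    have hVs : ∀ z : FreeGroup (Fin τ.vars), V (mb (ι := ι) b).coord (FreeGroup.lift f z) ∈
        Submodule.span ℚ (Set.range v) := by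
      intro z
      induction z using word_ind with
      | one => rw [map_one, V_one]; exact Submodule.zero_mem _
      | of i => rw [FreeGroup.lift_apply_of]; exact hspan i
      | inv z hz => rw [map_inv, V_inv]; exact Submodule.neg_mem _ hz
      | mul y z hy hz => rw [map_mul, V_mul]; exact Submodule.add_mem _ hy hz
    have hψ : ∀ z : FreeGroup (Fin τ.vars),
        FreeGroup.lift (fun k => psi (mb (ι := ι) b).coord c gg Φ (f k)) z =
          psi (mb (ι := ι) b).coord c gg Φ (FreeGroup.lift f z) := by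
      intro z
      induction z using word_ind with
      | one =>
        rw [map_one, map_one, psi, EE_one, V_one]
        have : U (mb (ι := ι) b).coord 1 = 0 := by ext x y; simp
        rw [this, map_zero, map_zero]; rfl
      | of i => simp
      | inv z hz =>
        rw [map_inv, map_inv, hz, psi, psi, EE_inv, V_inv]
        have : U (mb (ι := ι) b).coord (FreeGroup.lift f z)⁻¹ =
          - U (mb (ι := ι) b).coord (FreeGroup.lift f z) := by ext x y; simp [U_inv]
        rw [this, map_neg, map_neg]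
        ext <;> simp
      | mul y z hy hz => rw [map_mul, map_mul, hy, hz, psi_mul _ g1 g2 (hVs y) (hVs z)]
    have h3 := huse _ _ hψ (by
      intro e he
      have h4 := hprem e he
      have hV4 := (P_of_Th b j0 h (f := FreeGroup.lift f (e.1 * e.2⁻¹)) (by rw [h4]; rfl)).1
      rw [Th_iff b j0 h hb tf hc hV4] at h4
      obtain ⟨g5, g6⟩ := g3 _ h4
      rw [psi, hV4, g6]
      change (⟨0, 0, gg (EE (mb b).coord (FreeGroup.lift f (e.1 * e.2⁻¹))).1, 0, 0⟩ : DD) = 1
      rw [g5]; rfl)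
    exact g4 (congrArg DD.s h3)
  · -- some coordinate in `DD` is nontrivial
    have : ∃ p, (Th b j0 h (FreeGroup.lift f w)).2 p ≠ 1 := by
      by_contra hcon2
      push Not at hcon2
      exact h2 (funext hcon2)
    obtain ⟨p, hp⟩ := this
    apply hp
    apply huse (fun k => (Th b j0 h (f k)).2 p) (fun z => (Th b j0 h z).2 p)
    · intro e
      induction e using word_ind with
      | one => simp
      | of i => simp
      | inv z hz => simp [hz]
      | mul y z hy hz => simp [hy, hz]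
    · intro e he
      rw [hprem e he]; rfl

include hb in
/-- the constructed group violates a quasiidentity of `DD`. -/
theorem partIII (tf : TF H) (hc : Cl3 H) (hB : Bad (NN (pc ι) h)) :
    ∃ τ : QuasiIdentity, τ.Holds DD ∧ ¬ τ.Holds (Th b j0 h).range := by
  classical
  obtain ⟨e, heP, heN, hbad⟩ := hB
  have hτ1 : b.coord j0 1 = 1 := by
    rw [← hb, bas_delta b, if_pos rfl]
  have hNP : NN (pc ι) h ≤ PP (ι → ℚ) := by
    intro x hx
    exact NA_le _ _ hx
  obtain ⟨e', he2, he3, hee⟩ := lift_exists (b.coord j0) b hτ1 heP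
  have hQP : QQ L (jj L ι) (NN (pc ι) h) ≤ PP (ι → L) := by
    intro x hx
    obtain ⟨⟨h1, h2⟩, _⟩ := mem_QQ.1 hx
    exact ⟨h1.1, h2.1⟩
  have hfg : (QQ L (jj L ι) (NN (pc ι) h)).FG :=
    Submodule.FG.of_le (PP_fg (mb (ι := ι) b)) hQP
  obtain ⟨B, hBspan⟩ := hfg
  -- words
  have hwd : ∀ x : ((ι → L) → (ι → L) → ℚ) × ((ι → L) → (ι → L) → ℚ), x ∈ PP (ι → L) →
      ∃ m : ℕ, 0 < m ∧ ∃ f, V (mb (ι := ι) b).coord f = 0 ∧
        EE (mb (ι := ι) b).coord f = (m : ℚ) • x := by
    intro x hx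
    obtain ⟨m, hm, f, hV, _, hE⟩ := (mem_NA _).1 (full (mb (ι := ι) b) hx.1 hx.2)
    exact ⟨m, hm, f, hV, hE⟩
  choose! mm hmm wd hwV hwE using hwd
  have he'P : e' ∈ PP (ι → L) := ⟨he2.1, he3.1⟩
  refine ⟨mkQ (B.toList.map wd) (wd e'), ?_, ?_⟩
  · rw [mkQ_holds]
    intro s hs
    -- coordinates of the assignment
    have hs' : s = fun i => (⟨(mb (ι := ι) b).coord i (∑ i, (s i).a • mb b i),
        (mb (ι := ι) b).coord i (∑ i, (s i).b • mb b i),
        (mb (ι := ι) b).coord i (∑ i, (s i).q • mb b i),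
        (mb (ι := ι) b).coord i (∑ i, (s i).s • mb b i),
        (mb (ι := ι) b).coord i (∑ i, (s i).t • mb b i)⟩ : DD) := by
      have hh : ∀ (g : (Σ _ : ι, J) → ℚ) i, (mb (ι := ι) b).coord i (∑ i, g i • mb b i) = g i := by
        intro g i
        rw [map_sum, Finset.sum_eq_single i]
        · rw [map_smul, bas_delta, if_pos rfl]; simp
        · intro k _ hk
          rw [map_smul, bas_delta, if_neg (Ne.symm hk)]; simp
        · intro h; exact absurd (Finset.mem_univ _) h
      funext i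
      rw [hh, hh, hh, hh, hh]
    rw [hs'] at hs ⊢
    rw [word_kill _ _ _ _ _ _ (hwV e' he'P), hwE e' he'P]
    apply Submodule.smul_mem
    apply kill_lemma (b.coord j0) b hτ1 (NN (pc ι) h) hNP heP hbad he2 he3 hee
    rw [← hBspan, Submodule.span_le]
    intro x hx
    have hxQ : x ∈ QQ L (jj L ι) (NN (pc ι) h) := by
      rw [← hBspan]; exact Submodule.subset_span hx
    have h1 := hs (wd x) (List.mem_map.2 ⟨x, Finset.mem_toList.2 hx, rfl⟩)
    rw [word_kill _ _ _ _ _ _ (hwV x (hQP hxQ)), hwE x (hQP hxQ)] at h1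
    exact (mem_smul_iff _ (hmm x (hQP hxQ)) x).1 h1
  · rw [mkQ_holds]
    intro hcon
    have key : ∀ e, ((FreeGroup.lift (fun i => (⟨Th b j0 h (FreeGroup.of i), ⟨_, rfl⟩⟩ :
        (Th b j0 h).range)) e : (Th b j0 h).range) : H × (((ι → L) × L) → DD)) =
        Th b j0 h e := by
      intro e
      have : (Th b j0 h).range.subtype.comp (FreeGroup.lift
          (fun i => (⟨Th b j0 h (FreeGroup.of i), ⟨_, rfl⟩⟩ : (Th b j0 h).range))) =
          (Th b j0 h) := by
        apply FreeGroup.ext_hom; intro k; simp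
      exact congrArg (fun φ => φ e) this
    have h1 := hcon (fun i => ⟨Th b j0 h (FreeGroup.of i), ⟨_, rfl⟩⟩) (by
      intro r hr
      obtain ⟨x, hx, rfl⟩ := List.mem_map.1 hr
      have hxQ : x ∈ QQ L (jj L ι) (NN (pc ι) h) := by
        rw [← hBspan]; exact Submodule.subset_span (Finset.mem_toList.1 hx)
      apply Subtype.ext
      rw [key]
      change Th b j0 h (wd x) = 1
      rw [Th_iff b j0 h hb tf hc (hwV x (hQP hxQ)), hwE x (hQP hxQ)]
      exact Submodule.smul_mem _ _ hxQ)
    have h2 := congrArg Subtype.val h1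
    rw [key] at h2
    change Th b j0 h (wd e') = 1 at h2
    rw [Th_iff b j0 h hb tf hc (hwV e' he'P), hwE e' he'P, mem_smul_iff _ (hmm e' he'P),
      mem_QQ, hee] at h2
    exact heN h2.2

end Parts

section MT

/-- Construction in Case I. -/
theorem construct {ι : Type} [Fintype ι] {H : Type v} [Group H] (h : ι → H) (tf : TF H)
    (hc : Cl3 H) (hI : CaseI (NN (pc ι) h)) (hB : Bad (NN (pc ι) h)) (n : ℕ) :
    ∃ (X : Type v) (_ : Group X), TF X ∧
      (∀ τ : QuasiIdentity, τ.Holds H → τ.Holds DD → τ.Holds X) ∧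
      (∀ τ : QuasiIdentity, τ.vars ≤ n → τ.Holds DD → τ.Holds X) ∧
      ∃ τ : QuasiIdentity, τ.Holds DD ∧ ¬ τ.Holds X := by
  classical
  obtain ⟨L, _, _, _, hn⟩ := exists_field n
  obtain ⟨J, _, b, j0, hb⟩ := exists_basis_one L
  refine ⟨(Th b j0 h).range, inferInstance, ?_, ?_, ?_, ?_⟩
  · intro g k hk hg
    have h1 : TF (H × (((ι → L) × L) → DD)) := prod_tf tf (pi_tf fun _ => DD.tf)
    apply Subtype.ext
    apply h1 _ k hk
    have := congrArg Subtype.val hg
    simpa using this
  · intro τ h1 h2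
    exact Holds.of_injective (Th b j0 h).range.subtype (Subgroup.subtype_injective _)
      (Holds.prod h1 (Holds.pi fun _ => h2))
  · intro τ h1 h2
    exact partII b j0 h hb tf hc hI hn τ h1 h2
  · exact partIII b j0 h hb tf hc hB

/-- Main theorem. -/
theorem MT {H : Type v} [Group H] (tf : TF H) (hc : Cl3 H) {σ : QuasiIdentity}
    (hD : σ.Holds DD) (hH : ¬ σ.Holds H) (n : ℕ) :
    ∃ (X : Type v) (_ : Group X), TF X ∧
      (∀ τ : QuasiIdentity, τ.Holds H → τ.Holds DD → τ.Holds X) ∧
      (∀ τ : QuasiIdentity, τ.vars ≤ n → τ.Holds DD → τ.Holds X) ∧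
      ∃ τ : QuasiIdentity, τ.Holds DD ∧ ¬ τ.Holds X := by
  unfold QuasiIdentity.Holds at hH
  push Not at hH
  obtain ⟨h, hprem, hconcl⟩ := hH
  have hn : NotResD h := by
    refine ⟨σ.conclusion.1 * σ.conclusion.2⁻¹, ?_, ?_⟩
    · rw [map_mul, map_inv, Ne, mul_inv_eq_one]; exact hconcl
    · intro s hs
      rw [map_mul, map_inv, mul_inv_eq_one]
      apply hD
      intro e he
      rw [← mul_inv_eq_one, ← map_inv, ← map_mul]
      apply hs
      rw [map_mul, map_inv, mul_inv_eq_one]
      exact hprem e he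
  by_cases hI : CaseI (NN (pc (Fin σ.vars)) h)
  · exact construct h tf hc hI (step0 _ h tf hc hn) n
  · have tf' : TF (H × (((Fin σ.vars → ℚ) × (Fin σ.vars → ℚ)) → DD)) :=
      prod_tf tf (pi_tf fun _ => DD.tf)
    have hc' : Cl3 (H × (((Fin σ.vars → ℚ) × (Fin σ.vars → ℚ)) → DD)) :=
      prod_cl3 hc (pi_cl3 fun _ => DD.cl3)
    obtain ⟨X, gX, h1, h2, h3, h4⟩ := construct (hp h) tf' hc' (caseII_caseI h hc)
      (step0 _ _ tf' hc' (caseII_notRes h tf hc hI)) n
    exact ⟨X, gX, h1, fun τ a1 a2 => h2 τ (Holds.prod a1 (Holds.pi fun _ => a2)) a2, h3, h4⟩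

end MT

end MP8d
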