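import Pool.Agent.Lib.MP_8d185c_al.CaseII

/-!
Linear algebra for subgroups generated by few elements.
-/

namespace MP8d

section PDefs

variable (L : Type*) [Field L] (M : Type*) [AddCommGroup M] [Module ℚ M] [Module L M]

/-- forms of degree two vanishing on all `(x, λ x)`. -/
def P2 : Submodule ℚ (M → M → ℚ) where
  carrier := {u | u ∈ Alt2 M ∧ ∀ (l : L) x y, u (l • x) y = u x (l • y)}
  zero_mem' := ⟨Submodule.zero_mem _, by intros; simp⟩
  add_mem' := by
    rintro u w ⟨h1, h2⟩ ⟨k1, k2⟩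
    refine ⟨Submodule.add_mem _ h1 k1, ?_⟩
    intro l x y
    simp only [Pi.add_apply, h2, k2]
  smul_mem' := by
    rintro c u ⟨h1, h2⟩
    refine ⟨Submodule.smul_mem _ _ h1, ?_⟩
    intro l x y
    simp only [Pi.smul_apply, h2]

/-- forms of degree three vanishing on all `(x, λ x)`. -/
def P3 : Submodule ℚ (M → M → ℚ) where
  carrier := {T | T ∈ L3 M ∧ ∀ (l : L) x, T x (l • x) = 0}
  zero_mem' := ⟨Submodule.zero_mem _, by intros; simp⟩
  add_mem' := by
    rintro u w ⟨h1, h2⟩ ⟨k1, k2⟩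
    refine ⟨Submodule.add_mem _ h1 k1, ?_⟩
    intro l x
    simp only [Pi.add_apply, h2, k2, add_zero]
  smul_mem' := by
    rintro c u ⟨h1, h2⟩
    refine ⟨Submodule.smul_mem _ _ h1, ?_⟩
    intro l x
    simp only [Pi.smul_apply, h2, smul_zero]

variable {L M}

theorem P2.self {u : M → M → ℚ} (hu : u ∈ P2 L M) (l : L) (x : M) : u x (l • x) = 0 := by
  have h1 := hu.2 l x x
  have h2 := Alt2.swap hu.1 (l • x) x
  linarith

end PDefs

section FactF

variable {L : Type*} [Field L] [Algebra ℚ L] [FiniteDimensional ℚ L]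
  {M : Type*} [AddCommGroup M] [Module ℚ M] [Module L M] [IsScalarTower ℚ L M]

theorem factF {r : ℕ} (hr : r < Module.finrank ℚ L) (v : Fin r → Module.Dual ℚ M) (x : M) :
    ∃ μ : L, μ ≠ 0 ∧ ∀ i, v i (μ • x) = 0 := by
  let φ : L →ₗ[ℚ] (Fin r → ℚ) := LinearMap.pi (fun i => (v i).comp
    ((LinearMap.toSpanSingleton L M x).restrictScalars ℚ))
  have h := LinearMap.ker_ne_bot_of_finrank_lt (f := φ) (by simpa using hr)
  obtain ⟨μ, hμ, hμ0⟩ := Submodule.exists_mem_ne_zero_of_ne_bot h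
  refine ⟨μ, hμ0, fun i => ?_⟩
  rw [LinearMap.mem_ker] at hμ
  exact congrFun hμ i

/-- forms depending only on the functionals `v`. -/
def Lam {r : ℕ} (v : Fin r → Module.Dual ℚ M) : Submodule ℚ (M → M → ℚ) where
  carrier := {u | u ∈ Alt2 M ∧ ∀ a, (∀ i, v i a = 0) → ∀ y, u a y = 0}
  zero_mem' := ⟨Submodule.zero_mem _, by intros; simp⟩
  add_mem' := by
    rintro u w ⟨h1, h2⟩ ⟨k1, k2⟩
    refine ⟨Submodule.add_mem _ h1 k1, ?_⟩
    intro a ha y
    simp only [Pi.add_apply, h2 a ha, k2 a ha, add_zero]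
  smul_mem' := by
    rintro c u ⟨h1, h2⟩
    refine ⟨Submodule.smul_mem _ _ h1, ?_⟩
    intro a ha y
    simp only [Pi.smul_apply, h2 a ha, smul_zero]

theorem P2_inf_Lam {r : ℕ} (hr : r < Module.finrank ℚ L) (v : Fin r → Module.Dual ℚ M)
    {u : M → M → ℚ} (h1 : u ∈ P2 L M) (h2 : u ∈ Lam v) : u = 0 := by
  ext x y
  obtain ⟨μ, hμ, hv⟩ := factF hr v x
  have e : x = μ⁻¹ • (μ • x) := by rw [smul_smul, inv_mul_cancel₀ hμ, one_smul]
  rw [e, h1.2, h2.2 _ hv]
  rfl

theorem lemW {r : ℕ} (hr : r < Module.finrank ℚ L) (v : Fin r → Module.Dual ℚ M)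
    {g : M → M → ℚ} (hg : g ∈ Alt2 M)
    (h0 : ∀ a, (∀ i, v i a = 0) → ∀ l : L, g a (l • a) = 0) :
    ∃ w ∈ P2 L M, ∀ a, (∀ i, v i a = 0) → ∀ y, w a y = g a y := by
  choose μ hμ hv using fun x => factF hr v x
  have K : ∀ a b, (∀ i, v i a = 0) → (∀ i, v i b = 0) → ∀ l : L, g a (l • b) = - g b (l • a) := by
    intro a b ha hb l
    have h1 := h0 (a + b) (fun i => by rw [map_add, ha, hb, add_zero]) l
    rw [smul_add, Alt2.add_left hg, Alt2.add_right hg, Alt2.add_right hg, h0 a ha, h0 b hb] at h1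
    linarith
  have hx : ∀ x, x = (μ x)⁻¹ • (μ x • x) := by
    intro x; rw [smul_smul, inv_mul_cancel₀ (hμ x), one_smul]
  let w : M → M → ℚ := fun x y => g (μ x • x) ((μ x)⁻¹ • y)
  have K4 : ∀ x y (l : L), w x (l • y) = - w y (l • x) := by
    intro x y l
    change g (μ x • x) ((μ x)⁻¹ • l • y) = - g (μ y • y) ((μ y)⁻¹ • l • x)
    have e1 : (μ x)⁻¹ • l • y = ((μ x)⁻¹ * l * (μ y)⁻¹) • (μ y • y) := by
      rw [smul_smul, smul_smul, mul_assoc _ (μ y)⁻¹ (μ y), inv_mul_cancel₀ (hμ y), mul_one]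
    have e2 : (μ y)⁻¹ • l • x = ((μ x)⁻¹ * l * (μ y)⁻¹) • (μ x • x) := by
      rw [smul_smul, smul_smul]
      congr 1
      have := inv_mul_cancel₀ (hμ x)
      calc (μ y)⁻¹ * l = (μ y)⁻¹ * l * ((μ x)⁻¹ * μ x) := by rw [this, mul_one]
        _ = _ := by ring
    rw [e1, e2, K _ _ (hv x) (hv y)]
  have K5 : ∀ x y, w x y = - w y x := by
    intro x y
    have := K4 x y 1
    simpa using this
  refine ⟨w, ⟨⟨?_, ?_, K5⟩, ?_⟩, ?_⟩
  · intro x x' y
    rw [K5, K5 x, K5 x']
    simp only [w]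
    rw [smul_add, Alt2.add_right hg]; ring
  · intro c x y
    rw [K5, K5 x]
    simp only [w]
    have : (μ y)⁻¹ • c • x = c • (μ y)⁻¹ • x := by
      rw [smul_comm]
    rw [this, Alt2.smul_right hg]; ring
  · intro l x y
    rw [K5, ← K4]
  · intro a ha y
    rw [K5]
    simp only [w]
    rw [K _ _ (hv y) ha, ← hx]
    ring

theorem claim {r : ℕ} (hr : r < Module.finrank ℚ L) (v : Fin r → Module.Dual ℚ M)
    (e : Fin r → M) (hve : ∀ i j, v i (e j) = if i = j then 1 else 0)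
    (g : Fin r → M → M → ℚ) (hg : ∀ i, g i ∈ Alt2 M)
    (hT : ∀ (l : L) x, (∑ i, dot (v i) (g i)) x (l • x) = 0) :
    ∃ w : Fin r → M → M → ℚ, (∀ i, w i ∈ P2 L M) ∧ (∀ i, g i - w i ∈ Lam v) ∧
      ∑ i, dot (v i) (g i) = ∑ i, dot (v i) (w i) := by
  have hTx : ∀ (l : L) x, ∑ i, v i x * g i x (l • x) = 0 := by
    intro l x
    have := hT l x
    simpa [Finset.sum_apply, dot] using this
  have h1 : ∀ i0, ∀ a, (∀ i, v i a = 0) → ∀ l : L, g i0 a (l • a) = 0 := by
    intro i0 a ha l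
    have hP : ∀ t : ℚ, t ≠ 0 → g i0 (a + t • e i0) (l • (a + t • e i0)) = 0 := by
      intro t ht
      have h2 := hTx l (a + t • e i0)
      rw [Finset.sum_eq_single i0] at h2
      · rw [map_add, ha, map_smul, hve, if_pos rfl] at h2
        simpa [ht] using h2
      · intro j _ hj
        rw [map_add, ha, map_smul, hve, if_neg hj]; simp
      · intro h; exact absurd (Finset.mem_univ _) h
    have hexp : ∀ t : ℚ, g i0 (a + t • e i0) (l • (a + t • e i0)) =
        g i0 a (l • a) + t * (g i0 a (l • e i0) + g i0 (e i0) (l • a)) +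
          t ^ 2 * g i0 (e i0) (l • e i0) := by
      intro t
      have : l • (a + t • e i0) = l • a + t • (l • e i0) := by
        rw [smul_add, smul_comm]
      rw [this, Alt2.add_left (hg i0), Alt2.add_right (hg i0), Alt2.add_right (hg i0),
        Alt2.smul_left (hg i0), Alt2.smul_right (hg i0), Alt2.smul_left (hg i0),
        Alt2.smul_right (hg i0)]
      ring
    have p1 := hP 1 one_ne_zero
    have p2 := hP (-1) (by norm_num)
    have p3 := hP 2 (by norm_num)
    have p4 := hP (-2) (by norm_num)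
    rw [hexp] at p1 p2 p3 p4
    linarith
  choose w hw hwg using fun i => lemW hr v (hg i) (h1 i)
  have hLam : ∀ i, g i - w i ∈ Lam v := by
    intro i
    refine ⟨Submodule.sub_mem _ (hg i) (hw i).1, ?_⟩
    intro a ha y
    simp [hwg i a ha y]
  refine ⟨w, hw, hLam, ?_⟩
  have hν : ∀ x y, ∑ i, v i x * (g i - w i) x y = 0 := by
    have h2 : ∀ (l : L) x, ∑ i, v i x * (g i - w i) x (l • x) = 0 := by
      intro l x
      have e1 : ∀ i, v i x * (g i - w i) x (l • x) = v i x * g i x (l • x) := by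
        intro i
        simp only [Pi.sub_apply]
        rw [P2.self (hw i)]; ring
      rw [Finset.sum_congr rfl (fun i _ => e1 i)]
      exact hTx l x
    intro x y
    obtain ⟨μ, hμ, hv⟩ := factF hr v y
    have h3 := h2 μ⁻¹ (x + μ • y)
    have e1 : ∀ i, v i (x + μ • y) * (g i - w i) (x + μ • y) (μ⁻¹ • (x + μ • y)) =
        v i x * (g i - w i) x (μ⁻¹ • x) + v i x * (g i - w i) x y := by
      intro i
      rw [map_add, hv i, add_zero, Alt2.add_left (hLam i).1, (hLam i).2 _ hv, add_zero,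
        smul_add, smul_smul, inv_mul_cancel₀ hμ, one_smul, Alt2.add_right (hLam i).1]
      ring
    rw [Finset.sum_congr rfl (fun i _ => e1 i), Finset.sum_add_distrib, h2, zero_add] at h3
    exact h3
  ext x y
  have := hν x y
  simp only [Pi.sub_apply, mul_sub, Finset.sum_sub_distrib] at this
  simp only [Finset.sum_apply, dot]
  linarith

end FactF

section Functional

theorem ext_functional {A W : Type*} [AddCommGroup A] [Module ℚ A] [AddCommGroup W] [Module ℚ W]
    (Ψ : A →ₗ[ℚ] W) (χ : A →ₗ[ℚ] ℚ) (h : ∀ a, Ψ a = 0 → χ a = 0) :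
    ∃ φ : W →ₗ[ℚ] ℚ, ∀ a, φ (Ψ a) = χ a := by
  have hk : χ ∈ (LinearMap.ker Ψ).dualAnnihilator := by
    rw [Submodule.mem_dualAnnihilator]
    intro a ha
    exact h a ha
  rw [← LinearMap.range_dualMap_eq_dualAnnihilator_ker] at hk
  obtain ⟨φ, hφ⟩ := hk
  exact ⟨φ, fun a => by rw [← hφ]; rfl⟩

variable {M : Type*} [AddCommGroup M] [Module ℚ M]
  {M' : Type*} [AddCommGroup M'] [Module ℚ M']

/-- pullback of forms along `j`. -/
def pb (j : M' →ₗ[ℚ] M) : (M → M → ℚ) →ₗ[ℚ] (M' → M' → ℚ) where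
  toFun u := fun x y => u (j x) (j y)
  map_add' := by intros; rfl
  map_smul' := by intros; rfl

/-- pullback of pairs of forms -/
def pb2 (j : M' →ₗ[ℚ] M) : ((M → M → ℚ) × (M → M → ℚ)) →ₗ[ℚ]
    ((M' → M' → ℚ) × (M' → M' → ℚ)) := (pb j).prodMap (pb j)

theorem pb_alt (j : M' →ₗ[ℚ] M) {u : M → M → ℚ} (hu : u ∈ Alt2 M) : pb j u ∈ Alt2 M' := by
  refine ⟨?_, ?_, ?_⟩
  · intro x x' y; simp only [pb, LinearMap.coe_mk, AddHom.coe_mk, map_add, Alt2.add_left hu]
  · intro c x y; simp only [pb, LinearMap.coe_mk, AddHom.coe_mk, map_smul, Alt2.smul_left hu]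
  · intro x y; exact Alt2.swap hu _ _

theorem pb_dot (j : M' →ₗ[ℚ] M) (v : Module.Dual ℚ M) (u : M → M → ℚ) :
    pb j (dot v u) = dot (v.comp j) (pb j u) := rfl

end Functional

section Core

variable {L : Type*} [Field L] [Algebra ℚ L] [FiniteDimensional ℚ L]
  {M : Type*} [AddCommGroup M] [Module ℚ M] [Module L M] [IsScalarTower ℚ L M]
  {ι : Type*} [Fintype ι]

/-- the ideal of all relations of the construction -/
def QQ (L : Type*) [Field L] {M : Type*} [AddCommGroup M] [Module ℚ M] [Module L M]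
    (j : (ι → ℚ) →ₗ[ℚ] M)
    (N : Submodule ℚ (((ι → ℚ) → (ι → ℚ) → ℚ) × ((ι → ℚ) → (ι → ℚ) → ℚ))) :
    Submodule ℚ ((M → M → ℚ) × (M → M → ℚ)) :=
  ((P2 L M).prod (P3 L M)) ⊓ N.comap (pb2 j)

theorem mem_QQ {L : Type*} [Field L] {M : Type*} [AddCommGroup M] [Module ℚ M] [Module L M]
    {ι : Type*} [Fintype ι] {j : (ι → ℚ) →ₗ[ℚ] M}
    {N : Submodule ℚ (((ι → ℚ) → (ι → ℚ) → ℚ) × ((ι → ℚ) → (ι → ℚ) → ℚ))}
    {q : (M → M → ℚ) × (M → M → ℚ)} :
    q ∈ QQ L j N ↔ (q.1 ∈ P2 L M ∧ q.2 ∈ P3 L M) ∧ pb2 j q ∈ N := by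
  unfold QQ
  rw [Submodule.mem_inf, Submodule.mem_prod, Submodule.mem_comap]

/-- functional on forms attached to an array -/
noncomputable def gH (g : ι → ι → ℚ) : ((ι → ℚ) → (ι → ℚ) → ℚ) →ₗ[ℚ] ℚ where
  toFun u := ∑ k, ∑ l, u (pc ι k) (pc ι l) / 2 * g k l
  map_add' := by
    intro u w
    simp only [Pi.add_apply, add_div, add_mul, Finset.sum_add_distrib]
  map_smul' := by
    intro c u
    simp only [Pi.smul_apply, smul_eq_mul, RingHom.id_apply, Finset.mul_sum, mul_div_assoc,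
      mul_assoc]

theorem pair_family {r : ℕ} (v : Fin r → Module.Dual ℚ (ι → ℚ))
    (w : Fin r → (ι → ℚ) → (ι → ℚ) → ℚ) (c : ι → ℚ) (g : ι → ι → ℚ) :
    pair (fun i k l => ∑ j, v j (pc ι i) * (w j (pc ι k) (pc ι l) / 2)) c g =
      ∑ j, v j c * gH g (w j) := by
  have hvc : ∀ j, v j c = ∑ i, v j (pc ι i) * c i := by
    intro j
    conv_lhs => rw [← (pc ι).sum_repr c, map_sum]
    simp [mul_comm]
  have hr : ∀ j, v j c * gH g (w j) = ∑ i, ∑ k, ∑ l,
      v j (pc ι i) * (w j (pc ι k) (pc ι l) / 2) * (c i * g k l) := by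
    intro j
    rw [hvc]
    simp only [gH, LinearMap.coe_mk, AddHom.coe_mk]
    rw [Finset.sum_mul]
    apply Finset.sum_congr rfl; intro i _
    rw [Finset.mul_sum]
    apply Finset.sum_congr rfl; intro k _
    rw [Finset.mul_sum]
    apply Finset.sum_congr rfl; intro l _
    ring
  simp only [hr, pair, Finset.sum_mul]
  rw [Finset.sum_comm (s := (Finset.univ : Finset (Fin r)))]
  apply Finset.sum_congr rfl; intro i _
  rw [Finset.sum_comm (s := (Finset.univ : Finset (Fin r)))]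
  apply Finset.sum_congr rfl; intro k _
  rw [Finset.sum_comm (s := (Finset.univ : Finset (Fin r)))]

theorem core2 {r : ℕ} (hr : r < Module.finrank ℚ L) (v : Fin r → Module.Dual ℚ M)
    (e : Fin r → M) (hve : ∀ i j, v i (e j) = if i = j then 1 else 0)
    (j : (ι → ℚ) →ₗ[ℚ] M)
    (N : Submodule ℚ (((ι → ℚ) → (ι → ℚ) → ℚ) × ((ι → ℚ) → (ι → ℚ) → ℚ)))
    (hI : CaseI N) (hid : ∀ e ∈ N, ∀ v, (0, dot v e.1) ∈ N)
    {b : (M → M → ℚ) × (M → M → ℚ)} (hb2 : b.1 ∈ P2 L M) (hb3 : b.2 ∈ P3 L M)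
    (hbN : pb2 j b ∉ N) :
    ∃ (c : M) (gg : (M → M → ℚ) →ₗ[ℚ] ℚ) (Φ : ((M → M → ℚ) × (M → M → ℚ)) →ₗ[ℚ] ℚ),
      (∀ ν ∈ Lam v, gg ν = 0 ∧ Φ (ν, 0) = 0) ∧
      (∀ i, ∀ g ∈ Alt2 M, Φ (0, dot (v i) g) = v i c * gg g) ∧
      (∀ q ∈ QQ L j N, gg q.1 = 0 ∧ Φ q = 0) ∧ Φ b ≠ 0 := by
  classical
  -- the parametrisation of the subspace on which things are prescribed
  let A := (Fin r → Alt2 M) × (Lam v) × (QQ L j N)
  let D1 : (Fin r → Alt2 M) →ₗ[ℚ] ((M → M → ℚ) × (M → M → ℚ)) :=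
    { toFun := fun g => (0, ∑ i, dot (v i) (g i : M → M → ℚ))
      map_add' := by
        intro g g'
        ext x y
        · simp
        · simp only [Pi.add_apply, Submodule.coe_add, Finset.sum_apply, dot, Prod.snd_add,
            mul_add, Finset.sum_add_distrib]
      map_smul' := by
        intro c g
        ext x y
        · simp
        · simp only [Pi.smul_apply, SetLike.val_smul, Finset.sum_apply, dot, Prod.smul_snd,
            smul_eq_mul, Finset.mul_sum, RingHom.id_apply]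
          apply Finset.sum_congr rfl; intro i _; ring }
  let D2 : (Lam v) →ₗ[ℚ] ((M → M → ℚ) × (M → M → ℚ)) :=
    (LinearMap.inl ℚ (M → M → ℚ) (M → M → ℚ)).comp (Lam v).subtype
  let Ψ : A →ₗ[ℚ] ((M → M → ℚ) × (M → M → ℚ)) :=
    D1.coprod (D2.coprod (QQ L j N).subtype)
  have hΨ : ∀ g ν q, Ψ (g, ν, q) = (0, ∑ i, dot (v i) (g i : M → M → ℚ)) +
      (((ν : M → M → ℚ), 0) + (q : (M → M → ℚ) × (M → M → ℚ))) := by
    intro g ν q; rfl
  by_cases hbr : b ∈ LinearMap.range Ψ
  · obtain ⟨⟨g, ν, q⟩, hgb⟩ := hbr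
    rw [hΨ] at hgb
    have hq := q.2
    rw [mem_QQ] at hq
    obtain ⟨⟨hq2, hq3⟩, hqN⟩ := hq
    have hb1 : b.1 = (ν : M → M → ℚ) + (q : (M → M → ℚ) × (M → M → ℚ)).1 := by
      rw [← hgb]; simp
    have hb2' : b.2 = ∑ i, dot (v i) (g i : M → M → ℚ) + (q : (M → M → ℚ) × (M → M → ℚ)).2 := by
      rw [← hgb]; simp
    have hν0 : (ν : M → M → ℚ) = 0 := by
      apply P2_inf_Lam (L := L) hr v _ ν.2
      have : (ν : M → M → ℚ) = b.1 - (q : (M → M → ℚ) × (M → M → ℚ)).1 := by rw [hb1]; simp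
      rw [this]
      exact Submodule.sub_mem _ hb2 hq2
    have hsum : ∀ (l : L) x, (∑ i, dot (v i) (g i : M → M → ℚ)) x (l • x) = 0 := by
      have : ∑ i, dot (v i) (g i : M → M → ℚ) = b.2 - (q : (M → M → ℚ) × (M → M → ℚ)).2 := by
        rw [hb2']; simp
      rw [this]
      exact (Submodule.sub_mem _ hb3 hq3).2
    obtain ⟨w, hw, hwl, hwe⟩ := claim hr v e hve (fun i => (g i : M → M → ℚ))
      (fun i => (g i).2) hsum
    -- restricted family
    have hwN : (0, ∑ i, dot ((v i).comp j) (pb j (w i))) ∉ N := by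
      intro hcon
      apply hbN
      have : pb2 j b = (0, ∑ i, dot ((v i).comp j) (pb j (w i))) +
          pb2 j (q : (M → M → ℚ) × (M → M → ℚ)) := by
        have hb' : b = (0, ∑ i, dot (v i) (w i)) + (q : (M → M → ℚ) × (M → M → ℚ)) := by
          rw [← hgb, hν0, hwe]; simp
        rw [hb', map_add]
        congr 1
        ext x y
        · rfl
        · simp only [pb2, LinearMap.prodMap_apply, pb, LinearMap.coe_mk, AddHom.coe_mk,
            Finset.sum_apply]
          rfl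
      rw [this]
      exact Submodule.add_mem _ hcon hqN
    have hfam := family_expand (pc ι) (fun i => (v i).comp j) (fun i => pb j (w i))
      (fun i => pb_alt j (hw i).1)
    rw [hfam] at hwN
    obtain ⟨c, g0, hcg, hcg0⟩ := hI _ hwN
    rw [pair_family] at hcg0
    have hcg' : ∀ {r' : ℕ} (v' : Fin r' → Module.Dual ℚ (ι → ℚ))
        (w' : Fin r' → (ι → ℚ) → (ι → ℚ) → ℚ), (∀ i, w' i ∈ Alt2 (ι → ℚ)) →
        (0, ∑ i, dot (v' i) (w' i)) ∈ N → ∑ i, v' i c * gH g0 (w' i) = 0 := by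
      intro r' v' w' hw' hN
      rw [family_expand (pc ι) v' w' hw'] at hN
      rw [← pair_family]
      exact hcg _ hN
    have hc0 : c ≠ 0 := by
      rintro rfl
      apply hcg0
      apply Finset.sum_eq_zero
      intro i _
      simp
    -- functional on degree two
    let B := (P2 L M) × (Lam v)
    let Ψ2 : B →ₗ[ℚ] (M → M → ℚ) := (P2 L M).subtype.coprod (Lam v).subtype
    let χ2 : B →ₗ[ℚ] ℚ := ((gH g0).comp ((pb j).comp (P2 L M).subtype)).comp
      (LinearMap.fst ℚ (P2 L M) (Lam v))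
    obtain ⟨gg, hgg⟩ := ext_functional Ψ2 χ2 (by
      rintro ⟨p, μ⟩ hpμ
      have h1 : (p : M → M → ℚ) + (μ : M → M → ℚ) = 0 := hpμ
      have h2 : (p : M → M → ℚ) = 0 := by
        apply P2_inf_Lam (L := L) hr v p.2
        rw [eq_neg_of_add_eq_zero_left h1]
        exact Submodule.neg_mem _ μ.2
      change gH g0 (pb j (p : M → M → ℚ)) = 0
      rw [h2, map_zero, map_zero])
    have hggP : ∀ p ∈ P2 L M, gg p = gH g0 (pb j p) := by
      intro p hp
      have := hgg (⟨p, hp⟩, 0)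
      have e1 : Ψ2 (⟨p, hp⟩, 0) = p := by
        change p + ((0 : Lam v) : M → M → ℚ) = p
        simp
      rw [e1] at this
      exact this
    have hggL : ∀ μ ∈ Lam v, gg μ = 0 := by
      intro μ hμ
      have := hgg (0, ⟨μ, hμ⟩)
      have e1 : Ψ2 (0, ⟨μ, hμ⟩) = μ := by
        change ((0 : P2 L M) : M → M → ℚ) + μ = μ
        simp
      rw [e1] at this
      rw [this]
      change gH g0 (pb j ((0 : P2 L M) : M → M → ℚ)) = 0
      rw [Submodule.coe_zero, map_zero, map_zero]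
    let χ0 : (Fin r → Alt2 M) →ₗ[ℚ] ℚ :=
      { toFun := fun a => ∑ i, v i (j c) * gg (a i : M → M → ℚ)
        map_add' := by
          intro a a'
          simp only [Pi.add_apply, Submodule.coe_add, map_add, mul_add,
            Finset.sum_add_distrib]
        map_smul' := by
          intro t a
          simp only [Pi.smul_apply, SetLike.val_smul, map_smul, smul_eq_mul,
            Finset.mul_sum, RingHom.id_apply]
          apply Finset.sum_congr rfl; intro i _; ring }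
    let χ : A →ₗ[ℚ] ℚ := χ0.comp (LinearMap.fst ℚ (Fin r → Alt2 M) ((Lam v) × (QQ L j N)))
    have hggw : ∀ (g w : M → M → ℚ), w ∈ P2 L M → g - w ∈ Lam v → gg g = gH g0 (pb j w) := by
      intro g w hw hgw
      have : g = w + (g - w) := by simp
      rw [this, map_add, hggL _ hgw, hggP _ hw, add_zero]
    obtain ⟨Φ, hΦ⟩ := ext_functional Ψ χ (by
      rintro ⟨g', ν', q'⟩ h0
      rw [hΨ] at h0
      have hq' := q'.2
      rw [mem_QQ] at hq'
      obtain ⟨⟨hq2', hq3'⟩, hqN'⟩ := hq'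
      have e1 : (ν' : M → M → ℚ) + (q' : (M → M → ℚ) × (M → M → ℚ)).1 = 0 := by
        have := congrArg Prod.fst h0; simpa using this
      have e2 : ∑ i, dot (v i) (g' i : M → M → ℚ) + (q' : (M → M → ℚ) × (M → M → ℚ)).2 = 0 := by
        have := congrArg Prod.snd h0; simpa using this
      have hν0' : (ν' : M → M → ℚ) = 0 := by
        apply P2_inf_Lam (L := L) hr v _ ν'.2
        rw [eq_neg_of_add_eq_zero_left e1]
        exact Submodule.neg_mem _ hq2'
      have hq10 : (q' : (M → M → ℚ) × (M → M → ℚ)).1 = 0 := by rw [hν0', zero_add] at e1; exact e1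
      have hsum' : ∀ (l : L) x, (∑ i, dot (v i) (g' i : M → M → ℚ)) x (l • x) = 0 := by
        rw [eq_neg_of_add_eq_zero_left e2]
        exact (Submodule.neg_mem _ hq3').2
      obtain ⟨w', hw', hwl', hwe'⟩ := claim hr v e hve (fun i => (g' i : M → M → ℚ))
        (fun i => (g' i).2) hsum'
      have hmem : (0, ∑ i, dot ((v i).comp j) (pb j (w' i))) ∈ N := by
        have : ((0, ∑ i, dot ((v i).comp j) (pb j (w' i))) :
          ((ι → ℚ) → (ι → ℚ) → ℚ) × ((ι → ℚ) → (ι → ℚ) → ℚ)) =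
            - pb2 j (q' : (M → M → ℚ) × (M → M → ℚ)) := by
          have hq'' : (q' : (M → M → ℚ) × (M → M → ℚ)) = - (0, ∑ i, dot (v i) (w' i)) := by
            rw [← hwe']
            ext1
            · simpa using hq10
            · simpa using (eq_neg_of_add_eq_zero_right e2)
          rw [hq'', map_neg, neg_neg]
          ext x y
          · rfl
          · simp only [pb2, LinearMap.prodMap_apply, pb, LinearMap.coe_mk, AddHom.coe_mk,
              Finset.sum_apply]
            rfl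
        rw [this]
        exact Submodule.neg_mem _ hqN'
      have := hcg' _ _ (fun i => pb_alt j (hw' i).1) hmem
      change ∑ i, v i (j c) * gg (g' i : M → M → ℚ) = 0
      rw [← this]
      apply Finset.sum_congr rfl
      intro i _
      rw [hggw _ _ (hw' i) (hwl' i)]
      rfl)
    refine ⟨j c, gg, Φ, ?_, ?_, ?_, ?_⟩
    · intro μ hμ
      refine ⟨hggL μ hμ, ?_⟩
      have := hΦ (0, ⟨μ, hμ⟩, 0)
      rw [hΨ] at this
      have e1 : ((0, ∑ i, dot (v i) (((0 : Fin r → Alt2 M) i : Alt2 M) : M → M → ℚ)) +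
        ((μ, 0) + ((0 : QQ L j N) : (M → M → ℚ) × (M → M → ℚ)))) = (μ, 0) := by
        ext x y
        · simp
        · simp [dot, Finset.sum_apply]
      rw [e1] at this
      rw [this]
      exact map_zero χ0
    · intro i g' hg'
      have := hΦ (Pi.single i ⟨g', hg'⟩, 0, 0)
      rw [hΨ] at this
      have e1 : ((0, ∑ k, dot (v k) (((Pi.single i ⟨g', hg'⟩ : Fin r → Alt2 M) k : Alt2 M) :
        M → M → ℚ)) + ((((0 : Lam v) : M → M → ℚ), 0) +
          ((0 : QQ L j N) : (M → M → ℚ) × (M → M → ℚ)))) = (0, dot (v i) g') := by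
        rw [Finset.sum_eq_single i]
        · simp
        · intro k _ hk
          rw [Pi.single_eq_of_ne hk]
          ext x y; simp [dot]
        · intro h; exact absurd (Finset.mem_univ _) h
      rw [e1] at this
      rw [this]
      change ∑ k, v k (j c) * gg (((Pi.single i ⟨g', hg'⟩ : Fin r → Alt2 M) k : Alt2 M) :
        M → M → ℚ) = _
      rw [Finset.sum_eq_single i]
      · simp
      · intro k _ hk
        rw [Pi.single_eq_of_ne hk]
        simp
      · intro h; exact absurd (Finset.mem_univ _) h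
    · intro q' hq'
      have h1 := hΦ (0, 0, ⟨q', hq'⟩)
      rw [hΨ] at h1
      have e1 : ((0, ∑ i, dot (v i) (((0 : Fin r → Alt2 M) i : Alt2 M) : M → M → ℚ)) +
        ((((0 : Lam v) : M → M → ℚ), 0) + q')) = q' := by
        ext x y
        · simp
        · simp [dot, Finset.sum_apply]
      rw [e1] at h1
      refine ⟨?_, by rw [h1]; exact map_zero χ0⟩
      rw [mem_QQ] at hq'
      obtain ⟨⟨hq2', hq3'⟩, hqN'⟩ := hq'
      rw [hggP _ hq2']
      have hne : ∃ i, c i ≠ 0 := by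
        by_contra hcon
        push Not at hcon
        exact hc0 (funext hcon)
      obtain ⟨i, hi⟩ := hne
      have h3 := hcg' (r' := 1) (fun _ => (pc ι).coord i) (fun _ => pb j q'.1)
        (fun _ => pb_alt j hq2'.1) (by
          have := hid _ hqN' ((pc ι).coord i)
          simpa [pb2] using this)
      simp only [Finset.univ_unique, Finset.sum_singleton, pc_coord] at h3
      exact (mul_eq_zero.1 h3).resolve_left hi
    · have h1 := hΦ (g, ν, q)
      rw [hΨ, hgb] at h1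
      rw [h1]
      change ∑ i, v i (j c) * gg (g i : M → M → ℚ) ≠ 0
      have : ∑ i, v i (j c) * gg (g i : M → M → ℚ) =
          ∑ i, ((v i).comp j) c * gH g0 (pb j (w i)) := by
        apply Finset.sum_congr rfl
        intro i _
        rw [hggw _ _ (hw i) (hwl i)]
        rfl
      rw [this]
      exact hcg0
  · obtain ⟨Φ, hΦ1, hΦ2⟩ := Submodule.exists_le_ker_of_notMem hbr
    refine ⟨0, 0, Φ, ?_, ?_, ?_, hΦ1⟩
    · intro μ hμ
      refine ⟨rfl, ?_⟩
      have : ((μ, 0) : (M → M → ℚ) × (M → M → ℚ)) ∈ LinearMap.range Ψ := by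
        refine ⟨(0, ⟨μ, hμ⟩, 0), ?_⟩
        rw [hΨ]
        ext x y
        · simp
        · simp [dot, Finset.sum_apply]
      exact hΦ2 this
    · intro i g' hg'
      have : ((0, dot (v i) g') : (M → M → ℚ) × (M → M → ℚ)) ∈ LinearMap.range Ψ := by
        refine ⟨(Pi.single i ⟨g', hg'⟩, 0, 0), ?_⟩
        rw [hΨ, Finset.sum_eq_single i]
        · simp
        · intro k _ hk
          rw [Pi.single_eq_of_ne hk]
          ext x y; simp [dot]
        · intro h; exact absurd (Finset.mem_univ _) h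
      have h2 := hΦ2 this
      rw [LinearMap.mem_ker] at h2
      rw [h2]; simp
    · intro q' hq'
      refine ⟨rfl, ?_⟩
      have : q' ∈ LinearMap.range Ψ := by
        refine ⟨(0, 0, ⟨q', hq'⟩), ?_⟩
        rw [hΨ]
        ext x y
        · simp
        · simp [dot, Finset.sum_apply]
      exact hΦ2 this

end Core

end MP8d
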