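import Pool.Agent.Lib.MP_8d185c_al.Core2

/-!
The assignments killing the ideal of the construction.
-/

namespace MP8d

section Setup

variable {L : Type*} [Field L] [Algebra ℚ L] (τ : L →ₗ[ℚ] ℚ) {ι : Type*}

/-- inclusion of rational vectors -/
def jj (L : Type*) [Field L] [Algebra ℚ L] (ι : Type*) : (ι → ℚ) →ₗ[ℚ] (ι → L) where
  toFun x := fun i => algebraMap ℚ L (x i)
  map_add' := by intro x y; funext i; exact map_add (algebraMap ℚ L) _ _
  map_smul' := by
    intro c x; funext i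
    change algebraMap ℚ L (c * x i) = c • algebraMap ℚ L (x i)
    rw [map_mul, Algebra.smul_def]

@[simp] theorem jj_apply (x : ι → ℚ) (i : ι) : jj L ι x i = algebraMap ℚ L (x i) := rfl

theorem tau_mul (l : L) (q : ℚ) : τ (l * algebraMap ℚ L q) = τ l * q := by
  rw [mul_comm, ← Algebra.smul_def, map_smul, smul_eq_mul, mul_comm]

theorem rat_of_tau (h1 : τ 1 = 1) {z : L} (hz : ∀ l, τ l = 0 → τ (l * z) = 0) :
    z = algebraMap ℚ L (τ z) := by
  by_contra hne
  have hne' : z - algebraMap ℚ L (τ z) ≠ 0 := sub_ne_zero.2 hne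
  have h2 : ∀ l, τ (l * z) = τ l * τ z := by
    intro l
    have h3 := hz (l - algebraMap ℚ L (τ l)) (by
      rw [map_sub]
      have : τ (algebraMap ℚ L (τ l)) = τ l := by
        have := tau_mul τ 1 (τ l)
        rwa [one_mul, h1, one_mul] at this
      rw [this, sub_self])
    rw [sub_mul, map_sub, mul_comm (algebraMap ℚ L (τ l)), tau_mul] at h3
    linarith
  have h4 : ∀ l, τ (l * (z - algebraMap ℚ L (τ z))) = 0 := by
    intro l
    rw [mul_sub, map_sub, h2, tau_mul, sub_self]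
  have h5 := h4 (z - algebraMap ℚ L (τ z))⁻¹
  rw [inv_mul_cancel₀ hne', h1] at h5
  exact one_ne_zero h5

/-- basic forms of degree two -/
def w2 (l : L) (k m : ι) : (ι → L) → (ι → L) → ℚ := fun x y => τ (l * (x k * y m - x m * y k))

/-- basic forms of degree three -/
def w3 (l : L) (i k m : ι) : (ι → L) → (ι → L) → ℚ :=
  fun x y => τ (l * (x i * (x k * y m - x m * y k)))

theorem w2_mem (l : L) (k m : ι) : w2 τ l k m ∈ P2 L (ι → L) := by
  refine ⟨⟨?_, ?_, ?_⟩, ?_⟩
  · intro x x' y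
    simp only [w2, Pi.add_apply]
    rw [← map_add]; congr 1; ring
  · intro c x y
    simp only [w2, Pi.smul_apply]
    have : l * ((c • x k) * y m - (c • x m) * y k) = c • (l * (x k * y m - x m * y k)) := by
      simp only [Algebra.smul_def]; ring
    rw [this, map_smul, smul_eq_mul]
  · intro x y
    simp only [w2]
    rw [← map_neg]; congr 1; ring
  · intro μ x y
    simp only [w2, Pi.smul_apply, smul_eq_mul]
    congr 1; ring

theorem w3_mem {J : Type*} [Fintype J] (b : Module.Basis J ℚ L) (l : L) (i k m : ι) :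
    w3 τ l i k m ∈ P3 L (ι → L) := by
  refine ⟨?_, ?_⟩
  · have : w3 τ l i k m = ∑ t, dot ((b.coord t).comp (LinearMap.proj i)) (w2 τ (l * b t) k m) := by
      ext x y
      simp only [w3, w2, dot, Finset.sum_apply, LinearMap.comp_apply, LinearMap.proj_apply]
      have hx : x i = ∑ t, algebraMap ℚ L (b.coord t (x i)) * b t := by
        conv_lhs => rw [← b.sum_repr (x i)]
        simp [Algebra.smul_def]
      conv_lhs => rw [hx]
      rw [Finset.sum_mul, Finset.mul_sum, map_sum]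
      apply Finset.sum_congr rfl
      intro t _
      have := tau_mul τ (l * b t * (x k * y m - x m * y k)) (b.coord t (x i))
      rw [mul_comm (b.coord t (x i)), ← this]
      congr 1; ring
    rw [this]
    exact Submodule.sum_mem _ fun t _ => dot_mem _ (w2_mem τ _ _ _).1
  · intro μ x
    simp only [w3, Pi.smul_apply, smul_eq_mul]
    have : l * (x i * (x k * (μ * x m) - x m * (μ * x k))) = 0 := by ring
    rw [this, map_zero]

theorem pb_w2 [Fintype ι] (l : L) (k m : ι) :
    pb (jj L ι) (w2 τ l k m) = τ l • wedge ((pc ι).coord k) ((pc ι).coord m) := by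
  ext x y
  simp only [pb, LinearMap.coe_mk, AddHom.coe_mk, w2, jj_apply, Pi.smul_apply, wedge, pc_coord,
    smul_eq_mul]
  rw [← map_mul, ← map_mul, ← map_sub, tau_mul]

theorem pb_w3 [Fintype ι] (l : L) (i k m : ι) :
    pb (jj L ι) (w3 τ l i k m) =
      τ l • dot ((pc ι).coord i) (wedge ((pc ι).coord k) ((pc ι).coord m)) := by
  ext x y
  simp only [pb, LinearMap.coe_mk, AddHom.coe_mk, w3, jj_apply, Pi.smul_apply, wedge, dot,
    pc_coord, smul_eq_mul]
  rw [← map_mul, ← map_mul, ← map_sub, ← map_mul, tau_mul]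

/-- lifting forms -/
theorem lift_exists [Fintype ι] {J : Type*} [Fintype J] (b : Module.Basis J ℚ L) (h1 : τ 1 = 1)
    {e : ((ι → ℚ) → (ι → ℚ) → ℚ) × ((ι → ℚ) → (ι → ℚ) → ℚ)} (he : e ∈ PP (ι → ℚ)) :
    ∃ e' : ((ι → L) → (ι → L) → ℚ) × ((ι → L) → (ι → L) → ℚ),
      e'.1 ∈ P2 L (ι → L) ∧ e'.2 ∈ P3 L (ι → L) ∧ pb2 (jj L ι) e' = e := by
  obtain ⟨he1, he2⟩ := he
  have hT : ∃ T ∈ P3 L (ι → L), pb (jj L ι) T = e.2 := by
    have : L3 (ι → ℚ) ≤ (P3 L (ι → L)).map (pb (jj L ι)) := by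
      rw [L3, Submodule.span_le]
      rintro T ⟨v, u, hu, rfl⟩
      rw [dot_expand (pc ι) v hu, Tb_eq]
      refine Submodule.sum_mem _ fun i _ => Submodule.sum_mem _ fun k _ =>
        Submodule.sum_mem _ fun l _ => Submodule.smul_mem _ _ ?_
      refine ⟨w3 τ 1 i k l, w3_mem τ b _ _ _ _, ?_⟩
      rw [pb_w3, h1, one_smul]
    exact this he2
  have hU : ∃ u ∈ P2 L (ι → L), pb (jj L ι) u = e.1 := by
    have : Alt2 (ι → ℚ) ≤ (P2 L (ι → L)).map (pb (jj L ι)) := by
      intro u hu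
      rw [alt_expand (pc ι) hu]
      refine Submodule.sum_mem _ fun i _ => Submodule.sum_mem _ fun k _ =>
        Submodule.smul_mem _ _ ?_
      refine ⟨w2 τ 1 i k, w2_mem τ _ _ _, ?_⟩
      rw [pb_w2, h1, one_smul]
    exact this he1
  obtain ⟨T, hT1, hT2⟩ := hT
  obtain ⟨u, hu1, hu2⟩ := hU
  exact ⟨(u, T), hu1, hT1, Prod.ext hu2 hT2⟩

/-- on `L`-dependent vectors everything vanishes -/
theorem dep_vanish {x y : ι → L} (h : ∀ k m, x k * y m - x m * y k = 0) :
    (∀ u ∈ P2 L (ι → L), u x y = 0) ∧ (∀ T ∈ P3 L (ι → L), T x y = 0) := by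
  by_cases hx : x = 0
  · subst hx
    refine ⟨fun u hu => Alt2.zero_left hu.1 y, fun T hT => ?_⟩
    have := (L3.facts hT.1).2.2.2 0 0 y
    simpa using this
  · have : ∃ k, x k ≠ 0 := by
      by_contra hcon
      push Not at hcon
      exact hx (funext hcon)
    obtain ⟨k, hk⟩ := this
    have hy : y = (y k / x k) • x := by
      funext m
      simp only [Pi.smul_apply, smul_eq_mul]
      field_simp
      have := h k m
      linear_combination this
    rw [hy]
    exact ⟨fun u hu => P2.self hu _ _, fun T hT => hT.2 _ _⟩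

/-- rational bivectors -/
theorem rat_bivector {x y : ι → L} (h : ∀ k m, ∃ q : ℚ, x k * y m - x m * y k = algebraMap ℚ L q) :
    ∃ c c' : ι → ℚ, ∀ u ∈ P2 L (ι → L), u x y = u (jj L ι c) (jj L ι c') := by
  by_cases h0 : ∀ k m, x k * y m - x m * y k = 0
  · refine ⟨0, 0, fun u hu => ?_⟩
    rw [(dep_vanish h0).1 u hu, map_zero, Alt2.zero_left hu.1]
  · push Not at h0
    obtain ⟨k, m, hkm⟩ := h0
    choose B hB using h
    set δ := x k * y m - x m * y k with hδ
    have hB0 : B k m ≠ 0 := by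
      intro h0
      apply hkm
      rw [hδ, hB, h0, map_zero]
    refine ⟨fun t => B k t, fun t => B m t / B k m, fun u hu => ?_⟩
    have e1 : jj L ι (fun t => B k t) = x k • y - y k • x := by
      funext t
      simp only [jj_apply, Pi.sub_apply, Pi.smul_apply, smul_eq_mul]
      rw [← hB]; ring
    have e2 : jj L ι (fun t => B m t / B k m) = (δ⁻¹ * x m) • y - (δ⁻¹ * y m) • x := by
      funext t
      simp only [jj_apply, Pi.sub_apply, Pi.smul_apply, smul_eq_mul]
      rw [map_div₀, ← hB, ← hB, ← hδ]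
      field_simp
    rw [e1, e2]
    have hadd : ∀ a b c : ι → L, u (a - b) c = u a c - u b c := by
      intro a b c
      have := Alt2.add_left hu.1 (a - b) b c
      rw [sub_add_cancel] at this
      linarith
    have hadd' : ∀ a b c : ι → L, u a (b - c) = u a b - u a c := by
      intro a b c
      have := Alt2.add_right hu.1 a (b - c) c
      rw [sub_add_cancel] at this
      linarith
    have hself : ∀ (l l' : L) (a : ι → L), u (l • a) (l' • a) = 0 := by
      intro l l' a
      rw [hu.2, smul_smul, P2.self hu]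
    rw [hadd, hadd', hadd', hself, hself]
    have e3 : u (x k • y) ((δ⁻¹ * y m) • x) = - u x ((x k * (δ⁻¹ * y m)) • y) := by
      rw [hu.2, Alt2.swap hu.1, smul_smul, hu.2]
    have e4 : u (y k • x) ((δ⁻¹ * x m) • y) = u x ((y k * (δ⁻¹ * x m)) • y) := by
      rw [hu.2, smul_smul]
    rw [e3, e4]
    have e5 : u x y = u x ((x k * (δ⁻¹ * y m)) • y) - u x ((y k * (δ⁻¹ * x m)) • y) := by
      rw [← hadd', ← sub_smul]
      have : x k * (δ⁻¹ * y m) - y k * (δ⁻¹ * x m) = 1 := by
        have : x k * (δ⁻¹ * y m) - y k * (δ⁻¹ * x m) = δ⁻¹ * δ := by rw [hδ]; ring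
        rw [this, inv_mul_cancel₀ hkm]
      rw [this, one_smul]
    rw [e5]; ring

theorem L3.zero_right {M : Type*} [AddCommGroup M] [Module ℚ M] {T : M → M → ℚ} (hT : T ∈ L3 M)
    (x : M) : T x 0 = 0 := by
  have := (L3.facts hT).2.1 0 x 0
  simpa using this

theorem L3.zero_left {M : Type*} [AddCommGroup M] [Module ℚ M] {T : M → M → ℚ} (hT : T ∈ L3 M)
    (x : M) : T 0 x = 0 := by
  have := (L3.facts hT).2.2.2 0 0 x
  simpa using this

theorem kill_lemma [Fintype ι] {J : Type*} [Fintype J] (b : Module.Basis J ℚ L) (h1 : τ 1 = 1)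
    (N : Submodule ℚ (((ι → ℚ) → (ι → ℚ) → ℚ) × ((ι → ℚ) → (ι → ℚ) → ℚ)))
    (hN : N ≤ PP (ι → ℚ))
    {e : ((ι → ℚ) → (ι → ℚ) → ℚ) × ((ι → ℚ) → (ι → ℚ) → ℚ)} (he : e ∈ PP (ι → ℚ))
    (hbad : ∀ α β q : ι → ℚ, N ≤ kills α β q → e ∈ kills α β q)
    {e' : ((ι → L) → (ι → L) → ℚ) × ((ι → L) → (ι → L) → ℚ)}
    (he2 : e'.1 ∈ P2 L (ι → L)) (he3 : e'.2 ∈ P3 L (ι → L)) (hee : pb2 (jj L ι) e' = e)
    {α β q : ι → L} (hk : QQ L (jj L ι) N ≤ kills α β q) : e' ∈ kills α β q := by
  -- elements of the ideal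
  have hQ2 : ∀ l, τ l = 0 → ∀ k m, (w2 τ l k m, 0) ∈ QQ L (jj L ι) N := by
    intro l hl k m
    rw [mem_QQ]
    refine ⟨⟨w2_mem τ l k m, Submodule.zero_mem _⟩, ?_⟩
    have : pb2 (jj L ι) (w2 τ l k m, 0) = 0 := by
      simp only [pb2, LinearMap.prodMap_apply, pb_w2, hl, zero_smul, map_zero]
      rfl
    rw [this]; exact Submodule.zero_mem _
  have hQ3 : ∀ l, τ l = 0 → ∀ i k m, (0, w3 τ l i k m) ∈ QQ L (jj L ι) N := by
    intro l hl i k m
    rw [mem_QQ]
    refine ⟨⟨Submodule.zero_mem _, w3_mem τ b l i k m⟩, ?_⟩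
    have : pb2 (jj L ι) (0, w3 τ l i k m) = 0 := by
      simp only [pb2, LinearMap.prodMap_apply, pb_w3, hl, zero_smul, map_zero]
      rfl
    rw [this]; exact Submodule.zero_mem _
  have hlift : ∀ n ∈ N, ∃ n' ∈ QQ L (jj L ι) N, pb2 (jj L ι) n' = n := by
    intro n hn
    obtain ⟨n', a1, a2, a3⟩ := lift_exists τ b h1 (hN hn)
    exact ⟨n', mem_QQ.2 ⟨⟨a1, a2⟩, by rw [a3]; exact hn⟩, a3⟩
  have rab : ∀ k m, ∃ r : ℚ, α k * β m - α m * β k = algebraMap ℚ L r := fun k m =>
    ⟨_, rat_of_tau τ h1 (fun l hl => (hk (hQ2 l hl k m)).1)⟩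
  have raq : ∀ k m, ∃ r : ℚ, α k * q m - α m * q k = algebraMap ℚ L r := fun k m =>
    ⟨_, rat_of_tau τ h1 (fun l hl => by
      have := (hk (hQ2 l hl k m)).2.1
      simpa [w2] using this)⟩
  have rbq : ∀ k m, ∃ r : ℚ, β k * q m - β m * q k = algebraMap ℚ L r := fun k m =>
    ⟨_, rat_of_tau τ h1 (fun l hl => by
      have := (hk (hQ2 l hl k m)).2.2
      simpa [w2] using this)⟩
  by_cases h0 : ∀ k m, α k * β m - α m * β k = 0
  · -- dependent case
    have h0' : ∀ k m, β k * α m - β m * α k = 0 := fun k m => by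
      have := h0 m k
      linear_combination this
    obtain ⟨d1, d2⟩ := dep_vanish h0
    obtain ⟨d3, d4⟩ := dep_vanish h0'
    have hred : ∀ γ : ι → L, (∀ k m, ∃ r : ℚ, γ k * q m - γ m * q k = algebraMap ℚ L r) →
        (∀ n' ∈ QQ L (jj L ι) N, n'.1 γ q = 0) → e'.1 γ q = 0 := by
      intro γ hγ hn
      obtain ⟨c, c', hc⟩ := rat_bivector hγ
      have hN' : N ≤ kills c 0 c' := by
        intro n hnN
        obtain ⟨n', hn'Q, hn'⟩ := hlift n hnN
        have h2 := hn n' hn'Q
        rw [hc _ (mem_QQ.1 hn'Q).1.1] at h2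
        have h3 : n.1 c c' = 0 := by rw [← hn']; exact h2
        obtain ⟨a1, a2⟩ := hN hnN
        refine ⟨Alt2.zero_right a1 _, ?_, ?_⟩
        · rw [h3, L3.zero_right a2, add_zero]
        · rw [Alt2.zero_left a1, L3.zero_left a2, sub_zero]
      have h4 := (hbad c 0 c' hN').2.1
      rw [L3.zero_right he.2, add_zero] at h4
      rw [hc _ he2]
      rw [← hee] at h4
      exact h4
    have ha := hred α raq (fun n' hn' => by
      have h2 := (hk hn').2.1
      rw [d2 _ (mem_QQ.1 hn').1.2, add_zero] at h2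
      exact h2)
    have hb := hred β rbq (fun n' hn' => by
      have h2 := (hk hn').2.2
      rw [d4 _ (mem_QQ.1 hn').1.2, sub_zero] at h2
      exact h2)
    refine ⟨d1 _ he2, ?_, ?_⟩
    · rw [ha, d2 _ he3, add_zero]
    · rw [hb, d4 _ he3, sub_zero]
  · -- independent case: everything is rational
    push Not at h0
    obtain ⟨k, m, hkm⟩ := h0
    obtain ⟨r, hr⟩ := rab k m
    have hr0 : algebraMap ℚ L r ≠ 0 := by rw [← hr]; exact hkm
    have hα : ∀ i, ∃ a : ℚ, α i = algebraMap ℚ L a := by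
      intro i
      have h2 := rat_of_tau τ h1 (z := α i * (α k * β m - α m * β k)) (fun l hl => by
        have := (hk (hQ3 l hl i k m)).2.1
        simpa [w3] using this)
      refine ⟨τ (α i * (α k * β m - α m * β k)) / r, ?_⟩
      rw [map_div₀, ← h2, hr, mul_div_assoc, div_self hr0, mul_one]
    have hβ : ∀ i, ∃ a : ℚ, β i = algebraMap ℚ L a := by
      intro i
      have h2 := rat_of_tau τ h1 (z := β i * (β k * α m - β m * α k)) (fun l hl => by
        have := (hk (hQ3 l hl i k m)).2.2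
        simpa [w3] using this)
      have hr' : β k * α m - β m * α k = - algebraMap ℚ L r := by rw [← hr]; ring
      refine ⟨- τ (β i * (β k * α m - β m * α k)) / r, ?_⟩
      rw [map_div₀, map_neg, ← h2, hr']
      field_simp
    choose α' hα' using hα
    choose β' hβ' using hβ
    have hq : ∀ i, ∃ a : ℚ, q i = algebraMap ℚ L a := by
      intro i
      obtain ⟨r1, hr1⟩ := raq k i
      obtain ⟨r2, hr2⟩ := raq m i
      obtain ⟨r3, hr3⟩ := rbq k m
      refine ⟨(β' m * r1 - β' k * r2 - α' i * r3) / r, ?_⟩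
      rw [map_div₀, map_sub, map_sub, map_mul, map_mul, map_mul, ← hβ', ← hβ', ← hα', ← hr1, ← hr2,
        ← hr3, ← hr]
      rw [eq_div_iff hkm]
      ring
    choose q' hq' using hq
    have ea : α = jj L ι α' := funext hα'
    have eb : β = jj L ι β' := funext hβ'
    have eq : q = jj L ι q' := funext hq'
    have hN' : N ≤ kills α' β' q' := by
      intro n hnN
      obtain ⟨n', hn'Q, hn'⟩ := hlift n hnN
      have h2 := hk hn'Q
      rw [ea, eb, eq] at h2
      rw [← hn']
      exact h2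
    have h4 := hbad α' β' q' hN'
    rw [← hee] at h4
    rw [ea, eb, eq]
    exact h4

end Setup

end MP8d
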