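import Mathlib

/-!
The group `DD`: the Malcev completion of the free class-3 nilpotent group of rank 2,
in exponential coordinates.
-/

namespace MP8d

/-- Exponential coordinates `(a,b; q; s,t)`. -/
@[ext] structure DD where
  a : ℚ
  b : ℚ
  q : ℚ
  s : ℚ
  t : ℚ

namespace DD

instance : Mul DD where
  mul g h :=
    { a := g.a + h.a
      b := g.b + h.b
      q := g.q + h.q + (g.a * h.b - h.a * g.b) / 2
      s := g.s + h.s + (h.q * g.a - g.q * h.a) / 2
        + (g.a * h.b - h.a * g.b) * (g.a - h.a) / 12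
      t := g.t + h.t + (h.q * g.b - g.q * h.b) / 2
        + (g.a * h.b - h.a * g.b) * (g.b - h.b) / 12 }

instance : One DD where
  one := ⟨0, 0, 0, 0, 0⟩

instance : Inv DD where
  inv g := ⟨-g.a, -g.b, -g.q, -g.s, -g.t⟩

@[simp] theorem mul_a (g h : DD) : (g * h).a = g.a + h.a := rfl
@[simp] theorem mul_b (g h : DD) : (g * h).b = g.b + h.b := rfl
@[simp] theorem mul_q (g h : DD) :
    (g * h).q = g.q + h.q + (g.a * h.b - h.a * g.b) / 2 := rfl
@[simp] theorem mul_s (g h : DD) :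
    (g * h).s = g.s + h.s + (h.q * g.a - g.q * h.a) / 2
        + (g.a * h.b - h.a * g.b) * (g.a - h.a) / 12 := rfl
@[simp] theorem mul_t (g h : DD) :
    (g * h).t = g.t + h.t + (h.q * g.b - g.q * h.b) / 2
        + (g.a * h.b - h.a * g.b) * (g.b - h.b) / 12 := rfl
@[simp] theorem one_a : (1 : DD).a = 0 := rfl
@[simp] theorem one_b : (1 : DD).b = 0 := rfl
@[simp] theorem one_q : (1 : DD).q = 0 := rfl
@[simp] theorem one_s : (1 : DD).s = 0 := rfl
@[simp] theorem one_t : (1 : DD).t = 0 := rfl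
@[simp] theorem inv_a (g : DD) : (g⁻¹).a = -g.a := rfl
@[simp] theorem inv_b (g : DD) : (g⁻¹).b = -g.b := rfl
@[simp] theorem inv_q (g : DD) : (g⁻¹).q = -g.q := rfl
@[simp] theorem inv_s (g : DD) : (g⁻¹).s = -g.s := rfl
@[simp] theorem inv_t (g : DD) : (g⁻¹).t = -g.t := rfl

instance : Group DD :=
  Group.ofLeftAxioms
    (by intro x y z; ext <;> simp <;> ring)
    (by intro x; ext <;> simp)
    (by intro x; ext <;> simp)

open scoped commutatorElement

@[simp] theorem comm_a (g h : DD) : ⁅g, h⁆.a = 0 := by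
  simp [commutatorElement_def]
@[simp] theorem comm_b (g h : DD) : ⁅g, h⁆.b = 0 := by
  simp [commutatorElement_def]
@[simp] theorem comm_q (g h : DD) : ⁅g, h⁆.q = g.a * h.b - h.a * g.b := by
  simp [commutatorElement_def]; ring
@[simp] theorem comm_s (g h : DD) :
    ⁅g, h⁆.s = h.q * g.a - g.q * h.a + (g.a * h.b - h.a * g.b) * (g.a + h.a) / 2 := by
  simp [commutatorElement_def]; ring
@[simp] theorem comm_t (g h : DD) :
    ⁅g, h⁆.t = h.q * g.b - g.q * h.b + (g.a * h.b - h.a * g.b) * (g.b + h.b) / 2 := by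
  simp [commutatorElement_def]; ring

theorem pow_coords (g : DD) (n : ℕ) :
    (g ^ n).a = n * g.a ∧ (g ^ n).b = n * g.b ∧ (g ^ n).q = n * g.q ∧
      (g ^ n).s = n * g.s ∧ (g ^ n).t = n * g.t := by
  induction n with
  | zero => simp
  | succ n ih =>
    obtain ⟨h1, h2, h3, h4, h5⟩ := ih
    rw [pow_succ]
    refine ⟨?_, ?_, ?_, ?_, ?_⟩ <;> simp [h1, h2, h3, h4, h5] <;> ring

end DD

/-- torsion-free, class at most three. -/
def TF (H : Type*) [Group H] : Prop := ∀ (g : H) (n : ℕ), 0 < n → g ^ n = 1 → g = 1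

open scoped commutatorElement in
def Cl3 (H : Type*) [Group H] : Prop := ∀ a b c d : H, ⁅⁅⁅a, b⁆, c⁆, d⁆ = 1

theorem DD.tf : TF DD := by
  intro g n hn h
  obtain ⟨h1, h2, h3, h4, h5⟩ := DD.pow_coords g n
  rw [h] at h1 h2 h3 h4 h5
  have hn' : (n : ℚ) ≠ 0 := by positivity
  simp [hn'] at h1 h2 h3 h4 h5
  ext <;> simp [h1, h2, h3, h4, h5]

theorem DD.cl3 : Cl3 DD := by
  intro a b c d
  ext <;> simp

theorem DD.comm_iff (g h : DD) : g * h = h * g ↔
    (g.a * h.b - h.a * g.b = 0 ∧ h.q * g.a - g.q * h.a = 0 ∧ h.q * g.b - g.q * h.b = 0) := by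
  rw [← commutatorElement_eq_one_iff_mul_comm]
  constructor
  · intro H
    have h1 := congrArg DD.q H
    have h2 := congrArg DD.s H
    have h3 := congrArg DD.t H
    simp at h1 h2 h3
    rw [h1] at h2 h3
    simp at h2 h3
    exact ⟨h1, h2, h3⟩
  · rintro ⟨h1, h2, h3⟩
    ext <;> simp [h1, h2, h3]

/-- Centralizer lemma. -/
theorem DD.cent {x g h : DD} (hgh : g * h ≠ h * g) (hg : x * g = g * x) (hh : x * h = h * x) :
    x.a = 0 ∧ x.b = 0 ∧ x.q = 0 := by
  rw [DD.comm_iff] at hg hh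
  rw [Ne, DD.comm_iff] at hgh
  obtain ⟨g1, g2, g3⟩ := hg
  obtain ⟨h1, h2, h3⟩ := hh
  refine ⟨?_, ?_, ?_⟩
  · by_contra hx
    apply hgh
    have e2 : h.q * g.a - g.q * h.a = 0 := by
      apply mul_left_cancel₀ hx
      linear_combination g.a * h2 - h.a * g2
    refine ⟨?_, e2, ?_⟩ <;> apply mul_left_cancel₀ hx
    · linear_combination g.a * h1 - h.a * g1
    · linear_combination h.q * g1 - g.q * h1 + x.b * e2
  · by_contra hx
    apply hgh
    have e3 : h.q * g.b - g.q * h.b = 0 := by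
      apply mul_left_cancel₀ hx
      linear_combination g.b * h3 - h.b * g3
    refine ⟨?_, ?_, e3⟩ <;> apply mul_left_cancel₀ hx
    · linear_combination g.b * h1 - h.b * g1
    · linear_combination x.a * e3 - h.q * g1 + g.q * h1
  · by_contra hx
    apply hgh
    have e3 : h.q * g.b - g.q * h.b = 0 := by
      apply mul_left_cancel₀ hx
      linear_combination g.q * h3 - h.q * g3
    refine ⟨?_, ?_, e3⟩ <;> apply mul_left_cancel₀ hx
    · linear_combination - x.a * e3 - h.b * g2 + g.b * h2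
    · linear_combination g.q * h2 - h.q * g2

end MP8d
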