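import Pool.Agent.Lib.MP_8d185c_al.Construct

/-!
The quasivariety of a free nilpotent group of class three, compactness, conclusion.
-/

namespace MP8d

open scoped commutatorElement
open Subgroup

universe u v

section Dilation

/-- dilation of `DD` -/
def dil (N : ℕ) : DD →* DD :=
  MonoidHom.mk' (fun g => ⟨N * g.a, N * g.b, N ^ 2 * g.q, N ^ 3 * g.s, N ^ 3 * g.t⟩) (by
    intro g h
    ext <;> simp <;> ring)

theorem dil_inj {N : ℕ} (hN : 0 < N) {g : DD} (hg : dil N g = 1) : g = 1 := by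
  have hN' : (N : ℚ) ≠ 0 := by positivity
  have h1 := congrArg DD.a hg
  have h2 := congrArg DD.b hg
  have h3 := congrArg DD.q hg
  have h4 := congrArg DD.s hg
  have h5 := congrArg DD.t hg
  simp [dil, hN'] at h1 h2 h3 h4 h5
  ext <;> simp [h1, h2, h3, h4, h5]

/-- the two generators -/
def gX : DD := ⟨1, 0, 0, 0, 0⟩
def gY : DD := ⟨0, 1, 0, 0, 0⟩

theorem zpow_coords (g : DD) (n : ℤ) :
    (g ^ n).a = n * g.a ∧ (g ^ n).b = n * g.b ∧ (g ^ n).q = n * g.q ∧
      (g ^ n).s = n * g.s ∧ (g ^ n).t = n * g.t := by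
  rcases Int.eq_nat_or_neg n with ⟨m, rfl | rfl⟩
  · obtain ⟨h1, h2, h3, h4, h5⟩ := DD.pow_coords g m
    simp [h1, h2, h3, h4, h5]
  · obtain ⟨h1, h2, h3, h4, h5⟩ := DD.pow_coords g m
    simp [h1, h2, h3, h4, h5]

/-- the subgroup generated by the generators contains a lattice -/
theorem mem_gen (p r k m n : ℤ) :
    (⟨p, r, p * r / 2 + 2 * k, p ^ 2 * r / 12 + m + k * p, - p * r ^ 2 / 12 + n + k * r⟩ : DD) ∈
      closure ({gX, gY} : Set DD) := by
  have hX : gX ∈ closure ({gX, gY} : Set DD) := subset_closure (by simp)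
  have hY : gY ∈ closure ({gX, gY} : Set DD) := subset_closure (by simp)
  have hcomm : ∀ {x y : DD}, x ∈ closure ({gX, gY} : Set DD) → y ∈ closure ({gX, gY} : Set DD) →
      ⁅x, y⁆ ∈ closure ({gX, gY} : Set DD) := by
    intro x y hx hy
    rw [commutatorElement_def]
    exact mul_mem (mul_mem (mul_mem hx hy) (inv_mem hx)) (inv_mem hy)
  have hZ := hcomm hX hY
  have hXZ := hcomm hX hZ
  have hYZ := hcomm hY hZ
  have h1 := mul_mem (mul_mem (mul_mem (mul_mem (zpow_mem hX p) (zpow_mem hY r))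
    (zpow_mem hZ (2 * k))) (zpow_mem hXZ (m - k))) (zpow_mem hYZ (n - k))
  convert h1 using 1
  obtain ⟨x1, x2, x3, x4, x5⟩ := zpow_coords gX p
  obtain ⟨y1, y2, y3, y4, y5⟩ := zpow_coords gY r
  obtain ⟨z1, z2, z3, z4, z5⟩ := zpow_coords ⁅gX, gY⁆ (2 * k)
  obtain ⟨s1, s2, s3, s4, s5⟩ := zpow_coords ⁅gX, ⁅gX, gY⁆⁆ (m - k)
  obtain ⟨t1, t2, t3, t4, t5⟩ := zpow_coords ⁅gY, ⁅gX, gY⁆⁆ (n - k)
  ext
  · simp only [DD.mul_a, x1, y1, z1, s1, t1]; simp [gX, gY]
  · simp only [DD.mul_b, x2, y2, z2, s2, t2]; simp [gX, gY]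
  · simp only [DD.mul_q, DD.mul_a, DD.mul_b, x1, y1, z1, s1, t1, x2, y2, z2, s2, t2,
      x3, y3, z3, s3, t3]
    simp [gX, gY]
  · simp only [DD.mul_q, DD.mul_a, DD.mul_b, DD.mul_s, x1, y1, z1, s1, t1, x2, y2, z2, s2, t2,
      x3, y3, z3, s3, t3, x4, y4, z4, s4, t4]
    simp [gX, gY]; ring
  · simp only [DD.mul_q, DD.mul_a, DD.mul_b, DD.mul_t, x1, y1, z1, s1, t1, x2, y2, z2, s2, t2,
      x3, y3, z3, s3, t3, x5, y5, z5, s5, t5]
    simp [gX, gY]; ring

theorem dil_mem (d : DD) : ∃ D : ℕ, 0 < D ∧ ∀ N : ℕ, D ∣ N → dil N d ∈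
    closure ({gX, gY} : Set DD) := by
  obtain ⟨D, hD, z, hz⟩ := int_scale (fun i : Fin 5 => (![d.a, d.b, d.q, d.s, d.t] : Fin 5 → ℚ) i)
  have h0 := hz 0
  have h1 := hz 1
  have h2 := hz 2
  have h3 := hz 3
  have h4 := hz 4
  simp at h0 h1 h2 h3 h4
  refine ⟨12 * D, by positivity, ?_⟩
  rintro N ⟨k, rfl⟩
  -- integers: p = 12 k z0, r = 12 k z1
  have h := mem_gen (12 * k * z 0) (12 * k * z 1)
    (72 * k ^ 2 * D * z 2 - 36 * k ^ 2 * z 0 * z 1)
    ((12 * k) ^ 3 * D ^ 2 * z 3 - 144 * k ^ 3 * z 0 ^ 2 * z 1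
      - (72 * k ^ 2 * D * z 2 - 36 * k ^ 2 * z 0 * z 1) * (12 * k * z 0))
    ((12 * k) ^ 3 * D ^ 2 * z 4 + 144 * k ^ 3 * z 0 * z 1 ^ 2
      - (72 * k ^ 2 * D * z 2 - 36 * k ^ 2 * z 0 * z 1) * (12 * k * z 1))
  convert h using 1
  ext
  · simp [dil]; rw [h0]; ring
  · simp [dil]; rw [h1]; ring
  · simp [dil]; rw [h0, h1, h2]; ring
  · simp [dil]; rw [h0, h1, h2, h3]; ring
  · simp [dil]; rw [h0, h1, h2, h4]; ring

end Dilation

section TwoGen

/-- first and second unit vectors -/
def u0 : Fin 2 → ℚ := ![1, 0]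
def u1 : Fin 2 → ℚ := ![0, 1]

theorem pc0 : pc (Fin 2) 0 = u0 := by
  ext i; fin_cases i <;> simp [pc, u0]
theorem pc1 : pc (Fin 2) 1 = u1 := by
  ext i; fin_cases i <;> simp [pc, u1]

theorem L3_two {T : (Fin 2 → ℚ) → (Fin 2 → ℚ) → ℚ} (hT : T ∈ L3 (Fin 2 → ℚ)) (x y : Fin 2 → ℚ) :
    T x y = (x 0 * y 1 - x 1 * y 0) * (x 0 * T u0 u1 - x 1 * T u1 u0) := by
  induction hT using Submodule.span_induction with
  | mem T hT =>
    obtain ⟨v, u, hu, rfl⟩ := hT
    have h1 : v x = v u0 * x 0 + v u1 * x 1 := by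
      conv_lhs => rw [← (pc (Fin 2)).sum_repr x, map_sum]
      simp [pc0, pc1, mul_comm]
    have h2 : u x y = (x 0 * y 1 - x 1 * y 0) * u u0 u1 := by
      have := congrFun (congrFun (alt_expand (pc (Fin 2)) hu) x) y
      rw [this]
      simp only [Fin.sum_univ_two, pc0, pc1, Pi.add_apply, Pi.smul_apply, wedge, pc_coord,
        smul_eq_mul, Alt2.self hu, Alt2.swap hu u1 u0]
      ring
    simp only [dot]
    rw [h1, h2, Alt2.swap hu u1 u0]
    ring
  | zero => simp
  | add T T' _ _ h h' =>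
    simp only [Pi.add_apply]
    rw [h, h']; ring
  | smul a T _ h =>
    simp only [Pi.smul_apply, smul_eq_mul]
    rw [h]; ring

/-- words killed at the two generators are killed in every group of class three -/
theorem res2 {f : FreeGroup (Fin 2)} (hf : FreeGroup.lift ![gX, gY] f = 1)
    {H : Type*} [Group H] (hc : Cl3 H) (h : Fin 2 → H) : FreeGroup.lift h f = 1 := by
  have hev : ev (pc (Fin 2)).coord u0 u1 f = 1 := by
    rw [← hf]
    have : ev (pc (Fin 2)).coord u0 u1 = FreeGroup.lift ![gX, gY] := by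
      apply FreeGroup.ext_hom
      intro i
      fin_cases i
      · simp only [ev, FreeGroup.lift_apply_of, pc_coord]; simp [u0, u1, gX]
      · simp only [ev, FreeGroup.lift_apply_of, pc_coord]; simp [u0, u1, gY]
    rw [this]
  rw [ev_eq] at hev
  have e1 := congrArg DD.a hev
  have e2 := congrArg DD.b hev
  have e3 := congrArg DD.q hev
  have e4 := congrArg DD.s hev
  have e5 := congrArg DD.t hev
  simp only [DD.one_a, DD.one_b, DD.one_q, DD.one_s, DD.one_t, neg_eq_zero] at e1 e2 e3 e4 e5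
  apply res' (pc (Fin 2)) h hc
  · rw [dual_expand (pc (Fin 2)) (V (pc (Fin 2)).coord f)]
    simp only [Fin.sum_univ_two, pc0, pc1, e1, e2, zero_smul, add_zero]
  · ext x y
    · have hu := U_mem (pc (Fin 2)).coord f
      change U (pc (Fin 2)).coord f x y = 0
      have := congrFun (congrFun (alt_expand (pc (Fin 2)) hu) x) y
      rw [this]
      simp only [Fin.sum_univ_two, pc0, pc1, Pi.add_apply, Pi.smul_apply, wedge, pc_coord,
        smul_eq_mul, Alt2.self hu, Alt2.swap hu u1 u0, e3]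
      ring
    · change S (pc (Fin 2)).coord f x y = 0
      rw [L3_two (S_mem _ f), e4, e5]
      ring

end TwoGen

section Theory

variable {α : Type u}

/-- the free nilpotent group of class three on `α` -/
abbrev N3 (α : Type u) : Type u := FreeGroup α ⧸ (⊤ : Subgroup (FreeGroup α)).lowerCentralSeries 3

theorem holds_N3_of_DD {τ : QuasiIdentity} (hD : τ.Holds DD) : τ.Holds (N3 α) := by
  classical
  intro a ha
  choose f hf using fun k => QuotientGroup.mk'_surjective
    ((⊤ : Subgroup (FreeGroup α)).lowerCentralSeries 3) (a k)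
  set π := QuotientGroup.mk' ((⊤ : Subgroup (FreeGroup α)).lowerCentralSeries 3) with hπ
  have key : ∀ e, FreeGroup.lift a e = π (FreeGroup.lift f e) := by
    intro e
    have : FreeGroup.lift a = π.comp (FreeGroup.lift f) := by
      apply FreeGroup.ext_hom; intro k
      rw [MonoidHom.comp_apply, FreeGroup.lift_apply_of, FreeGroup.lift_apply_of]
      exact (hf k).symm
    rw [this]; rfl
  by_contra hcon
  rw [key, key, ← mul_inv_eq_one, ← map_inv, ← map_mul, ← map_inv, ← map_mul] at hcon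
  set w := τ.conclusion.1 * τ.conclusion.2⁻¹ with hw
  let ξ : α → Module.Dual ℚ (α → ℚ) := fun i => LinearMap.proj i
  have hex : ∃ x y : α → ℚ, ev ξ x y (FreeGroup.lift f w) ≠ 1 := by
    by_contra hall
    push Not at hall
    apply hcon
    have hlift : FreeGroup.lift (fun i => π (FreeGroup.of i)) = π := by
      apply FreeGroup.ext_hom; intro i
      exact FreeGroup.lift_apply_of
    rw [← hlift]
    let _ : LinearOrder α := linearOrderOfSTO WellOrderingRel
    apply res ξ (ε := fun j => Pi.single j 1) _ (cl3_quot (FreeGroup α))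
    · ext x
      rw [← ev_a _ _ _ x, hall]; rfl
    · exact EE_of_ev _ hall
    · intro i j
      simp only [ξ, LinearMap.proj_apply, Pi.single_apply]
  obtain ⟨x, y, hxy⟩ := hex
  apply hxy
  have key2 : ∀ e, FreeGroup.lift (fun k => ev ξ x y (f k)) e = ev ξ x y (FreeGroup.lift f e) := by
    intro e
    have : FreeGroup.lift (fun k => ev ξ x y (f k)) = (ev ξ x y).comp (FreeGroup.lift f) := by
      apply FreeGroup.ext_hom; intro k; simp
    rw [this]; rfl
  rw [← key2, hw, map_mul, map_inv, mul_inv_eq_one]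
  apply hD
  intro e he
  rw [← mul_inv_eq_one, ← map_inv, ← map_mul, key2]
  apply DD.cl3.kill
  have h1 := ha e he
  rw [← mul_inv_eq_one, ← map_inv, ← map_mul, key, ← MonoidHom.mem_ker, hπ,
    QuotientGroup.ker_mk'] at h1
  exact h1

theorem holds_DD_of_N3 [Nontrivial α] {τ : QuasiIdentity} (hG : τ.Holds (N3 α)) : τ.Holds DD := by
  classical
  intro s hs
  obtain ⟨a, b, hab⟩ := exists_pair_ne α
  choose D hD0 hD using fun k => dil_mem (s k)
  let N := ∏ k, D k
  have hN : 0 < N := Finset.prod_pos fun k _ => hD0 k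
  have hmem : ∀ k, dil N (s k) ∈ closure ({gX, gY} : Set DD) := fun k =>
    hD k N (Finset.dvd_prod_of_mem D (Finset.mem_univ k))
  have hclos : closure ({gX, gY} : Set DD) = (FreeGroup.lift ![gX, gY]).range := by
    rw [FreeGroup.range_lift_eq_closure]
    congr 1
    ext z
    simp only [Set.mem_insert_iff, Set.mem_singleton_iff, Set.mem_range, Fin.exists_fin_two,
      Matrix.cons_val_zero, Matrix.cons_val_one]
    rw [eq_comm, eq_comm (a := z)]
  rw [hclos] at hmem
  choose F hF using hmem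
  set π := QuotientGroup.mk' ((⊤ : Subgroup (FreeGroup α)).lowerCentralSeries 3) with hπ
  let g : Fin 2 → N3 α := ![π (FreeGroup.of a), π (FreeGroup.of b)]
  have key : ∀ e, FreeGroup.lift ![gX, gY] (FreeGroup.lift F e) = dil N (FreeGroup.lift s e) := by
    intro e
    have : (FreeGroup.lift ![gX, gY]).comp (FreeGroup.lift F) = (dil N).comp (FreeGroup.lift s) := by
      apply FreeGroup.ext_hom; intro k; simp [hF]
    exact congrArg (fun φ => φ e) this
  have key2 : ∀ e, FreeGroup.lift (fun k => FreeGroup.lift g (F k)) e =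
      FreeGroup.lift g (FreeGroup.lift F e) := by
    intro e
    have : FreeGroup.lift (fun k => FreeGroup.lift g (F k)) =
        (FreeGroup.lift g).comp (FreeGroup.lift F) := by
      apply FreeGroup.ext_hom; intro k; simp
    rw [this]; rfl
  have h1 := hG (fun k => FreeGroup.lift g (F k)) (by
    intro e he
    rw [← mul_inv_eq_one, ← map_inv, ← map_mul, key2]
    apply res2 _ (cl3_quot (FreeGroup α))
    rw [key, map_mul, map_inv, hs e he, mul_inv_cancel, map_one])
  rw [← mul_inv_eq_one, ← map_inv, ← map_mul, key2] at h1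
  rw [← mul_inv_eq_one, ← map_inv, ← map_mul]
  apply dil_inj hN
  rw [← key]
  -- the homomorphism from the free nilpotent group to `DD`
  let φ0 : FreeGroup α →* DD := FreeGroup.lift (fun i => if i = a then gX else if i = b then gY else 1)
  let φ : N3 α →* DD := QuotientGroup.lift _ φ0 (by
    intro z hz
    exact DD.cl3.kill φ0 hz)
  have hφ : φ.comp (FreeGroup.lift g) = FreeGroup.lift ![gX, gY] := by
    apply FreeGroup.ext_hom
    intro i
    have e1 : ∀ z, φ (π z) = φ0 z := fun z => rfl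
    rw [MonoidHom.comp_apply, FreeGroup.lift_apply_of, FreeGroup.lift_apply_of]
    fin_cases i
    · change φ (π (FreeGroup.of a)) = gX
      rw [e1]; simp [φ0]
    · change φ (π (FreeGroup.of b)) = gY
      rw [e1]; simp [φ0, hab.symm]
  rw [← hφ, MonoidHom.comp_apply, h1, map_one]

end Theory

section Compact

/-- the quasiidentity expressing class at most three -/
noncomputable def clQ : QuasiIdentity := mkQ (κ := Fin 4) []
  ⁅⁅⁅FreeGroup.of (0 : Fin 4), FreeGroup.of (1 : Fin 4)⁆, FreeGroup.of (2 : Fin 4)⁆,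
    FreeGroup.of (3 : Fin 4)⁆

theorem clQ_holds (Y : Type v) [Group Y] : clQ.Holds Y ↔ Cl3 Y := by
  unfold clQ
  rw [mkQ_holds]
  constructor
  · intro h a b c d
    have := h ![a, b, c, d] (by simp)
    simpa [map_commutatorElement] using this
  · intro h s _
    simp only [map_commutatorElement, FreeGroup.lift_apply_of]
    exact h _ _ _ _

/-- eventual triviality, a normal subgroup of a product indexed by finite sets. -/
def evK {β : Type} [DecidableEq β] (H : Finset β → Type v) [∀ S, Group (H S)] :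
    Subgroup (∀ S, H S) where
  carrier := {g | ∃ S, ∀ T, S ⊆ T → g T = 1}
  one_mem' := ⟨∅, fun _ _ => rfl⟩
  mul_mem' := by
    rintro g h ⟨S, hS⟩ ⟨S', hS'⟩
    refine ⟨S ∪ S', fun T hT => ?_⟩
    rw [Pi.mul_apply, hS T (Finset.union_subset_left hT), hS' T (Finset.union_subset_right hT),
      one_mul]
  inv_mem' := by
    rintro g ⟨S, hS⟩
    exact ⟨S, fun T hT => by rw [Pi.inv_apply, hS T hT, inv_one]⟩

theorem mem_evK {β : Type} [DecidableEq β] (H : Finset β → Type v) [∀ S, Group (H S)]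
    {g : ∀ S, H S} : g ∈ evK H ↔ ∃ S, ∀ T, S ⊆ T → g T = 1 := Iff.rfl

instance evK_normal {β : Type} [DecidableEq β] (H : Finset β → Type v) [∀ S, Group (H S)] :
    (evK H).Normal := by
  constructor
  rintro g ⟨S, hS⟩ x
  exact ⟨S, fun T hT => by simp [hS T hT]⟩

theorem compactness {G : Type u} [Group G] (hG : Cl3 G) {B : Set QuasiIdentity}
    (hB : IsBasis.{u, v} B G) :
    ∃ S : Set QuasiIdentity, S.Finite ∧ S ⊆ B ∧ ∀ (H : Type v) [Group H], TorsionFree H →
      (∀ σ ∈ S, σ.Holds H) → Cl3 H := by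
  classical
  by_contra hcon
  push Not at hcon
  have hch : ∀ S : Finset B, ∃ (H : Type v) (_ : Group H), TorsionFree H ∧
      (∀ σ ∈ S, (σ : QuasiIdentity).Holds H) ∧ ¬ Cl3 H := by
    intro S
    obtain ⟨H, gH, h1, h2, h3⟩ := hcon (Subtype.val '' (S : Set B)) (S.finite_toSet.image _)
      (by rintro _ ⟨σ, _, rfl⟩; exact σ.2)
    exact ⟨H, gH, h1, fun σ hσ => h2 _ ⟨σ, hσ, rfl⟩, h3⟩
  choose H gH hTF hHold hCl using hch
  let Q := (∀ S, H S) ⧸ evK H
  have hQTF : TorsionFree Q := by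
    intro g n hn hg
    induction g using QuotientGroup.induction_on with | _ g
    rw [← QuotientGroup.mk_pow, QuotientGroup.eq_one_iff, mem_evK] at hg
    rw [QuotientGroup.eq_one_iff, mem_evK]
    obtain ⟨S, hS⟩ := hg
    exact ⟨S, fun T hT => hTF T (g T) n hn (hS T hT)⟩
  have hQB : ∀ σ ∈ B, σ.Holds Q := by
    intro σ hσ a ha
    choose f hf using fun k => QuotientGroup.mk'_surjective (evK H) (a k)
    have key : ∀ e, FreeGroup.lift a e = QuotientGroup.mk' (evK H) (FreeGroup.lift f e) := by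
      intro e
      have : FreeGroup.lift a = (QuotientGroup.mk' (evK H)).comp (FreeGroup.lift f) := by
        apply FreeGroup.ext_hom; intro k
        rw [MonoidHom.comp_apply, FreeGroup.lift_apply_of, FreeGroup.lift_apply_of]
        exact (hf k).symm
      rw [this]; rfl
    have key2 : ∀ e (T : Finset B), (FreeGroup.lift f e) T = FreeGroup.lift (fun k => f k T) e := by
      intro e T
      have : (Pi.evalMonoidHom H T).comp (FreeGroup.lift f) = FreeGroup.lift (fun k => f k T) := by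
        apply FreeGroup.ext_hom; intro k
        rw [MonoidHom.comp_apply, FreeGroup.lift_apply_of, FreeGroup.lift_apply_of]
        rfl
      rw [← this]; rfl
    have hone : ∀ e : FreeGroup (Fin σ.vars) × FreeGroup (Fin σ.vars),
        FreeGroup.lift a e.1 = FreeGroup.lift a e.2 ↔ ∃ S, ∀ T, S ⊆ T →
          FreeGroup.lift (fun k => f k T) e.1 = FreeGroup.lift (fun k => f k T) e.2 := by
      intro e
      rw [← mul_inv_eq_one, ← map_inv, ← map_mul, key, ← MonoidHom.mem_ker,
        QuotientGroup.ker_mk', mem_evK]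
      simp only [key2, map_mul, map_inv, mul_inv_eq_one]
    -- collect the premises
    have hlist : ∀ P : List (FreeGroup (Fin σ.vars) × FreeGroup (Fin σ.vars)),
        (∀ e ∈ P, FreeGroup.lift a e.1 = FreeGroup.lift a e.2) → ∃ S, ∀ T, S ⊆ T → ∀ e ∈ P,
          FreeGroup.lift (fun k => f k T) e.1 = FreeGroup.lift (fun k => f k T) e.2 := by
      intro P hP
      induction P with
      | nil => exact ⟨∅, fun T _ e he => by simp at he⟩
      | cons p P ih =>
        obtain ⟨S, hS⟩ := ih (fun e he => hP e (List.mem_cons_of_mem _ he))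
        obtain ⟨S', hS'⟩ := (hone p).1 (hP p List.mem_cons_self)
        refine ⟨S ∪ S', fun T hT e he => ?_⟩
        rcases List.mem_cons.1 he with rfl | he
        · exact hS' T (Finset.union_subset_right hT)
        · exact hS T (Finset.union_subset_left hT) e he
    obtain ⟨S, hS⟩ := hlist σ.premises ha
    rw [hone]
    refine ⟨insert ⟨σ, hσ⟩ S, fun T hT => ?_⟩
    apply hHold T ⟨σ, hσ⟩ (hT (Finset.mem_insert_self _ _))
    exact hS T ((Finset.subset_insert _ _).trans hT)
  have hQcl : Cl3 Q := by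
    rw [← clQ_holds]
    exact (hB.2 Q hQTF).1 hQB clQ ((clQ_holds G).2 hG)
  have hCl' : ∀ S, ∃ a b c d : H S, ⁅⁅⁅a, b⁆, c⁆, d⁆ ≠ 1 := by
    intro S
    have := hCl S
    unfold Cl3 at this
    push Not at this
    exact this
  choose a b c d habcd using hCl'
  have h1 := hQcl (QuotientGroup.mk' (evK H) a) (QuotientGroup.mk' (evK H) b)
    (QuotientGroup.mk' (evK H) c) (QuotientGroup.mk' (evK H) d)
  rw [← map_commutatorElement, ← map_commutatorElement, ← map_commutatorElement,
    ← MonoidHom.mem_ker, QuotientGroup.ker_mk', mem_evK] at h1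
  obtain ⟨S, hS⟩ := h1
  exact habcd S (hS S (Finset.Subset.refl S))

end Compact

section Filiform

/-- the central subgroup of elements with only a last coordinate -/
def tK : Subgroup DD where
  carrier := {g | g.a = 0 ∧ g.b = 0 ∧ g.q = 0 ∧ g.s = 0}
  one_mem' := by simp
  mul_mem' := by
    rintro x y ⟨h1, h2, h3, h4⟩ ⟨k1, k2, k3, k4⟩
    simp [h1, h2, h3, h4, k1, k2, k3, k4]
  inv_mem' := by
    rintro x ⟨h1, h2, h3, h4⟩
    simp [h1, h2, h3, h4]

theorem mem_tK {g : DD} : g ∈ tK ↔ g.a = 0 ∧ g.b = 0 ∧ g.q = 0 ∧ g.s = 0 := Iff.rfl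

instance tK_normal : tK.Normal := by
  constructor
  rintro x ⟨h1, h2, h3, h4⟩ g
  rw [mem_tK]
  simp [h1, h2, h3, h4]

/-- a quasiidentity true in `DD` and false in the quotient -/
noncomputable def filQ : QuasiIdentity := mkQ (κ := Fin 2)
  [⁅⁅FreeGroup.of (0 : Fin 2), FreeGroup.of (1 : Fin 2)⁆, FreeGroup.of (1 : Fin 2)⁆]
  ⁅⁅FreeGroup.of (0 : Fin 2), FreeGroup.of (1 : Fin 2)⁆, FreeGroup.of (0 : Fin 2)⁆

theorem filQ_DD : filQ.Holds DD := by
  unfold filQ
  rw [mkQ_holds]
  intro s hs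
  have h1 := hs ⁅⁅FreeGroup.of (0 : Fin 2), FreeGroup.of (1 : Fin 2)⁆,
    FreeGroup.of (1 : Fin 2)⁆ (by simp)
  simp only [map_commutatorElement, FreeGroup.lift_apply_of] at h1 ⊢
  have e1 := congrArg DD.s h1
  have e2 := congrArg DD.t h1
  simp at e1 e2
  have hδ : (s 0).a * (s 1).b - (s 1).a * (s 0).b = 0 := by
    rcases e1 with e1 | e1
    · exact e1
    rcases e2 with e2 | e2
    · exact e2
    · rw [e1, e2]; ring
  ext <;> simp [hδ]

theorem filQ_quot : ¬ filQ.Holds (DD ⧸ tK) := by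
  unfold filQ
  rw [mkQ_holds]
  intro h
  have h1 := h ![QuotientGroup.mk' tK gX, QuotientGroup.mk' tK gY] (by
    intro r hr
    rw [List.mem_singleton] at hr
    subst hr
    simp only [map_commutatorElement, FreeGroup.lift_apply_of, Matrix.cons_val_zero,
      Matrix.cons_val_one]
    rw [← map_commutatorElement, ← map_commutatorElement, ← MonoidHom.mem_ker,
      QuotientGroup.ker_mk', mem_tK]
    simp [gX, gY])
  simp only [map_commutatorElement, FreeGroup.lift_apply_of, Matrix.cons_val_zero,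
      Matrix.cons_val_one] at h1
  rw [← map_commutatorElement, ← map_commutatorElement, ← MonoidHom.mem_ker,
      QuotientGroup.ker_mk', mem_tK] at h1
  simp [gX, gY] at h1

theorem quot_tf : TF (DD ⧸ tK) := by
  intro g n hn hg
  induction g using QuotientGroup.induction_on with | _ g
  rw [← QuotientGroup.mk_pow, QuotientGroup.eq_one_iff, mem_tK] at hg
  rw [QuotientGroup.eq_one_iff, mem_tK]
  obtain ⟨h1, h2, h3, h4, _⟩ := DD.pow_coords g n
  rw [h1, h2, h3, h4] at hg
  have hn' : (n : ℚ) ≠ 0 := by positivity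
  simpa [hn'] using hg

theorem quot_cl3 : Cl3 (DD ⧸ tK) := by
  intro a b c d
  obtain ⟨a, rfl⟩ := QuotientGroup.mk'_surjective tK a
  obtain ⟨b, rfl⟩ := QuotientGroup.mk'_surjective tK b
  obtain ⟨c, rfl⟩ := QuotientGroup.mk'_surjective tK c
  obtain ⟨d, rfl⟩ := QuotientGroup.mk'_surjective tK d
  rw [← map_commutatorElement, ← map_commutatorElement, ← map_commutatorElement, DD.cl3, map_one]

end Filiform

section Conclusion

theorem main {α : Type u} [Nontrivial α] (B : Set QuasiIdentity) :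
    ¬ IsIndependentBasis.{u, v} B (N3 α) := by
  classical
  rintro ⟨hB, hind⟩
  obtain ⟨S, hSfin, hSB, hS⟩ := compactness (cl3_quot (FreeGroup α)) hB
  have hDD : ∀ σ ∈ B, σ.Holds DD := fun σ hσ => holds_DD_of_N3 (hB.1 σ hσ)
  -- any torsion-free group satisfying `B` satisfies every quasiidentity of `DD`
  have hno : ∀ (X : Type v) (_ : Group X), TF X → (∀ σ ∈ B, σ.Holds X) →
      ∀ τ : QuasiIdentity, τ.Holds DD → τ.Holds X := by
    intro X _ hX h1 τ hτ
    exact (hB.2 X hX).1 h1 τ (holds_N3_of_DD hτ)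
  by_cases hcase : B ⊆ S
  · -- finite basis
    have hBfin : B.Finite := hSfin.subset hcase
    obtain ⟨n, hn⟩ : ∃ n : ℕ, ∀ σ ∈ B, σ.vars ≤ n := by
      obtain ⟨n, hn⟩ := (hBfin.image QuasiIdentity.vars).bddAbove
      exact ⟨n, fun σ hσ => hn ⟨σ, hσ, rfl⟩⟩
    let H := ULift.{v} (DD ⧸ tK)
    have htf : TF H := by
      intro g k hk hg
      have h1 := quot_tf g.down k hk (congrArg ULift.down hg)
      exact ULift.down_injective h1
    have hcl : Cl3 H := by
      intro a b c d
      apply ULift.down_injective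
      exact quot_cl3 a.down b.down c.down d.down
    have hfil : ¬ filQ.Holds H := by
      intro h
      apply filQ_quot
      exact Holds.of_injective (MulEquiv.ulift.symm : (DD ⧸ tK) ≃* H).toMonoidHom
        (MulEquiv.ulift.symm : (DD ⧸ tK) ≃* H).injective h
    obtain ⟨X, gX, h1, _, h3, τ, h4, h5⟩ := MT htf hcl filQ_DD hfil n
    exact h5 (hno X gX h1 (fun σ hσ => h3 σ (hn σ hσ) (hDD σ hσ)) τ h4)
  · -- a member outside the finite part
    obtain ⟨σ, hσB, hσS⟩ := Set.not_subset.1 hcase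
    have hnot := hind σ hσB
    have hex : ∃ (H : Type v) (_ : Group H), TorsionFree H ∧
        (∀ τ ∈ B \ {σ}, τ.Holds H) ∧ ¬ ∀ τ : QuasiIdentity, τ.Holds (N3 α) → τ.Holds H := by
      by_contra hcon
      push Not at hcon
      apply hnot
      refine ⟨fun τ hτ => hB.1 τ hτ.1, fun H gH hH => ⟨fun h => hcon H gH hH h, ?_⟩⟩
      intro h τ hτ
      exact h τ (hB.1 τ hτ.1)
    obtain ⟨H, gH, hH, hHB, hHG⟩ := hex
    have hσH : ¬ σ.Holds H := by
      intro hσ
      apply hHG
      apply (hB.2 H hH).1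
      intro τ hτ
      by_cases e : τ = σ
      · rw [e]; exact hσ
      · exact hHB τ ⟨hτ, e⟩
    have hcl : Cl3 H := hS H hH (fun τ hτ => hHB τ ⟨hSB hτ, by
      rintro rfl
      exact hσS hτ⟩)
    obtain ⟨X, gX, h1, h2, h3, τ, h4, h5⟩ := MT hH hcl (hDD σ hσB) hσH σ.vars
    refine h5 (hno X gX h1 (fun ρ hρ => ?_) τ h4)
    by_cases e : ρ = σ
    · rw [e]; exact h3 σ le_rfl (hDD σ hσB)
    · exact h2 ρ (hHB ρ ⟨hρ, e⟩) (hDD ρ hρ)

end Conclusion

end MP8d
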