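import Pool.Agent.Lib.MP_8d185c_al.Sat

/-!
Words that vanish in `DD` vanish in all class-3 groups.
-/

namespace MP8d

open scoped commutatorElement
open Subgroup

section Class3

variable {H : Type*} [Group H]

theorem Cl3.lcs3 (hc : Cl3 H) : (⊤ : Subgroup H).lowerCentralSeries 3 = ⊥ := by
  rw [lowerCentralSeries_eq_bot_iff_upperCentralSeries_eq_top, eq_top_iff]
  intro a _
  rw [Subgroup.mem_upperCentralSeries_succ_iff]
  intro b
  rw [Subgroup.mem_upperCentralSeries_succ_iff]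
  intro c
  rw [Subgroup.mem_upperCentralSeries_succ_iff]
  intro d
  rw [Subgroup.upperCentralSeries_zero, mem_bot]
  exact hc a b c d

theorem Cl3.central (hc : Cl3 H) {x : H} (hx : x ∈ (⊤ : Subgroup H).lowerCentralSeries 2) (y : H) :
    x * y = y * x := by
  have h : ⁅x, y⁆ ∈ (⊤ : Subgroup H).lowerCentralSeries 3 :=
    commutator_mem_commutator hx (mem_top y)
  rw [hc.lcs3, mem_bot] at h
  exact commutatorElement_eq_one_iff_mul_comm.1 h

theorem mem_lcs1 (a b : H) : ⁅a, b⁆ ∈ (⊤ : Subgroup H).lowerCentralSeries 1 :=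
  commutator_mem_commutator (mem_top a) (mem_top b)

theorem mem_lcs2 {a : H} (ha : a ∈ (⊤ : Subgroup H).lowerCentralSeries 1) (b : H) :
    ⁅a, b⁆ ∈ (⊤ : Subgroup H).lowerCentralSeries 2 :=
  commutator_mem_commutator ha (mem_top b)

theorem mem_lcs2' {a : H} (ha : a ∈ (⊤ : Subgroup H).lowerCentralSeries 1) (b : H) :
    ⁅b, a⁆ ∈ (⊤ : Subgroup H).lowerCentralSeries 2 := by
  rw [← commutatorElement_inv]
  exact inv_mem (mem_lcs2 ha b)

theorem Cl3.comm12 (hc : Cl3 H) {x y : H} (hx : x ∈ (⊤ : Subgroup H).lowerCentralSeries 1)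
    (hy : y ∈ (⊤ : Subgroup H).lowerCentralSeries 1) : x * y = y * x := by
  have h3 : ⁅⁅(⊤ : Subgroup H), (⊤ : Subgroup H)⁆, (⊤ : Subgroup H).lowerCentralSeries 1⁆ = ⊥ := by
    apply commutator_commutator_eq_bot_of_rotate
    · rw [commutator_comm ⊤]
      exact hc.lcs3
    · exact hc.lcs3
  have h : ⁅x, y⁆ ∈ ⁅⁅(⊤ : Subgroup H), (⊤ : Subgroup H)⁆, (⊤ : Subgroup H).lowerCentralSeries 1⁆ :=
    commutator_mem_commutator hx hy
  rw [h3, mem_bot] at h
  exact commutatorElement_eq_one_iff_mul_comm.1 h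

theorem Cl3.conj_left (hc : Cl3 H) (a b : H) {z : H}
    (hz : z ∈ (⊤ : Subgroup H).lowerCentralSeries 1) : ⁅a * b * a⁻¹, z⁆ = ⁅b, z⁆ := by
  have h1 : a * b * a⁻¹ = ⁅a, b⁆ * b := by simp [commutatorElement_def]
  have h2 : ⁅a, b⁆ * z = z * ⁅a, b⁆ := hc.comm12 (mem_lcs1 a b) hz
  have h3 : ∀ y : H, ⁅b, z⁆ * y = y * ⁅b, z⁆ := fun y => hc.central (mem_lcs2' hz b) y
  rw [h1]
  have h4 : ⁅⁅a, b⁆ * b, z⁆ = ⁅a, b⁆ * ⁅b, z⁆ * ⁅a, b⁆⁻¹ * ⁅⁅a, b⁆, z⁆ := by
    simp only [commutatorElement_def]; group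
  rw [h4, (commutatorElement_eq_one_iff_mul_comm (g₁ := ⁅a, b⁆) (g₂ := z)).2 h2, mul_one, ← h3]
  group

theorem Cl3.jacobi (hc : Cl3 H) (a b c : H) :
    ⁅b, ⁅c, a⁆⁆ * ⁅a, ⁅b, c⁆⁆ * ⁅c, ⁅a, b⁆⁆ = 1 := by
  have h := commutatorElement_conj_commutatorElement_mul a b c
  rw [hc.conj_left _ _ (mem_lcs1 _ _), hc.conj_left _ _ (mem_lcs1 _ _),
    hc.conj_left _ _ (mem_lcs1 _ _)] at h
  exact h

theorem cl3_quot (G : Type*) [Group G] : Cl3 (G ⧸ (⊤ : Subgroup G).lowerCentralSeries 3) := by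
  intro a b c d
  induction a using QuotientGroup.induction_on with | _ a
  induction b using QuotientGroup.induction_on with | _ b
  induction c using QuotientGroup.induction_on with | _ c
  induction d using QuotientGroup.induction_on with | _ d
  rw [← QuotientGroup.mk'_apply, ← QuotientGroup.mk'_apply, ← QuotientGroup.mk'_apply,
    ← QuotientGroup.mk'_apply, ← map_commutatorElement, ← map_commutatorElement,
    ← map_commutatorElement, ← MonoidHom.mem_ker, QuotientGroup.ker_mk']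
  exact commutator_mem_commutator (mem_lcs2 (mem_lcs1 a b) c) (mem_top d)

theorem Cl3.kill {G : Type*} [Group G] (hc : Cl3 H) (φ : G →* H) {x : G}
    (hx : x ∈ (⊤ : Subgroup G).lowerCentralSeries 3) : φ x = 1 := by
  have h : φ x ∈ ((⊤ : Subgroup G).lowerCentralSeries 3).map φ := mem_map_of_mem φ hx
  rw [map_lowerCentralSeries] at h
  have h2 : φ x ∈ (⊤ : Subgroup H).lowerCentralSeries 3 :=
    lowerCentralSeries_mono 3 (le_top : (⊤ : Subgroup G).map φ ≤ ⊤) h
  rwa [hc.lcs3, mem_bot] at h2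

theorem map_lcs {G : Type*} [Group G] (φ : G →* H) {x : G} {n : ℕ}
    (hx : x ∈ (⊤ : Subgroup G).lowerCentralSeries n) :
    φ x ∈ (⊤ : Subgroup H).lowerCentralSeries n := by
  have h : φ x ∈ ((⊤ : Subgroup G).lowerCentralSeries n).map φ := mem_map_of_mem φ hx
  rw [map_lowerCentralSeries] at h
  exact lowerCentralSeries_mono n (le_top : (⊤ : Subgroup G).map φ ≤ ⊤) h

end Class3

section Expo

/-- If all exponents vanish the word is trivial on commuting elements. -/
theorem comm_triv {κ R : Type*} [DecidableEq κ] [Group R] (a : κ → R)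
    (hcomm : ∀ k k', a k * a k' = a k' * a k) (g : FreeGroup κ)
    (hg : ∀ k, ∃ l : FreeGroup κ →* Multiplicative ℚ,
      (∀ k', l (FreeGroup.of k') = Multiplicative.ofAdd (if k = k' then 1 else 0)) ∧ l g = 1) :
    FreeGroup.lift a g = 1 := by
  let E : FreeGroup κ →* Multiplicative (κ →₀ ℤ) :=
    FreeGroup.lift (fun k => Multiplicative.ofAdd (Finsupp.single k 1))
  have hE : E g = 1 := by
    apply Multiplicative.toAdd.injective
    ext k
    obtain ⟨l, hl, hlg⟩ := hg k
    let l' : FreeGroup κ →* Multiplicative ℚ :=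
      (AddMonoidHom.toMultiplicative
        ((Int.castAddHom ℚ).comp (Finsupp.applyAddHom k : (κ →₀ ℤ) →+ ℤ))).comp E
    have : l' = l := by
      apply FreeGroup.ext_hom
      intro k'
      rw [hl]
      simp only [l', E, MonoidHom.comp_apply, FreeGroup.lift_apply_of]
      apply congrArg Multiplicative.ofAdd
      simp [Finsupp.single_apply, eq_comm]
    have h2 : (l' g).toAdd = 0 := by rw [this, hlg]; rfl
    have h3 : (((E g).toAdd k : ℤ) : ℚ) = 0 := h2
    exact_mod_cast h3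
  have hmc : IsMulCommutative (closure (Set.range a)) := isMulCommutative_closure (by
    rintro _ ⟨k, rfl⟩ _ ⟨k', rfl⟩; exact hcomm k k')
  let cg : CommGroup (closure (Set.range a)) :=
    { (inferInstance : Group (closure (Set.range a))) with
      mul_comm := fun x y => hmc.is_comm.comm x y }
  let a' : κ → closure (Set.range a) := fun k => ⟨a k, subset_closure ⟨k, rfl⟩⟩
  let Ψ : (κ →₀ ℤ) →+ Additive (closure (Set.range a)) :=
    Finsupp.liftAddHom (fun k => zmultiplesHom _ (Additive.ofMul (a' k)))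
  have h1 : (AddMonoidHom.toMultiplicativeLeft Ψ).comp E = FreeGroup.lift a' := by
    apply FreeGroup.ext_hom
    intro k
    simp [E, Ψ]
  have h2 : FreeGroup.lift a' g = 1 := by
    rw [← h1, MonoidHom.comp_apply, hE, map_one]
  have h3 : (closure (Set.range a)).subtype.comp (FreeGroup.lift a') = FreeGroup.lift a := by
    apply FreeGroup.ext_hom
    intro k
    simp [a']
  rw [← h3, MonoidHom.comp_apply, h2, map_one]

end Expo

section Gen

variable {G : Type*} [Group G] {κ : Type*}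

theorem closure_comm {Q : Type*} [Group Q] (φ : G →* Q) (r : κ → G)
    (hr : closure (Set.range r) = ⊤) (z : Q) (h : ∀ i, φ (r i) * z = z * φ (r i)) (a : G) :
    φ a * z = z * φ a := by
  have h1 : closure (Set.range r) ≤ (centralizer {z}).comap φ := by
    rw [closure_le]
    rintro _ ⟨i, rfl⟩
    rw [SetLike.mem_coe, mem_comap, mem_centralizer_singleton_iff]
    exact h i
  have h2 : a ∈ (centralizer {z}).comap φ := h1 (hr ▸ mem_top a)
  rw [mem_comap, mem_centralizer_singleton_iff] at h2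
  exact h2

theorem quot_comm_iff (C : Subgroup G) [C.Normal] (a b : G) :
    QuotientGroup.mk' C a * QuotientGroup.mk' C b = QuotientGroup.mk' C b * QuotientGroup.mk' C a ↔
      ⁅a, b⁆ ∈ C := by
  rw [← commutatorElement_eq_one_iff_mul_comm, ← map_commutatorElement, ← MonoidHom.mem_ker,
    QuotientGroup.ker_mk']

theorem lemN (r : κ → G) (hr : closure (Set.range r) = ⊤) (C : Subgroup G) [C.Normal]
    (h : ∀ i j, ⁅r i, r j⁆ ∈ C) : (⊤ : Subgroup G).lowerCentralSeries 1 ≤ C := by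
  rw [Subgroup.lowerCentralSeries_succ, commutator_le]
  intro a _ b _
  rw [← quot_comm_iff]
  apply closure_comm (QuotientGroup.mk' C) r hr
  intro i
  symm
  apply closure_comm (QuotientGroup.mk' C) r hr
  intro j
  rw [quot_comm_iff]
  exact h j i

theorem lemN3 (r : κ → G) (hr : closure (Set.range r) = ⊤) (C : Subgroup G) [C.Normal]
    (h : ∀ l i j, ⁅r l, ⁅r i, r j⁆⁆ ∈ C) : (⊤ : Subgroup G).lowerCentralSeries 2 ≤ C := by
  have h1 : (⊤ : Subgroup G).lowerCentralSeries 1 ≤ (center (G ⧸ C)).comap (QuotientGroup.mk' C) := by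
    apply lemN r hr
    intro i j
    rw [mem_comap, mem_center_iff]
    intro q
    obtain ⟨a, rfl⟩ := QuotientGroup.mk'_surjective C q
    apply closure_comm (QuotientGroup.mk' C) r hr
    intro l
    rw [quot_comm_iff]
    exact h l i j
  rw [Subgroup.lowerCentralSeries_succ, commutator_le]
  intro a ha b _
  have h2 := h1 ha
  rw [mem_comap, mem_center_iff] at h2
  rw [← quot_comm_iff]
  exact (h2 _).symm

theorem normal_of_comm (C : Subgroup G) (h : ∀ g ∈ C, ∀ x : G, ⁅x, g⁆ ∈ C) : C.Normal := by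
  constructor
  intro g hg x
  have : x * g * x⁻¹ = ⁅x, g⁆ * g := by simp [commutatorElement_def]
  rw [this]
  exact C.mul_mem (h g hg x) hg

end Gen

section DDlcs

theorem DD.lcs1 {x : DD} (hx : x ∈ (⊤ : Subgroup DD).lowerCentralSeries 1) : x.a = 0 ∧ x.b = 0 := by
  let K : Subgroup DD :=
    { carrier := {x | x.a = 0 ∧ x.b = 0}
      mul_mem' := by rintro x y ⟨h1, h2⟩ ⟨h3, h4⟩; simp [h1, h2, h3, h4]
      one_mem' := by simp
      inv_mem' := by rintro x ⟨h1, h2⟩; simp [h1, h2] }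
  have : (⊤ : Subgroup DD).lowerCentralSeries 1 ≤ K := by
    rw [Subgroup.lowerCentralSeries_succ, commutator_le]
    intro a _ b _
    exact ⟨by simp, by simp⟩
  exact this hx

theorem DD.lcs2 {x : DD} (hx : x ∈ (⊤ : Subgroup DD).lowerCentralSeries 2) : x.q = 0 := by
  let K : Subgroup DD :=
    { carrier := {x | x.a = 0 ∧ x.b = 0 ∧ x.q = 0}
      mul_mem' := by rintro x y ⟨h1, h2, h5⟩ ⟨h3, h4, h6⟩; simp [h1, h2, h3, h4, h5, h6]
      one_mem' := by simp
      inv_mem' := by rintro x ⟨h1, h2, h3⟩; simp [h1, h2, h3] }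
  have : (⊤ : Subgroup DD).lowerCentralSeries 2 ≤ K := by
    rw [Subgroup.lowerCentralSeries_succ, commutator_le]
    intro a ha b _
    obtain ⟨h1, h2⟩ := DD.lcs1 ha
    exact ⟨by simp, by simp, by simp [h1, h2]⟩
  exact (this hx).2.2

end DDlcs

section Main

variable {ι : Type*} [LinearOrder ι]

def a2 (p : {p : ι × ι // p.1 < p.2}) : FreeGroup ι :=
  ⁅FreeGroup.of p.1.1, FreeGroup.of p.1.2⁆

def a3 (p : {p : ι × ι × ι // p.2.1 < p.2.2 ∧ p.2.1 ≤ p.1}) : FreeGroup ι :=
  ⁅FreeGroup.of p.1.1, ⁅FreeGroup.of p.1.2.1, FreeGroup.of p.1.2.2⁆⁆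

theorem fg_top {ι : Type*} : closure (Set.range (FreeGroup.of : ι → FreeGroup ι)) = ⊤ := by
  rw [← FreeGroup.range_lift_eq_closure, FreeGroup.lift_of_eq_id]
  exact MonoidHom.range_eq_top.2 (fun x => ⟨x, rfl⟩)

theorem lcs1_le : (⊤ : Subgroup (FreeGroup ι)).lowerCentralSeries 1 ≤
    closure (Set.range (a2 (ι := ι))) ⊔ (⊤ : Subgroup (FreeGroup ι)).lowerCentralSeries 2 := by
  have hle : closure (Set.range (a2 (ι := ι))) ⊔ (⊤ : Subgroup (FreeGroup ι)).lowerCentralSeries 2
      ≤ (⊤ : Subgroup (FreeGroup ι)).lowerCentralSeries 1 := by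
    apply sup_le
    · rw [closure_le]; rintro _ ⟨p, rfl⟩; exact mem_lcs1 _ _
    · exact Subgroup.lowerCentralSeries_antitone _ (by norm_num)
  have hn : (closure (Set.range (a2 (ι := ι))) ⊔
      (⊤ : Subgroup (FreeGroup ι)).lowerCentralSeries 2).Normal := by
    apply normal_of_comm
    intro g hg x
    exact le_sup_right (a := closure (Set.range (a2 (ι := ι)))) (mem_lcs2' (hle hg) x)
  apply lemN FreeGroup.of fg_top
  intro i j
  rcases lt_trichotomy i j with h | h | h
  · exact le_sup_left (b := (⊤ : Subgroup (FreeGroup ι)).lowerCentralSeries 2)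
      (subset_closure ⟨⟨(i, j), h⟩, rfl⟩)
  · rw [h, commutatorElement_self]; exact one_mem _
  · rw [← commutatorElement_inv]
    exact inv_mem (le_sup_left (b := (⊤ : Subgroup (FreeGroup ι)).lowerCentralSeries 2)
      (subset_closure ⟨⟨(j, i), h⟩, rfl⟩))

theorem Cl3.comm_inv {H : Type*} [Group H] (hc : Cl3 H) (a : H) {z : H}
    (hz : z ∈ (⊤ : Subgroup H).lowerCentralSeries 1) : ⁅a, z⁻¹⁆ = ⁅a, z⁆⁻¹ := by
  rw [commutatorElement_inv_right, commutatorElement_inv, mul_assoc,
    hc.central (mem_lcs2 hz a)]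
  group

theorem lcs2_le : (⊤ : Subgroup (FreeGroup ι)).lowerCentralSeries 2 ≤
    closure (Set.range (a3 (ι := ι))) ⊔ (⊤ : Subgroup (FreeGroup ι)).lowerCentralSeries 3 := by
  set C := closure (Set.range (a3 (ι := ι))) ⊔ (⊤ : Subgroup (FreeGroup ι)).lowerCentralSeries 3
    with hC
  have hle : C ≤ (⊤ : Subgroup (FreeGroup ι)).lowerCentralSeries 2 := by
    apply sup_le
    · rw [closure_le]; rintro _ ⟨p, rfl⟩; exact mem_lcs2' (mem_lcs1 _ _) _
    · exact Subgroup.lowerCentralSeries_antitone _ (by norm_num)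
  have hle3 : (⊤ : Subgroup (FreeGroup ι)).lowerCentralSeries 3 ≤ C := le_sup_right
  have hn : C.Normal := by
    apply normal_of_comm
    intro g hg x
    apply hle3
    rw [← commutatorElement_inv]
    exact inv_mem (commutator_mem_commutator (hle hg) (mem_top x))
  have hc := cl3_quot (FreeGroup ι)
  set π := QuotientGroup.mk' ((⊤ : Subgroup (FreeGroup ι)).lowerCentralSeries 3) with hπ
  have hmod : ∀ y y', π y = π y' → y' ∈ C → y ∈ C := by
    intro y y' h h'
    have h1 : y'⁻¹ * y ∈ (⊤ : Subgroup (FreeGroup ι)).lowerCentralSeries 3 := by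
      rw [hπ, QuotientGroup.mk'_apply, QuotientGroup.mk'_apply] at h
      exact (QuotientGroup.eq.1 h.symm)
    have h2 := C.mul_mem h' (hle3 h1)
    simpa using h2
  have hbas : ∀ l i j, i < j → i ≤ l →
      ⁅(FreeGroup.of l : FreeGroup ι), ⁅FreeGroup.of i, FreeGroup.of j⁆⁆ ∈ C := by
    intro l i j h1 h2
    exact le_sup_left (b := (⊤ : Subgroup (FreeGroup ι)).lowerCentralSeries 3)
      (subset_closure ⟨⟨(l, i, j), h1, h2⟩, rfl⟩)
  have hswap : ∀ l i j, ⁅(FreeGroup.of l : FreeGroup ι), ⁅FreeGroup.of i, FreeGroup.of j⁆⁆ ∈ C →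
      ⁅(FreeGroup.of l : FreeGroup ι), ⁅FreeGroup.of j, FreeGroup.of i⁆⁆ ∈ C := by
    intro l i j h
    apply hmod _ (⁅(FreeGroup.of l : FreeGroup ι), ⁅FreeGroup.of i, FreeGroup.of j⁆⁆⁻¹) _
      (inv_mem h)
    rw [← commutatorElement_inv (FreeGroup.of i), map_inv, map_commutatorElement,
      map_commutatorElement, map_inv, map_commutatorElement]
    exact hc.comm_inv _ (mem_lcs1 _ _)
  have hlt : ∀ l i j, i < j →
      ⁅(FreeGroup.of l : FreeGroup ι), ⁅FreeGroup.of i, FreeGroup.of j⁆⁆ ∈ C := by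
    intro l i j hij
    by_cases hl : i ≤ l
    · exact hbas l i j hij hl
    · rw [not_le] at hl
      have hJ := hc.jacobi (π (FreeGroup.of l)) (π (FreeGroup.of i)) (π (FreeGroup.of j))
      simp only [← map_commutatorElement] at hJ
      apply hmod _ (⁅(FreeGroup.of i : FreeGroup ι), ⁅FreeGroup.of j, FreeGroup.of l⁆⁆⁻¹ *
        ⁅(FreeGroup.of j : FreeGroup ι), ⁅FreeGroup.of l, FreeGroup.of i⁆⁆⁻¹)
      · rw [map_mul, map_inv, map_inv]
        rw [mul_assoc] at hJ
        have := eq_inv_of_mul_eq_one_right hJ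
        rw [← this]
        group
      · apply mul_mem
        · exact inv_mem (hswap _ _ _ (hbas i l j (hl.trans hij) hl.le))
        · exact inv_mem (hbas j l i hl (hl.trans hij).le)
  apply lemN3 FreeGroup.of fg_top
  intro l i j
  rcases lt_trichotomy i j with h | h | h
  · exact hlt l i j h
  · rw [h, commutatorElement_self, commutatorElement_one_right]; exact one_mem _
  · exact hswap _ _ _ (hlt l j i h)

end Main

section Final

variable {ι : Type*} {M : Type*} [AddCommGroup M] [Module ℚ M] (ξ : ι → Module.Dual ℚ M)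

theorem V_lift {κ : Type*} (a : κ → FreeGroup ι) (ha : ∀ k, V ξ (a k) = 0) (g : FreeGroup κ) :
    V ξ (FreeGroup.lift a g) = 0 := by
  induction g using word_ind with
  | one => simp
  | of i => simp [ha]
  | inv f h => simp [h]
  | mul f g hf hg => simp [hf, hg]

theorem EE_one : EE ξ 1 = 0 := by
  ext x y <;> simp [EE]

theorem EE_of_ev {f : FreeGroup ι} (h : ∀ x y : M, ev ξ x y f = 1) : EE ξ f = 0 := by
  ext x y
  · simp [EE, U, h]
  · simp [EE, S, h]

theorem U_lcs2 {z : FreeGroup ι} (hz : z ∈ (⊤ : Subgroup (FreeGroup ι)).lowerCentralSeries 2) :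
    U ξ z = 0 := by
  ext x y
  exact DD.lcs2 (map_lcs (ev ξ x y) hz)

theorem V_lcs1 {z : FreeGroup ι} (hz : z ∈ (⊤ : Subgroup (FreeGroup ι)).lowerCentralSeries 1) :
    V ξ z = 0 := by
  ext x
  have := (DD.lcs1 (map_lcs (ev ξ x x) hz)).1
  rwa [ev_a] at this

/-- evaluation of exponents as a homomorphism -/
def evV (x : M) : FreeGroup ι →* Multiplicative ℚ :=
  MonoidHom.mk' (fun f => Multiplicative.ofAdd (V ξ f x)) (by intro f g; simp)

theorem V0_lcs1 [DecidableEq ι] {ε : ι → M} (hε : ∀ i j, ξ i (ε j) = if i = j then 1 else 0)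
    {f : FreeGroup ι} (hV : V ξ f = 0) : f ∈ (⊤ : Subgroup (FreeGroup ι)).lowerCentralSeries 1 := by
  set C := (⊤ : Subgroup (FreeGroup ι)).lowerCentralSeries 1 with hC
  have h := comm_triv (fun i : ι => QuotientGroup.mk' C (FreeGroup.of i))
    (by intro k k'; rw [quot_comm_iff]; exact mem_lcs1 _ _) f (by
      intro k
      refine ⟨evV ξ (ε k), ?_, ?_⟩
      · intro k'
        simp [evV, hε, eq_comm]
      · simp [evV, hV])
  have h2 : FreeGroup.lift (fun i : ι => QuotientGroup.mk' C (FreeGroup.of i)) =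
      QuotientGroup.mk' C := by
    apply FreeGroup.ext_hom; intro i; simp
  rwa [h2, ← MonoidHom.mem_ker, QuotientGroup.ker_mk'] at h

/-- additive functional on zero exponent words pulled back to a free group. -/
def pull {κ : Type*} (a : κ → FreeGroup ι) (ha : ∀ k, V ξ (a k) = 0)
    (l : (M → M → ℚ) × (M → M → ℚ) →ₗ[ℚ] ℚ) : FreeGroup κ →* Multiplicative ℚ :=
  MonoidHom.mk' (fun g => Multiplicative.ofAdd (l (EE ξ (FreeGroup.lift a g)))) (by
    intro f g
    rw [map_mul, EE_mul ξ (V_lift ξ a ha f) (V_lift ξ a ha g), map_add, ofAdd_add])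

/-- evaluation of the first component at a point -/
def ev1 (x y : M) : (M → M → ℚ) × (M → M → ℚ) →ₗ[ℚ] ℚ where
  toFun e := e.1 x y
  map_add' := by intros; rfl
  map_smul' := by intros; rfl

/-- evaluation of the second component at a point -/
def ev2 (x y : M) : (M → M → ℚ) × (M → M → ℚ) →ₗ[ℚ] ℚ where
  toFun e := e.2 x y
  map_add' := by intros; rfl
  map_smul' := by intros; rfl

theorem comm_triv' {κ H : Type*} [DecidableEq κ] [Group H] (a : κ → FreeGroup ι)
    (ha : ∀ k, V ξ (a k) = 0) (h : ι → H)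
    (hcomm : ∀ k k', FreeGroup.lift h (a k) * FreeGroup.lift h (a k') =
      FreeGroup.lift h (a k') * FreeGroup.lift h (a k)) (g : FreeGroup κ)
    (l : κ → (M → M → ℚ) × (M → M → ℚ) →ₗ[ℚ] ℚ)
    (hl : ∀ k k', l k (EE ξ (a k')) = if k = k' then 1 else 0)
    (hg : ∀ k, l k (EE ξ (FreeGroup.lift a g)) = 0) :
    FreeGroup.lift h (FreeGroup.lift a g) = 1 := by
  have h1 := comm_triv (fun k => FreeGroup.lift h (a k)) hcomm g (by
    intro k
    refine ⟨pull ξ a ha (l k), ?_, ?_⟩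
    · intro k'
      simp [pull, hl]
    · simp [pull, hg])
  have h2 : FreeGroup.lift (fun k => FreeGroup.lift h (a k)) =
      (FreeGroup.lift h).comp (FreeGroup.lift a) := by
    apply FreeGroup.ext_hom; intro i; simp
  rw [h2] at h1
  exact h1

theorem del2 {ι : Type*} [LinearOrder ι] (i j i' j' : ι) (hij : i < j) (hij' : i' < j') :
    ((if i' = i then (1:ℚ) else 0) * (if j' = j then 1 else 0)
      - (if j' = i then 1 else 0) * (if i' = j then 1 else 0)) = if i = i' ∧ j = j' then 1 else 0 := by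
  grind

theorem del3 {ι : Type*} [LinearOrder ι] (l i j l' i' j' : ι) (hij : i < j) (hl : i < l)
    (hij' : i' < j') (hl' : i' ≤ l') :
    ((if l' = i then (1:ℚ) else 0) + (if l' = l then 1 else 0)) *
      (((if i' = i then (1:ℚ) else 0) + (if i' = l then 1 else 0)) * (if j' = j then 1 else 0)
        - ((if j' = i then (1:ℚ) else 0) + (if j' = l then 1 else 0)) * (if i' = j then 1 else 0))
     - (if l' = i then (1:ℚ) else 0) * ((if i' = i then (1:ℚ) else 0) * (if j' = j then 1 else 0)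
        - (if j' = i then (1:ℚ) else 0) * (if i' = j then 1 else 0))
     - (if l' = l then (1:ℚ) else 0) * ((if i' = l then (1:ℚ) else 0) * (if j' = j then 1 else 0)
        - (if j' = l then (1:ℚ) else 0) * (if i' = j then 1 else 0))
       = if l = l' ∧ i = i' ∧ j = j' then 1 else 0 := by
  grind

theorem del3' {ι : Type*} [LinearOrder ι] (i j l' i' j' : ι) (hij : i < j)
    (hij' : i' < j') :
     (if l' = i then (1:ℚ) else 0) * ((if i' = i then (1:ℚ) else 0) * (if j' = j then 1 else 0)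
        - (if j' = i then (1:ℚ) else 0) * (if i' = j then 1 else 0))
       = if i = l' ∧ i = i' ∧ j = j' then 1 else 0 := by
  grind

open Classical in
/-- the functional dual to the basic commutator with index `(l,i,j)`. -/
noncomputable def lam3 (ε : ι → M) (p : ι × ι × ι) : (M → M → ℚ) × (M → M → ℚ) →ₗ[ℚ] ℚ :=
  if p.1 = p.2.1 then ev2 (ε p.2.1) (ε p.2.2)
  else ev2 (ε p.2.1 + ε p.1) (ε p.2.2) - ev2 (ε p.2.1) (ε p.2.2) - ev2 (ε p.1) (ε p.2.2)

theorem res [LinearOrder ι] {ε : ι → M} (hε : ∀ i j, ξ i (ε j) = if i = j then 1 else 0)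
    {H : Type*} [Group H] (hc : Cl3 H) (h : ι → H) {f : FreeGroup ι} (hV : V ξ f = 0)
    (hE : EE ξ f = 0) : FreeGroup.lift h f = 1 := by
  have h1 := lcs1_le (V0_lcs1 ξ hε hV)
  rw [mem_sup_of_normal_right] at h1
  obtain ⟨c, hcc, z, hz, rfl⟩ := h1
  rw [← FreeGroup.range_lift_eq_closure] at hcc
  obtain ⟨g, rfl⟩ := hcc
  have h2 := lcs2_le hz
  rw [mem_sup_of_normal_right] at h2
  obtain ⟨d, hd, w, hw, rfl⟩ := h2
  rw [← FreeGroup.range_lift_eq_closure] at hd
  obtain ⟨g3, rfl⟩ := hd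
  have hVa2 : ∀ k, V ξ (a2 (ι := ι) k) = 0 := fun k => V_comm ξ _ _
  have hVa3 : ∀ k, V ξ (a3 (ι := ι) k) = 0 := fun k => V_comm ξ _ _
  have hVc := V_lift ξ a2 hVa2 g
  have hVd := V_lift ξ a3 hVa3 g3
  have hVz : V ξ (FreeGroup.lift a3 g3 * w) = 0 :=
    V_lcs1 ξ (Subgroup.lowerCentralSeries_antitone _ (by norm_num : 1 ≤ 2) hz)
  have hVw : V ξ w = 0 :=
    V_lcs1 ξ (Subgroup.lowerCentralSeries_antitone _ (by norm_num : 1 ≤ 3) hw)
  have hUz := U_lcs2 ξ hz
  have hEw : EE ξ w = 0 := EE_of_ev ξ (fun x y => DD.cl3.kill _ hw)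
  have hUc : U ξ (FreeGroup.lift a2 g) = 0 := by
    rw [EE_mul ξ hVc hVz] at hE
    have := congrArg Prod.fst hE
    simp only [EE, Prod.fst_add, Prod.fst_zero] at this
    rw [hUz, add_zero] at this
    exact this
  have hdel2 : ∀ k k' : {p : ι × ι // p.1 < p.2}, (ev1 (ε k.1.1) (ε k.1.2)) (EE ξ (a2 k')) =
      if k = k' then 1 else 0 := by
    rintro ⟨⟨i, j⟩, hij⟩ ⟨⟨i', j'⟩, hij'⟩
    simp only [EE, a2, U_commgen, ev1, LinearMap.coe_mk, AddHom.coe_mk, wedge, V_of, hε,
      Subtype.mk.injEq, Prod.mk.injEq]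
    exact del2 i j i' j' hij hij'
  have hgz : ∀ k : {p : ι × ι // p.1 < p.2},
      (ev1 (ε k.1.1) (ε k.1.2)) (EE ξ (FreeGroup.lift a2 g)) = 0 := by
    intro k
    simp [ev1, EE, hUc]
  have hEc : EE ξ (FreeGroup.lift a2 g) = 0 := by
    apply EE_of_ev
    intro x y
    apply comm_triv' ξ a2 hVa2 _ _ g (fun k => ev1 (ε k.1.1) (ε k.1.2)) hdel2 hgz
    intro k k'
    apply DD.cl3.comm12 <;> exact map_lcs _ (mem_lcs1 _ _)
  have hc1 : FreeGroup.lift h (FreeGroup.lift a2 g) = 1 := by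
    apply comm_triv' ξ a2 hVa2 _ _ g (fun k => ev1 (ε k.1.1) (ε k.1.2)) hdel2 hgz
    intro k k'
    apply hc.comm12 <;> exact map_lcs _ (mem_lcs1 _ _)
  have hEd : EE ξ (FreeGroup.lift a3 g3) = 0 := by
    rw [EE_mul ξ hVc hVz, EE_mul ξ hVd hVw, hEc, hEw, zero_add, add_zero] at hE
    exact hE
  have hd1 : FreeGroup.lift h (FreeGroup.lift a3 g3) = 1 := by
    apply comm_triv' ξ a3 hVa3 _ _ g3 (fun k => lam3 ε k.1)
    · rintro ⟨⟨l, i, j⟩, hij, hl⟩ ⟨⟨l', i', j'⟩, hij', hl'⟩
      simp only [a3, lam3, Subtype.mk.injEq, Prod.mk.injEq]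
      rw [EE_comm ξ _ _ (V_comm ξ _ _), U_commgen]
      simp only at hij hl hij' hl'
      split_ifs with e1 e2 e2
      · subst e1
        simp only [ev2, LinearMap.coe_mk, AddHom.coe_mk, dot, wedge, V_of, hε]
        rw [del3' l j l' i' j' hij hij', if_pos e2]
      · subst e1
        simp only [ev2, LinearMap.coe_mk, AddHom.coe_mk, dot, wedge, V_of, hε]
        rw [del3' l j l' i' j' hij hij', if_neg e2]
      · simp only [ev2, LinearMap.sub_apply, LinearMap.coe_mk, AddHom.coe_mk, dot, wedge, V_of,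
          map_add, hε]
        rw [del3 l i j l' i' j' hij (lt_of_le_of_ne hl (Ne.symm e1)) hij' hl', if_pos e2]
      · simp only [ev2, LinearMap.sub_apply, LinearMap.coe_mk, AddHom.coe_mk, dot, wedge, V_of,
          map_add, hε]
        rw [del3 l i j l' i' j' hij (lt_of_le_of_ne hl (Ne.symm e1)) hij' hl', if_neg e2]
    · intro k
      rw [hEd, map_zero]
    · intro k k'
      apply hc.comm12 <;>
        exact map_lcs _ (Subgroup.lowerCentralSeries_antitone _ (by norm_num : 1 ≤ 2)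
          (mem_lcs2' (mem_lcs1 _ _) _))
  rw [map_mul, map_mul, hc1, hd1, hc.kill _ hw]
  simp

end Final

end MP8d
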