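import Pool.Agent.Lib.MP_8d185c_al.Words

/-!
Saturated spans of words.
-/

namespace MP8d

open scoped commutatorElement

section Sat

variable {Γ W : Type*} [Group Γ] [AddCommGroup W] [Module ℚ W]

def satHom (A : Subgroup Γ) (E : Γ → W) (hE : ∀ x ∈ A, ∀ y ∈ A, E (x * y) = E x + E y) :
    A →* Multiplicative W :=
  MonoidHom.mk' (fun x => Multiplicative.ofAdd (E x)) (by
    intro x y
    simp only [Subgroup.coe_mul]
    rw [hE x x.2 y y.2, ofAdd_add])

theorem sat_zpow (A : Subgroup Γ) (E : Γ → W) (hE : ∀ x ∈ A, ∀ y ∈ A, E (x * y) = E x + E y)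
    {f : Γ} (hf : f ∈ A) (n : ℤ) : E (f ^ n) = (n : ℚ) • E f := by
  have h := map_zpow (satHom A E hE) ⟨f, hf⟩ n
  have h2 := congrArg Multiplicative.toAdd h
  simp only [toAdd_zpow] at h2
  rw [Int.cast_smul_eq_zsmul]
  exact h2

theorem sat_pow (A : Subgroup Γ) (E : Γ → W) (hE : ∀ x ∈ A, ∀ y ∈ A, E (x * y) = E x + E y)
    {f : Γ} (hf : f ∈ A) (n : ℕ) : E (f ^ n) = (n : ℚ) • E f := by
  have := sat_zpow A E hE hf n
  simpa using this

/-- `{e | some positive multiple of e is the value of E at an element of A}` -/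
def sat (A : Subgroup Γ) (E : Γ → W) (hE : ∀ x ∈ A, ∀ y ∈ A, E (x * y) = E x + E y) :
    Submodule ℚ W where
  carrier := {e | ∃ m : ℕ, 0 < m ∧ ∃ f ∈ A, E f = (m : ℚ) • e}
  zero_mem' := by
    refine ⟨1, one_pos, 1, A.one_mem, ?_⟩
    have := hE 1 A.one_mem 1 A.one_mem
    simpa using this
  add_mem' := by
    rintro e e' ⟨m, hm, f, hf, h⟩ ⟨m', hm', f', hf', h'⟩
    refine ⟨m * m', Nat.mul_pos hm hm', f ^ m' * f' ^ m, A.mul_mem (A.pow_mem hf _)
      (A.pow_mem hf' _), ?_⟩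
    rw [hE _ (A.pow_mem hf _) _ (A.pow_mem hf' _), sat_pow A E hE hf, sat_pow A E hE hf', h, h']
    push_cast
    module
  smul_mem' := by
    rintro c e ⟨m, hm, f, hf, h⟩
    refine ⟨m * c.den, Nat.mul_pos hm c.den_pos, f ^ c.num, A.zpow_mem hf _, ?_⟩
    rw [sat_zpow A E hE hf, h]
    have hc : (c.den : ℚ) ≠ 0 := by exact_mod_cast c.den_nz
    have : (c.num : ℚ) = c.den * c := by
      rw [mul_comm]; exact (Rat.mul_den_eq_num c).symm
    rw [this]
    push_cast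
    module

theorem mem_sat {A : Subgroup Γ} {E : Γ → W}
    {hE : ∀ x ∈ A, ∀ y ∈ A, E (x * y) = E x + E y} {e : W} :
    e ∈ sat A E hE ↔ ∃ m : ℕ, 0 < m ∧ ∃ f ∈ A, E f = (m : ℚ) • e := Iff.rfl

end Sat

section Words

variable {ι : Type*} {M : Type*} [AddCommGroup M] [Module ℚ M] (ξ : ι → Module.Dual ℚ M)

/-- words of exponent zero -/
def V0 : Subgroup (FreeGroup ι) := (VV ξ).ker

theorem mem_V0 {f : FreeGroup ι} : f ∈ V0 ξ ↔ V ξ f = 0 := by
  unfold V0 V
  rw [MonoidHom.mem_ker]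
  exact Iff.rfl

def EE (f : FreeGroup ι) : (M → M → ℚ) × (M → M → ℚ) := (U ξ f, S ξ f)

theorem EE_mul {f g : FreeGroup ι} (hf : V ξ f = 0) (hg : V ξ g = 0) :
    EE ξ (f * g) = EE ξ f + EE ξ g := by
  ext x y
  · simp [EE, U_mul, hf, hg]
  · simp [EE, S_mul, hf, hg]

theorem EE_inv (f : FreeGroup ι) : EE ξ f⁻¹ = - EE ξ f := by
  ext x y
  · simp [EE, U_inv]
  · simp [EE, S_inv]

theorem EE_pow {f : FreeGroup ι} (hf : V ξ f = 0) (n : ℕ) : EE ξ (f ^ n) = (n : ℚ) • EE ξ f :=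
  sat_pow (V0 ξ) (EE ξ) (fun _ hx _ hy => EE_mul ξ ((mem_V0 ξ).1 hx) ((mem_V0 ξ).1 hy))
    ((mem_V0 ξ).2 hf) n

theorem EE_zpow {f : FreeGroup ι} (hf : V ξ f = 0) (n : ℤ) : EE ξ (f ^ n) = (n : ℚ) • EE ξ f :=
  sat_zpow (V0 ξ) (EE ξ) (fun _ hx _ hy => EE_mul ξ ((mem_V0 ξ).1 hx) ((mem_V0 ξ).1 hy))
    ((mem_V0 ξ).2 hf) n

/-- the forms having a multiple realised by a word of exponent zero in `A`. -/
def NA (A : Subgroup (FreeGroup ι)) : Submodule ℚ ((M → M → ℚ) × (M → M → ℚ)) :=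
  sat (V0 ξ ⊓ A) (EE ξ) (fun _ hx _ hy => EE_mul ξ ((mem_V0 ξ).1 hx.1) ((mem_V0 ξ).1 hy.1))

theorem mem_NA {A : Subgroup (FreeGroup ι)} {e : (M → M → ℚ) × (M → M → ℚ)} :
    e ∈ NA ξ A ↔ ∃ m : ℕ, 0 < m ∧ ∃ f, V ξ f = 0 ∧ f ∈ A ∧ EE ξ f = (m : ℚ) • e := by
  unfold NA
  rw [mem_sat]
  constructor
  · rintro ⟨m, hm, f, ⟨h1, h2⟩, h3⟩
    exact ⟨m, hm, f, (mem_V0 ξ).1 h1, h2, h3⟩
  · rintro ⟨m, hm, f, h1, h2, h3⟩
    exact ⟨m, hm, f, ⟨(mem_V0 ξ).2 h1, h2⟩, h3⟩

theorem EE_mem_NA {A : Subgroup (FreeGroup ι)} {f : FreeGroup ι} (hV : V ξ f = 0) (hA : f ∈ A) :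
    EE ξ f ∈ NA ξ A :=
  (mem_NA ξ).2 ⟨1, one_pos, f, hV, hA, by simp⟩

/-- commutator with a word of exponent zero -/
theorem EE_comm (x f : FreeGroup ι) (hf : V ξ f = 0) :
    EE ξ ⁅x, f⁆ = (0, dot (V ξ x) (U ξ f)) := by
  ext a b
  · simp [EE, commutatorElement_def, U_mul, U_inv, hf]
  · simp [EE, commutatorElement_def, S_mul, S_inv, U_mul, U_inv, hf, dot]
    ring

theorem U_commgen (x y : FreeGroup ι) : U ξ ⁅x, y⁆ = wedge (V ξ x) (V ξ y) := by
  ext a b
  simp [commutatorElement_def, U_mul, U_inv, wedge]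
  ring

/-- the Lie-bracket word: `⁅x,y⁆² ⁅x,⁅x,y⁆⁆⁻¹ ⁅y,⁅x,y⁆⁆⁻¹`. -/
def lieW (x y : FreeGroup ι) : FreeGroup ι := ⁅x, y⁆ ^ 2 * ⁅x, ⁅x, y⁆⁆⁻¹ * ⁅y, ⁅x, y⁆⁆⁻¹

theorem V_lieW (x y : FreeGroup ι) : V ξ (lieW x y) = 0 := by simp [lieW]

theorem EE_lieW (i j : ι) : EE ξ (lieW (FreeGroup.of i) (FreeGroup.of j)) =
    ((2 : ℚ) • wedge (ξ i) (ξ j), 0) := by
  unfold lieW
  rw [EE_mul ξ (by simp) (by simp), EE_mul ξ (by simp) (by simp), EE_inv, EE_inv, EE_comm ξ _ _ (by simp),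
    EE_comm ξ _ _ (by simp), EE_pow ξ (by simp), U_commgen]
  ext a b
  · simp [EE, U_commgen]
  · simp [EE, commutatorElement_def, S_mul, S_inv, U_mul, U_inv, dot, wedge]
    ring

end Words

section Full

variable {ι : Type*} [Fintype ι] {M : Type*} [AddCommGroup M] [Module ℚ M]
  (bas : Module.Basis ι ℚ M)

theorem dual_expand (v : Module.Dual ℚ M) : v = ∑ i, v (bas i) • bas.coord i := by
  classical
  apply bas.ext
  intro j
  simp

theorem alt_expand {u : M → M → ℚ} (hu : u ∈ Alt2 M) :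
    u = ∑ i, ∑ j, (u (bas i) (bas j) / 2) • wedge (bas.coord i) (bas.coord j) := by
  have key : ∀ x y, u x y = ∑ i, ∑ j, bas.repr x i * bas.repr y j * u (bas i) (bas j) := by
    intro x y
    have := LinearMap.sum_repr_mul_repr_mul bas bas (B := Alt2.bil hu) x y
    simp only [Alt2.bil_apply, smul_eq_mul] at this
    rw [← this, Finsupp.sum_fintype _ _ (by simp)]
    apply Finset.sum_congr rfl
    intro i _
    rw [Finsupp.sum_fintype _ _ (by simp)]
    apply Finset.sum_congr rfl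
    intro j _
    ring
  ext x y
  have h1 := key x y
  have h2 := key y x
  have h3 := Alt2.swap hu x y
  have h4 : u x y = (u x y - u y x) / 2 := by rw [h3]; linarith [Alt2.swap hu x y]
  rw [h4, h1, h2]
  simp only [Finset.sum_apply, Pi.smul_apply, smul_eq_mul, wedge, Module.Basis.coord_apply]
  rw [← Finset.sum_sub_distrib, Finset.sum_div]
  apply Finset.sum_congr rfl
  intro i _
  rw [← Finset.sum_sub_distrib, Finset.sum_div]
  apply Finset.sum_congr rfl
  intro j _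
  ring

/-- cubic form with coefficient array `b`. -/
def Tb (ξ : ι → Module.Dual ℚ M) (b : ι → ι → ι → ℚ) : M → M → ℚ :=
  fun x y => ∑ i, ∑ k, ∑ l, b i k l * (ξ i x * (ξ k x * ξ l y - ξ l x * ξ k y))

theorem Tb_eq (ξ : ι → Module.Dual ℚ M) (b : ι → ι → ι → ℚ) :
    Tb ξ b = ∑ i, ∑ k, ∑ l, b i k l • dot (ξ i) (wedge (ξ k) (ξ l)) := by
  ext x y
  simp [Tb, dot, wedge, Finset.sum_apply]

theorem dot_expand (v : Module.Dual ℚ M) {u : M → M → ℚ} (hu : u ∈ Alt2 M) :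
    dot v u = Tb bas.coord (fun i k l => v (bas i) * (u (bas k) (bas l) / 2)) := by
  ext x y
  have h1 := congrFun (congrFun (alt_expand bas hu) x) y
  have h2 : v x = ∑ i, v (bas i) * bas.coord i x := by
    conv_lhs => rw [← bas.sum_repr x, map_sum]
    simp [mul_comm]
  simp only [dot, Tb]
  rw [h1, h2]
  simp only [Finset.sum_apply, Pi.smul_apply, smul_eq_mul, wedge]
  rw [Finset.sum_mul]
  apply Finset.sum_congr rfl
  intro i _
  rw [Finset.mul_sum]
  apply Finset.sum_congr rfl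
  intro k _
  rw [Finset.mul_sum]
  apply Finset.sum_congr rfl
  intro l _
  ring

theorem Tb_add (ξ : ι → Module.Dual ℚ M) (b b' : ι → ι → ι → ℚ) :
    Tb ξ (b + b') = Tb ξ b + Tb ξ b' := by
  ext x y
  simp only [Tb, Pi.add_apply, add_mul, Finset.sum_add_distrib]

theorem Tb_smul (ξ : ι → Module.Dual ℚ M) (c : ℚ) (b : ι → ι → ι → ℚ) :
    Tb ξ (c • b) = c • Tb ξ b := by
  ext x y
  simp only [Tb, Pi.smul_apply, smul_eq_mul, mul_assoc, Finset.mul_sum]

theorem family_expand {r : ℕ} (v : Fin r → Module.Dual ℚ M) (w : Fin r → M → M → ℚ)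
    (hw : ∀ j, w j ∈ Alt2 M) :
    ∑ j, dot (v j) (w j) =
      Tb bas.coord (fun i k l => ∑ j, v j (bas i) * (w j (bas k) (bas l) / 2)) := by
  ext x y
  simp only [Finset.sum_apply]
  have : ∀ j, dot (v j) (w j) x y =
      Tb bas.coord (fun i k l => v j (bas i) * (w j (bas k) (bas l) / 2)) x y := by
    intro j; rw [dot_expand bas (v j) (hw j)]
  simp only [this, Tb, Finset.sum_mul]
  rw [Finset.sum_comm]
  apply Finset.sum_congr rfl
  intro i _
  rw [Finset.sum_comm]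
  apply Finset.sum_congr rfl
  intro k _
  rw [Finset.sum_comm]

omit [Fintype ι] in
theorem wedge_mem_NA (i j : ι) : (wedge (bas.coord i) (bas.coord j), 0) ∈ NA bas.coord ⊤ := by
  have h := EE_mem_NA bas.coord (A := ⊤) (V_lieW bas.coord (FreeGroup.of i) (FreeGroup.of j))
    (by trivial)
  rw [EE_lieW] at h
  have := (NA bas.coord ⊤).smul_mem (1/2 : ℚ) h
  convert this using 1
  ext x y <;> simp

omit [Fintype ι] in
theorem dot_mem_NA (l i j : ι) :
    (0, dot (bas.coord l) (wedge (bas.coord i) (bas.coord j))) ∈ NA bas.coord ⊤ := by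
  have h := EE_mem_NA bas.coord (A := ⊤)
    (f := ⁅FreeGroup.of l, ⁅FreeGroup.of i, FreeGroup.of j⁆⁆) (by simp) (by trivial)
  rw [EE_comm _ _ _ (by simp), U_commgen] at h
  simpa using h

theorem Tb_mem_NA (b : ι → ι → ι → ℚ) : (0, Tb bas.coord b) ∈ NA bas.coord ⊤ := by
  have : ((0, Tb bas.coord b) : (M → M → ℚ) × (M → M → ℚ)) =
      ∑ i, ∑ k, ∑ l, b i k l • ((0, dot (bas.coord i) (wedge (bas.coord k) (bas.coord l))) :
        (M → M → ℚ) × (M → M → ℚ)) := by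
    rw [Tb_eq]
    ext x y <;> simp [Prod.fst_sum, Prod.snd_sum]
  rw [this]
  exact Submodule.sum_mem _ fun i _ => Submodule.sum_mem _ fun k _ => Submodule.sum_mem _
    fun l _ => Submodule.smul_mem _ _ (dot_mem_NA bas i k l)

theorem full {e : (M → M → ℚ) × (M → M → ℚ)} (h1 : e.1 ∈ Alt2 M) (h2 : e.2 ∈ L3 M) :
    e ∈ NA bas.coord ⊤ := by
  obtain ⟨u, T⟩ := e
  simp only at h1 h2
  have hT : ((0, T) : (M → M → ℚ) × (M → M → ℚ)) ∈ NA bas.coord ⊤ := by
    clear h1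
    induction h2 using Submodule.span_induction with
    | mem T hT =>
      obtain ⟨v, u, hu, rfl⟩ := hT
      rw [dot_expand bas v hu]
      exact Tb_mem_NA bas _
    | zero => exact Submodule.zero_mem _
    | add T T' _ _ h h' => simpa using Submodule.add_mem _ h h'
    | smul a T _ h => simpa using Submodule.smul_mem _ a h
  have hu : ((u, 0) : (M → M → ℚ) × (M → M → ℚ)) ∈ NA bas.coord ⊤ := by
    have : ((u, 0) : (M → M → ℚ) × (M → M → ℚ)) =
      ∑ i, ∑ j, (u (bas i) (bas j) / 2) • ((wedge (bas.coord i) (bas.coord j), 0) :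
        (M → M → ℚ) × (M → M → ℚ)) := by
      conv_lhs => rw [alt_expand bas h1]
      ext x y <;> simp [Prod.fst_sum, Prod.snd_sum]
    rw [this]
    exact Submodule.sum_mem _ fun i _ => Submodule.sum_mem _ fun k _ =>
      Submodule.smul_mem _ _ (wedge_mem_NA bas i k)
  simpa using Submodule.add_mem _ hu hT

omit [Fintype ι] in
theorem NA_le (ξ : ι → Module.Dual ℚ M) (A : Subgroup (FreeGroup ι))
    {e : (M → M → ℚ) × (M → M → ℚ)} (he : e ∈ NA ξ A) : e.1 ∈ Alt2 M ∧ e.2 ∈ L3 M := by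
  rw [mem_NA] at he
  obtain ⟨m, hm, f, _, _, h⟩ := he
  have hm' : (m : ℚ) ≠ 0 := by positivity
  have h1 : e = (m : ℚ)⁻¹ • EE ξ f := by rw [h, smul_smul, inv_mul_cancel₀ hm', one_smul]
  rw [h1]
  exact ⟨Submodule.smul_mem _ _ (U_mem ξ f), Submodule.smul_mem _ _ (S_mem ξ f)⟩

/-- the space of all pairs is finitely generated. -/
def PP (M : Type*) [AddCommGroup M] [Module ℚ M] :
    Submodule ℚ ((M → M → ℚ) × (M → M → ℚ)) := (Alt2 M).prod (L3 M)

include bas in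
theorem PP_fg : (PP M).FG := by
  classical
  have h1 : (Alt2 M).FG := by
    have : Alt2 M ≤ Submodule.span ℚ (Set.range (fun p : ι × ι =>
        wedge (bas.coord p.1) (bas.coord p.2))) := by
      intro u hu
      rw [alt_expand bas hu]
      exact Submodule.sum_mem _ fun i _ => Submodule.sum_mem _ fun k _ =>
        Submodule.smul_mem _ _ (Submodule.subset_span ⟨(i, k), rfl⟩)
    have hfg : (Submodule.span ℚ (Set.range (fun p : ι × ι =>
        wedge (bas.coord p.1) (bas.coord p.2)))).FG := Submodule.fg_span (Set.finite_range _)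
    exact Submodule.FG.of_le hfg this
  have h2 : (L3 M).FG := by
    have : L3 M ≤ Submodule.span ℚ (Set.range (fun p : ι × ι × ι =>
        dot (bas.coord p.1) (wedge (bas.coord p.2.1) (bas.coord p.2.2)))) := by
      rw [L3, Submodule.span_le]
      rintro T ⟨v, u, hu, rfl⟩
      rw [dot_expand bas v hu, Tb_eq]
      exact Submodule.sum_mem _ fun i _ => Submodule.sum_mem _ fun k _ =>
        Submodule.sum_mem _ fun l _ =>
        Submodule.smul_mem _ _ (Submodule.subset_span ⟨(i, k, l), rfl⟩)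
    have hfg : (Submodule.span ℚ (Set.range (fun p : ι × ι × ι =>
        dot (bas.coord p.1) (wedge (bas.coord p.2.1) (bas.coord p.2.2))))).FG :=
      Submodule.fg_span (Set.finite_range _)
    exact Submodule.FG.of_le hfg this
  exact h1.prod h2

end Full

end MP8d
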