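import Pool.Agent.Lib.MP_8d185c_al.Res

/-!
From a finitely generated subgroup that is not residually `DD` to a bad pair of forms.
-/

namespace MP8d

open scoped commutatorElement
open Subgroup

section LF

variable {ι : Type*} [Fintype ι] {M : Type*} [AddCommGroup M] [Module ℚ M]
  (bas : Module.Basis ι ℚ M)

include bas in
theorem eval_repr (ψ : Module.Dual ℚ M →ₗ[ℚ] ℚ) : ∃ x : M, ∀ v : Module.Dual ℚ M, ψ v = v x := by
  refine ⟨∑ i, ψ (bas.coord i) • bas i, fun v => ?_⟩
  conv_lhs => rw [dual_expand bas v]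
  rw [map_sum, map_sum]
  apply Finset.sum_congr rfl
  intro i _
  rw [map_smul, map_smul, smul_eq_mul, smul_eq_mul, mul_comm]

include bas in
theorem lin_system {Γ : Type*} [Group Γ] (A : Subgroup Γ) (Θ : Γ → Module.Dual ℚ M) (τ : Γ → ℚ)
    (h1 : ∀ x ∈ A, ∀ y ∈ A, Θ (x * y) = Θ x + Θ y) (h2 : ∀ x ∈ A, ∀ y ∈ A, τ (x * y) = τ x + τ y)
    (h3 : ∀ x ∈ A, Θ x = 0 → τ x = 0) : ∃ x : M, ∀ r ∈ A, Θ r x = τ r := by
  let G : Submodule ℚ (Module.Dual ℚ M × ℚ) := sat A (fun r => (Θ r, τ r)) (by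
    intro x hx y hy; simp [h1 x hx y hy, h2 x hx y hy])
  let p : G →ₗ[ℚ] Module.Dual ℚ M := (LinearMap.fst ℚ _ _).comp G.subtype
  let q : G →ₗ[ℚ] ℚ := (LinearMap.snd ℚ _ _).comp G.subtype
  have hk : q ∈ (LinearMap.ker p).dualAnnihilator := by
    rw [Submodule.mem_dualAnnihilator]
    rintro ⟨⟨v, t⟩, m, hm, r, hr, hrt⟩ hv
    have hv' : v = 0 := hv
    subst hv'
    simp only [Prod.smul_mk, smul_zero, Prod.mk.injEq] at hrt
    have := h3 r hr hrt.1
    rw [this] at hrt
    have h4 := hrt.2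
    have hm' : (m : ℚ) ≠ 0 := by positivity
    change t = 0
    simpa [hm'] using h4.symm
  rw [← LinearMap.range_dualMap_eq_dualAnnihilator_ker] at hk
  obtain ⟨ψ, hψ⟩ := hk
  obtain ⟨x, hx⟩ := eval_repr bas ψ
  refine ⟨x, fun r hr => ?_⟩
  have hmem : (Θ r, τ r) ∈ G := ⟨1, one_pos, r, hr, by simp⟩
  have := congrArg (fun l => l ⟨(Θ r, τ r), hmem⟩) hψ
  simp only [LinearMap.dualMap_apply'] at this
  rw [← hx]
  exact this

end LF

section Kills

variable {M : Type*} [AddCommGroup M] [Module ℚ M]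

/-- the forms annihilated by the assignment `(α, β, q)`. -/
def kills (α β q : M) : Submodule ℚ ((M → M → ℚ) × (M → M → ℚ)) where
  carrier := {e | e.1 α β = 0 ∧ e.1 α q + e.2 α β = 0 ∧ e.1 β q - e.2 β α = 0}
  zero_mem' := by simp
  add_mem' := by
    rintro e e' ⟨h1, h2, h3⟩ ⟨k1, k2, k3⟩
    refine ⟨?_, ?_, ?_⟩ <;> simp only [Prod.fst_add, Prod.snd_add, Pi.add_apply] <;> linarith
  smul_mem' := by
    rintro c e ⟨h1, h2, h3⟩
    refine ⟨?_, ?_, ?_⟩ <;> simp only [Prod.smul_fst, Prod.smul_snd, Pi.smul_apply, smul_eq_mul]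
    · rw [h1]; ring
    · rw [← mul_add, h2]; ring
    · rw [← mul_sub, h3]; ring

variable {ι : Type*} (ξ : ι → Module.Dual ℚ M)

theorem word_kill (α β q t1 t2 : M) {f : FreeGroup ι} (hV : V ξ f = 0) :
    FreeGroup.lift (fun i => (⟨ξ i α, ξ i β, ξ i q, ξ i t1, ξ i t2⟩ : DD)) f = 1 ↔
      EE ξ f ∈ kills α β q := by
  rw [lift_formula, hV]
  constructor
  · intro h
    have h1 := congrArg DD.q h
    have h2 := congrArg DD.s h
    have h3 := congrArg DD.t h
    simp at h1 h2 h3
    exact ⟨h1, h2, h3⟩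
  · rintro ⟨h1, h2, h3⟩
    simp only [EE] at h1 h2 h3
    ext <;> simp [h1, h2, h3]

end Kills

section Main

variable {ι : Type*} {M : Type*} [AddCommGroup M] [Module ℚ M]
  (bas : Module.Basis ι ℚ M) {H : Type*} [Group H] (h : ι → H)

/-- relations of `h`, as forms -/
noncomputable def NN : Submodule ℚ ((M → M → ℚ) × (M → M → ℚ)) := NA bas.coord (FreeGroup.lift h).ker

theorem bas_delta [DecidableEq ι] (i j : ι) : bas.coord i (bas j) = if i = j then 1 else 0 := by
  rw [Module.Basis.coord_apply, Module.Basis.repr_self, Finsupp.single_apply]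
  simp [eq_comm]

theorem res' {ι : Type*} {M : Type*} [AddCommGroup M] [Module ℚ M]
    (bas : Module.Basis ι ℚ M) {H : Type*} [Group H] (h : ι → H)
    (hc : Cl3 H) {f : FreeGroup ι} (hV : V bas.coord f = 0)
    (hE : EE bas.coord f = 0) : FreeGroup.lift h f = 1 := by
  classical
  let _ : LinearOrder ι := linearOrderOfSTO WellOrderingRel
  exact res bas.coord (fun i j => bas_delta bas i j) hc h hV hE

theorem KP (tf : TF H) (hc : Cl3 H) {f : FreeGroup ι} (hV : V bas.coord f = 0) :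
    EE bas.coord f ∈ NN bas h ↔ FreeGroup.lift h f = 1 := by
  constructor
  · intro hf
    rw [NN, mem_NA] at hf
    obtain ⟨m, hm, g, hVg, hg, hEg⟩ := hf
    rw [MonoidHom.mem_ker] at hg
    apply tf _ m hm
    have h1 : FreeGroup.lift h (f ^ m * g⁻¹) = 1 := by
      apply res' bas h hc
      · simp [hV, hVg]
      · rw [EE_mul _ (by simp [hV]) (by simp [hVg]), EE_inv, EE_pow _ hV, hEg]
        simp
    rw [map_mul, map_inv, hg, map_pow] at h1
    simpa using h1
  · intro hf
    exact EE_mem_NA _ hV hf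

/-- the subgroup generated by `h` is not residually `DD` -/
def NotResD (h : ι → H) : Prop :=
  ∃ w, FreeGroup.lift h w ≠ 1 ∧
    ∀ s : ι → DD, (∀ r, FreeGroup.lift h r = 1 → FreeGroup.lift s r = 1) → FreeGroup.lift s w = 1

/-- `(Bad)` -/
def Bad (N : Submodule ℚ ((M → M → ℚ) × (M → M → ℚ))) : Prop :=
  ∃ e ∈ PP M, e ∉ N ∧ ∀ α β q : M, N ≤ kills α β q → e ∈ kills α β q

theorem step0 [Fintype ι] (tf : TF H) (hc : Cl3 H) (hn : NotResD h) : Bad (NN bas h) := by
  classical
  obtain ⟨w, hw, hs⟩ := hn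
  set A := (FreeGroup.lift h).ker with hA
  -- exponents
  have h1 : V bas.coord w ∈ sat A (V bas.coord) (fun x _ y _ => V_mul _ x y) := by
    by_contra hcon
    obtain ⟨ψ, hψ1, hψ2⟩ := Submodule.exists_le_ker_of_notMem hcon
    obtain ⟨x, hx⟩ := eval_repr bas ψ
    have key : ∀ f : FreeGroup ι, FreeGroup.lift
        (fun i => (⟨bas.coord i 0, bas.coord i 0, bas.coord i 0, bas.coord i x, bas.coord i 0⟩ : DD))
          f = ⟨0, 0, 0, V bas.coord f x, 0⟩ := by
      intro f
      rw [lift_formula]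
      have hS : S bas.coord f 0 0 = 0 := (L3.facts (S_mem bas.coord f)).2.2.1 0
      have hU : U bas.coord f 0 0 = 0 := Alt2.self (U_mem bas.coord f) 0
      simp [hS, hU]
    have h2 := hs _ (fun r hr => by
      rw [key r]
      have hmem : V bas.coord r ∈ sat A (V bas.coord) (fun x _ y _ => V_mul _ x y) :=
        ⟨1, one_pos, r, hr, by simp⟩
      have := hψ2 hmem
      rw [LinearMap.mem_ker, hx] at this
      rw [this]; rfl)
    rw [key w] at h2
    have h3 := congrArg DD.s h2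
    simp only [DD.one_s] at h3
    apply hψ1
    rw [hx, h3]
  obtain ⟨m, hm, r, hr, hVr⟩ := h1
  rw [hA, MonoidHom.mem_ker] at hr
  set w' := w ^ m * r⁻¹ with hw'
  have hVw' : V bas.coord w' = 0 := by
    rw [hw', V_mul, V_pow, V_inv, hVr, Nat.cast_smul_eq_nsmul]
    simp
  have hhw' : FreeGroup.lift h w' ≠ 1 := by
    rw [hw', map_mul, map_inv, hr, map_pow]
    intro hcon
    exact hw (tf _ m hm (by simpa using hcon))
  refine ⟨EE bas.coord w', ⟨U_mem _ _, S_mem _ _⟩, ?_, ?_⟩
  · rw [KP bas h tf hc hVw']; exact hhw'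
  intro α β q hk
  set s0 : ι → DD := fun i =>
    ⟨bas.coord i α, bas.coord i β, bas.coord i q, bas.coord i 0, bas.coord i 0⟩ with hs0
  have hcr : ∀ i, ∀ r ∈ A, FreeGroup.lift s0 r * s0 i = s0 i * FreeGroup.lift s0 r := by
    intro i r hr
    have e1 : FreeGroup.lift s0 ⁅FreeGroup.of i, r⁆ = 1 := by
      rw [word_kill bas.coord α β q 0 0 (V_comm _ _ _)]
      apply hk
      apply EE_mem_NA _ (V_comm _ _ _)
      rw [MonoidHom.mem_ker, map_commutatorElement]
      rw [hA, MonoidHom.mem_ker] at hr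
      rw [hr, commutatorElement_one_right]
    rw [map_commutatorElement, commutatorElement_eq_one_iff_mul_comm] at e1
    simpa using e1.symm
  by_cases hcomm : ∀ i j, s0 i * s0 j = s0 j * s0 i
  · rw [← word_kill bas.coord α β q 0 0 hVw']
    apply comm_triv s0 hcomm
    intro k
    refine ⟨evV bas.coord (bas k), ?_, ?_⟩
    · intro k'
      simp only [evV, MonoidHom.mk'_apply, V_of, bas_delta bas]
      simp [eq_comm]
    · simp [evV, hVw']
  · simp only [not_forall] at hcomm
    obtain ⟨i, j, hij⟩ := hcomm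
    have hcen : ∀ r ∈ A, (FreeGroup.lift s0 r).a = 0 ∧ (FreeGroup.lift s0 r).b = 0 ∧
        (FreeGroup.lift s0 r).q = 0 := fun r hr =>
      DD.cent hij (hcr i r hr) (hcr j r hr)
    have hzero : ∀ r ∈ A, V bas.coord r = 0 → FreeGroup.lift s0 r = 1 := by
      intro r hr hV
      rw [word_kill bas.coord α β q 0 0 hV]
      apply hk
      exact EE_mem_NA _ hV hr
    obtain ⟨x1, hx1⟩ := lin_system bas A (V bas.coord) (fun r => - (FreeGroup.lift s0 r).s)
      (fun x _ y _ => V_mul _ x y) (by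
        intro x hx y hy
        obtain ⟨a1, a2, a3⟩ := hcen x hx
        obtain ⟨b1, b2, b3⟩ := hcen y hy
        simp only [map_mul, DD.mul_s, a1, a2, a3, b1, b2, b3]
        ring) (by
        intro x hx hV
        rw [hzero x hx hV]; simp)
    obtain ⟨x2, hx2⟩ := lin_system bas A (V bas.coord) (fun r => - (FreeGroup.lift s0 r).t)
      (fun x _ y _ => V_mul _ x y) (by
        intro x hx y hy
        obtain ⟨a1, a2, a3⟩ := hcen x hx
        obtain ⟨b1, b2, b3⟩ := hcen y hy
        simp only [map_mul, DD.mul_t, a1, a2, a3, b1, b2, b3]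
        ring) (by
        intro x hx hV
        rw [hzero x hx hV]; simp)
    set s1 : ι → DD := fun i =>
      ⟨bas.coord i α, bas.coord i β, bas.coord i q, bas.coord i x1, bas.coord i x2⟩ with hs1
    have hs1r : ∀ r ∈ A, FreeGroup.lift s1 r = 1 := by
      intro r hr
      obtain ⟨a1, a2, a3⟩ := hcen r hr
      have e1 := hx1 r hr
      have e2 := hx2 r hr
      rw [hs0, lift_formula] at a1 a2 a3 e1 e2
      rw [hs1, lift_formula]
      simp only [map_zero] at a1 a2 a3 e1 e2
      ext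
      · exact a1
      · exact a2
      · exact a3
      · simp only [DD.one_s]; rw [e1]; ring
      · simp only [DD.one_t]; rw [e2]; ring
    have hw1 := hs s1 hs1r
    rw [← word_kill bas.coord α β q x1 x2 hVw']
    change FreeGroup.lift s1 w' = 1
    rw [hw', map_mul, map_pow, map_inv, hw1, hs1r r hr]
    simp

end Main

end MP8d
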