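import Pool.Agent.Lib.MP_8d185c_al.D

/-!
Coordinates of words evaluated in `DD`.
-/

namespace MP8d

open scoped commutatorElement

section Forms

variable {M : Type*} [AddCommGroup M] [Module ℚ M]

/-- alternating bilinear forms, as plain functions -/
def Alt2 (M : Type*) [AddCommGroup M] [Module ℚ M] : Submodule ℚ (M → M → ℚ) where
  carrier := {u | (∀ x x' y, u (x + x') y = u x y + u x' y) ∧
    (∀ (c : ℚ) x y, u (c • x) y = c * u x y) ∧ ∀ x y, u x y = - u y x}
  zero_mem' := by refine ⟨?_, ?_, ?_⟩ <;> intros <;> simp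
  add_mem' := by
    rintro u w ⟨h1, h2, h3⟩ ⟨k1, k2, k3⟩
    refine ⟨?_, ?_, ?_⟩
    · intro x x' y; simp only [Pi.add_apply]; rw [h1, k1]; ring
    · intro x x' y; simp only [Pi.add_apply]; rw [h2, k2]; ring
    · intro x y; simp only [Pi.add_apply]; rw [h3, k3]; ring
  smul_mem' := by
    rintro c u ⟨h1, h2, h3⟩
    refine ⟨?_, ?_, ?_⟩
    · intro x x' y; simp only [Pi.smul_apply, smul_eq_mul]; rw [h1]; ring
    · intro x x' y; simp only [Pi.smul_apply, smul_eq_mul]; rw [h2]; ring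
    · intro x y; simp only [Pi.smul_apply, smul_eq_mul]; rw [h3]; ring

def wedge (v w : Module.Dual ℚ M) : M → M → ℚ := fun x y => v x * w y - w x * v y

def dot (v : Module.Dual ℚ M) (u : M → M → ℚ) : M → M → ℚ := fun x y => v x * u x y

theorem wedge_mem (v w : Module.Dual ℚ M) : wedge v w ∈ Alt2 M := by
  refine ⟨?_, ?_, ?_⟩
  · intro x x' y; simp [wedge]; ring
  · intro x x' y; simp [wedge]; ring
  · intro x y; simp [wedge]; ring

/-- cubic forms of degree (2,1) coming from the free Lie algebra -/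
def L3 (M : Type*) [AddCommGroup M] [Module ℚ M] : Submodule ℚ (M → M → ℚ) :=
  Submodule.span ℚ {T | ∃ v : Module.Dual ℚ M, ∃ u ∈ Alt2 M, T = dot v u}

theorem dot_mem (v : Module.Dual ℚ M) {u : M → M → ℚ} (hu : u ∈ Alt2 M) : dot v u ∈ L3 M :=
  Submodule.subset_span ⟨v, u, hu, rfl⟩

theorem Alt2.add_left {u : M → M → ℚ} (hu : u ∈ Alt2 M) (x x' y : M) :
    u (x + x') y = u x y + u x' y := hu.1 x x' y
theorem Alt2.smul_left {u : M → M → ℚ} (hu : u ∈ Alt2 M) (c : ℚ) (x y : M) :
    u (c • x) y = c * u x y := hu.2.1 c x y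
theorem Alt2.swap {u : M → M → ℚ} (hu : u ∈ Alt2 M) (x y : M) : u x y = - u y x := hu.2.2 x y
theorem Alt2.add_right {u : M → M → ℚ} (hu : u ∈ Alt2 M) (x y y' : M) :
    u x (y + y') = u x y + u x y' := by
  rw [hu.2.2, hu.1, hu.2.2 x y, hu.2.2 x y']; ring
theorem Alt2.smul_right {u : M → M → ℚ} (hu : u ∈ Alt2 M) (c : ℚ) (x y : M) :
    u x (c • y) = c * u x y := by
  rw [hu.2.2, hu.2.1, hu.2.2 x y]; ring
theorem Alt2.self {u : M → M → ℚ} (hu : u ∈ Alt2 M) (x : M) : u x x = 0 := by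
  have := hu.2.2 x x
  linarith
theorem Alt2.zero_left {u : M → M → ℚ} (hu : u ∈ Alt2 M) (y : M) : u 0 y = 0 := by
  have := hu.2.1 0 0 y
  simpa using this
theorem Alt2.zero_right {u : M → M → ℚ} (hu : u ∈ Alt2 M) (y : M) : u y 0 = 0 := by
  rw [hu.2.2, Alt2.zero_left hu]; simp

/-- package as bilinear map -/
def Alt2.bil {u : M → M → ℚ} (hu : u ∈ Alt2 M) : M →ₗ[ℚ] M →ₗ[ℚ] ℚ :=
  LinearMap.mk₂ ℚ u (fun x x' y => hu.1 x x' y) (fun c x y => by rw [hu.2.1]; rfl)
    (fun x y y' => Alt2.add_right hu x y y') (fun c x y => by rw [Alt2.smul_right hu]; rfl)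

@[simp] theorem Alt2.bil_apply {u : M → M → ℚ} (hu : u ∈ Alt2 M) (x y : M) :
    Alt2.bil hu x y = u x y := rfl

/-- `L3` elements are linear in the second variable and vanish when x=y or x = 0. -/
theorem L3.facts {T : M → M → ℚ} (hT : T ∈ L3 M) :
    (∀ x y y', T x (y + y') = T x y + T x y') ∧ (∀ (c : ℚ) x y, T x (c • y) = c * T x y) ∧
    (∀ x, T x x = 0) ∧ (∀ (c : ℚ) x y, T (c • x) y = c ^ 2 * T x y) := by
  induction hT using Submodule.span_induction with
  | mem T hT =>
    obtain ⟨v, u, hu, rfl⟩ := hT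
    refine ⟨?_, ?_, ?_, ?_⟩
    · intro x y y'; simp only [dot]; rw [Alt2.add_right hu]; ring
    · intro c x y; simp only [dot]; rw [Alt2.smul_right hu]; ring
    · intro x; simp only [dot]; rw [Alt2.self hu]; ring
    · intro c x y; simp only [dot]; rw [Alt2.smul_left hu, map_smul, smul_eq_mul]; ring
  | zero => refine ⟨?_, ?_, ?_, ?_⟩ <;> intros <;> simp
  | add T T' _ _ h h' =>
    obtain ⟨h1, h2, h3, h4⟩ := h
    obtain ⟨k1, k2, k3, k4⟩ := h'
    refine ⟨?_, ?_, ?_, ?_⟩
    · intro x y y'; simp only [Pi.add_apply]; rw [h1, k1]; ring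
    · intro c x y; simp only [Pi.add_apply]; rw [h2, k2]; ring
    · intro x; simp only [Pi.add_apply]; rw [h3, k3]; ring
    · intro c x y; simp only [Pi.add_apply]; rw [h4, k4]; ring
  | smul a T _ h =>
    obtain ⟨h1, h2, h3, h4⟩ := h
    refine ⟨?_, ?_, ?_, ?_⟩
    · intro x y y'; simp only [Pi.smul_apply, smul_eq_mul]; rw [h1]; ring
    · intro c x y; simp only [Pi.smul_apply, smul_eq_mul]; rw [h2]; ring
    · intro x; simp only [Pi.smul_apply, smul_eq_mul]; rw [h3]; ring
    · intro c x y; simp only [Pi.smul_apply, smul_eq_mul]; rw [h4]; ring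

end Forms

section Words

variable {ι : Type*} {M : Type*} [AddCommGroup M] [Module ℚ M] (ξ : ι → Module.Dual ℚ M)

/-- evaluation at the assignment `(x,y)` -/
def ev (x y : M) : FreeGroup ι →* DD :=
  FreeGroup.lift (fun i => (⟨ξ i x, ξ i y, 0, 0, 0⟩ : DD))

def VV : FreeGroup ι →* Multiplicative (Module.Dual ℚ M) :=
  FreeGroup.lift (fun i => Multiplicative.ofAdd (ξ i))

/-- exponent functional -/
def V (f : FreeGroup ι) : Module.Dual ℚ M := (VV ξ f).toAdd

def U (f : FreeGroup ι) : M → M → ℚ := fun x y => (ev ξ x y f).q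

def S (f : FreeGroup ι) : M → M → ℚ := fun x y => (ev ξ x y f).s

@[simp] theorem V_of (i : ι) : V ξ (FreeGroup.of i) = ξ i := by simp [V, VV]
@[simp] theorem V_one : V ξ 1 = 0 := by simp [V]
@[simp] theorem V_mul (f g : FreeGroup ι) : V ξ (f * g) = V ξ f + V ξ g := by simp [V]
@[simp] theorem V_inv (f : FreeGroup ι) : V ξ f⁻¹ = - V ξ f := by simp [V]
@[simp] theorem V_pow (f : FreeGroup ι) (n : ℕ) : V ξ (f ^ n) = n • V ξ f := by simp [V]
@[simp] theorem V_zpow (f : FreeGroup ι) (n : ℤ) : V ξ (f ^ n) = n • V ξ f := by simp [V]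
@[simp] theorem V_comm (f g : FreeGroup ι) : V ξ ⁅f, g⁆ = 0 := by
  simp [commutatorElement_def]

theorem word_ind {ι : Type*} {P : FreeGroup ι → Prop} (one : P 1) (of : ∀ i, P (FreeGroup.of i))
    (inv : ∀ f, P f → P f⁻¹) (mul : ∀ f g, P f → P g → P (f * g)) (f : FreeGroup ι) : P f := by
  induction f using FreeGroup.induction_on with
  | C1 => exact one
  | of i => exact of i
  | inv_of i h => exact inv _ h
  | mul f g hf hg => exact mul _ _ hf hg

theorem ev_a (f : FreeGroup ι) (x y : M) : (ev ξ x y f).a = V ξ f x := by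
  induction f using word_ind with
  | one => simp
  | of i => simp [ev]
  | inv i h => simp [h]
  | mul f g hf hg => simp [hf, hg]

theorem ev_b (f : FreeGroup ι) (x y : M) : (ev ξ x y f).b = V ξ f y := by
  induction f using word_ind with
  | one => simp
  | of i => simp [ev]
  | inv i h => simp [h]
  | mul f g hf hg => simp [hf, hg]

@[simp] theorem U_of (i : ι) (x y : M) : U ξ (FreeGroup.of i) x y = 0 := by simp [U, ev]
@[simp] theorem U_one (x y : M) : U ξ 1 x y = 0 := by simp [U]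
theorem U_mul (f g : FreeGroup ι) (x y : M) : U ξ (f * g) x y = U ξ f x y + U ξ g x y
    + (V ξ f x * V ξ g y - V ξ g x * V ξ f y) / 2 := by
  simp [U, ev_a, ev_b]
theorem U_inv (f : FreeGroup ι) (x y : M) : U ξ f⁻¹ x y = - U ξ f x y := by simp [U]

@[simp] theorem S_of (i : ι) (x y : M) : S ξ (FreeGroup.of i) x y = 0 := by simp [S, ev]
@[simp] theorem S_one (x y : M) : S ξ 1 x y = 0 := by simp [S]
theorem S_mul (f g : FreeGroup ι) (x y : M) : S ξ (f * g) x y = S ξ f x y + S ξ g x y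
    + (U ξ g x y * V ξ f x - U ξ f x y * V ξ g x) / 2
    + (V ξ f x * V ξ g y - V ξ g x * V ξ f y) * (V ξ f x - V ξ g x) / 12 := by
  simp [U, S, ev_a, ev_b]
theorem S_inv (f : FreeGroup ι) (x y : M) : S ξ f⁻¹ x y = - S ξ f x y := by simp [S]

theorem U_mem (f : FreeGroup ι) : U ξ f ∈ Alt2 M := by
  induction f using word_ind with
  | one => convert (Alt2 M).zero_mem; ext x y; simp
  | of i => convert (Alt2 M).zero_mem; ext x y; simp
  | inv f h => convert (Alt2 M).neg_mem h; ext x y; simp [U_inv]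
  | mul f g hf hg =>
    have := (Alt2 M).add_mem ((Alt2 M).add_mem hf hg)
      ((Alt2 M).smul_mem (1/2) (wedge_mem (V ξ f) (V ξ g)))
    convert this using 1
    ext x y
    rw [U_mul]; simp [wedge]; ring

theorem S_mem (f : FreeGroup ι) : S ξ f ∈ L3 M := by
  induction f using word_ind with
  | one => convert (L3 M).zero_mem; ext x y; simp
  | of i => convert (L3 M).zero_mem; ext x y; simp
  | inv f h => convert (L3 M).neg_mem h; ext x y; simp [S_inv]
  | mul f g hf hg =>
    have := (L3 M).add_mem ((L3 M).add_mem ((L3 M).add_mem hf hg)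
      ((L3 M).add_mem ((L3 M).smul_mem (1/2) (dot_mem (V ξ f) (U_mem ξ g)))
        ((L3 M).smul_mem (-1/2) (dot_mem (V ξ g) (U_mem ξ f)))))
      ((L3 M).smul_mem (1/12) (dot_mem (V ξ f - V ξ g) (wedge_mem (V ξ f) (V ξ g))))
    convert this using 1
    ext x y
    rw [S_mul]; simp [wedge, dot]; ring

/-- the value of a word under a general assignment with coordinates in `M` -/
theorem lift_formula (α β q t1 t2 : M) (f : FreeGroup ι) :
    FreeGroup.lift (fun i => (⟨ξ i α, ξ i β, ξ i q, ξ i t1, ξ i t2⟩ : DD)) f =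
      ⟨V ξ f α, V ξ f β, V ξ f q + U ξ f α β, V ξ f t1 + U ξ f α q + S ξ f α β,
        V ξ f t2 + U ξ f β q - S ξ f β α⟩ := by
  induction f using word_ind with
  | one => ext <;> simp
  | of i => ext <;> simp
  | inv f h => rw [map_inv, h]; ext <;> simp [U_inv, S_inv] <;> ring
  | mul f g hf hg =>
    rw [map_mul, hf, hg]
    have hu := Alt2.swap (U_mem ξ f) β α
    have hu' := Alt2.swap (U_mem ξ g) β α
    ext <;> simp [U_mul, S_mul]
    · ring
    · ring
    · rw [hu, hu']; ring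

theorem ev_eq (f : FreeGroup ι) (x y : M) :
    ev ξ x y f = ⟨V ξ f x, V ξ f y, U ξ f x y, S ξ f x y, - S ξ f y x⟩ := by
  have := lift_formula ξ x y 0 0 0 f
  simp only [map_zero, zero_add, Alt2.zero_right (U_mem ξ f), zero_sub] at this
  rw [← this]
  rfl

end Words

end MP8d
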